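import Pool.Agent.Run7.h167.MC.One

/-!
# Slopes at infinity
-/

set_option autoImplicit false

namespace Pool.Agent.Run7.h167.MC

open Set Filter Topology

theorem lim_slope {f : ℝ → ℝ} (hf : ConvexOn ℝ univ f) (hS : ¬ SLp f) :
    ∃ S : ℝ, Tendsto (fun x => f x / x) atTop (𝓝 S) := by
  unfold SLp at hS
  push Not at hS
  obtain ⟨K, hK⟩ := hS
  have mono : ∀ a b : ℝ, 0 < a → a ≤ b → (f a - f 0) / a ≤ (f b - f 0) / b := by
    intro a b ha hab
    have hb : 0 < b := by linarith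
    have h1 := hf.2 (mem_univ 0) (mem_univ b)
      (show 0 ≤ 1 - a / b by rw [sub_nonneg, div_le_one hb]; exact hab)
      (show 0 ≤ a / b by positivity) (by ring)
    have e : (1 - a / b) • (0 : ℝ) + (a / b) • b = a := by
      simp only [smul_eq_mul]; field_simp; ring
    rw [e] at h1
    simp only [smul_eq_mul] at h1
    rw [div_le_div_iff₀ ha hb]
    have h2 : f a * b ≤ ((1 - a / b) * f 0 + a / b * f b) * b :=
      mul_le_mul_of_nonneg_right h1 hb.le
    have e2 : ((1 - a / b) * f 0 + a / b * f b) * b = b * f 0 - a * f 0 + a * f b := by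
      field_simp
    nlinarith
  set G : ℝ → ℝ := fun x => (f (max x 1) - f 0) / max x 1 with hG
  have hp : ∀ x : ℝ, 0 < max x 1 := fun x => lt_of_lt_of_le one_pos (le_max_right _ _)
  have hGm : Monotone G := fun a b hab => mono _ _ (hp a) (max_le_max hab le_rfl)
  have hGb : BddAbove (range G) := by
    refine ⟨K, ?_⟩
    rintro _ ⟨x, rfl⟩
    simp only [hG]
    rw [div_le_iff₀ (hp x)]
    have := hK 0 (max x 1) (hp x)
    linarith
  refine ⟨⨆ x, G x, ?_⟩
  have h1 := tendsto_atTop_ciSup hGm hGb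
  have h2 : Tendsto (fun x : ℝ => f 0 / x) atTop (𝓝 0) := tendsto_const_nhds.div_atTop tendsto_id
  have h3 := h1.add h2
  rw [add_zero] at h3
  refine h3.congr' ?_
  filter_upwards [eventually_ge_atTop (1 : ℝ)] with x hx
  simp only [hG, max_eq_left hx]
  ring

theorem lim_scale {f : ℝ → ℝ} {S : ℝ} (h : Tendsto (fun x => f x / x) atTop (𝓝 S)) {c : ℝ}
    (hc : 0 < c) : Tendsto (fun m => f (c * m) / m) atTop (𝓝 (c * S)) := by
  have h1 : Tendsto (fun m : ℝ => c * m) atTop atTop := tendsto_id.const_mul_atTop hc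
  have h2 := (h.comp h1).const_mul c
  refine h2.congr' ?_
  filter_upwards [eventually_gt_atTop (0 : ℝ)] with m hm
  simp only [Function.comp]
  field_simp

theorem asym {f g : ℝ → ℝ} {S T p : ℝ} (hf : Tendsto (fun x => f x / x) atTop (𝓝 S))
    (hg : Tendsto (fun x => g x / x) atTop (𝓝 T))
    (hM : ∀ x y X Y : ℝ, 0 < X → 0 < Y →
      2 * (f x * g y) ≤ f (x + X) * g (y - Y) + f (x - X) * g (y + Y) + 2 * p * (X * Y)) :
    S * T ≤ p := by
  have l1 : Tendsto (fun m => 2 * ((f (1 * m) / m) * (g (1 * m) / m))) atTop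
      (𝓝 (2 * ((1 * S) * (1 * T)))) :=
    ((lim_scale hf one_pos).mul (lim_scale hg one_pos)).const_mul 2
  have l2 : Tendsto (fun m => (f (3 / 2 * m) / m) * (g (1 / 2 * m) / m)
      + (f (1 / 2 * m) / m) * (g (3 / 2 * m) / m) + 2 * p * (1 / 4)) atTop
      (𝓝 ((3 / 2 * S) * (1 / 2 * T) + (1 / 2 * S) * (3 / 2 * T) + 2 * p * (1 / 4))) :=
    (((lim_scale hf (by norm_num)).mul (lim_scale hg (by norm_num))).add
      ((lim_scale hf (by norm_num)).mul (lim_scale hg (by norm_num)))).add_const _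
  have h := le_of_tendsto_of_tendsto l1 l2 (by
    filter_upwards [eventually_gt_atTop (0 : ℝ)] with m hm
    have h1 := hM m m (m / 2) (m / 2) (by linarith) (by linarith)
    rw [show m + m / 2 = 3 / 2 * m by ring, show m - m / 2 = 1 / 2 * m by ring] at h1
    have hm2 : 0 < m * m := by positivity
    have e1 : 2 * ((f (1 * m) / m) * (g (1 * m) / m)) * (m * m) = 2 * (f m * g m) := by
      rw [one_mul]; field_simp
    have e2 : ((f (3 / 2 * m) / m) * (g (1 / 2 * m) / m)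
      + (f (1 / 2 * m) / m) * (g (3 / 2 * m) / m) + 2 * p * (1 / 4)) * (m * m)
      = f (3 / 2 * m) * g (1 / 2 * m) + f (1 / 2 * m) * g (3 / 2 * m)
        + 2 * p * (m / 2 * (m / 2)) := by
      field_simp
      ring
    have h2 : 2 * ((f (1 * m) / m) * (g (1 * m) / m)) * (m * m)
      ≤ ((f (3 / 2 * m) / m) * (g (1 / 2 * m) / m)
      + (f (1 / 2 * m) / m) * (g (3 / 2 * m) / m) + 2 * p * (1 / 4)) * (m * m) := by
      rw [e1, e2]; exact h1
    exact le_of_mul_le_mul_right h2 hm2)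
  nlinarith

theorem sub_le_lim {f : ℝ → ℝ} {S s x0 : ℝ} (hf : Tendsto (fun x => f x / x) atTop (𝓝 S))
    (hs : ∀ x, f x0 + s * (x - x0) ≤ f x) : s ≤ S := by
  have h2 : Tendsto (fun x : ℝ => s + (f x0 - s * x0) / x) atTop (𝓝 (s + 0)) :=
    tendsto_const_nhds.add (tendsto_const_nhds.div_atTop tendsto_id)
  rw [add_zero] at h2
  refine le_of_tendsto_of_tendsto h2 hf ?_
  filter_upwards [eventually_gt_atTop (0 : ℝ)] with x hx
  rw [le_div_iff₀ hx, add_mul, div_mul_cancel₀ _ hx.ne']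
  have := hs x
  linarith

theorem nonneg_lim {f : ℝ → ℝ} {S : ℝ} (hf : Tendsto (fun x => f x / x) atTop (𝓝 S))
    (f0 : ∀ x, 0 ≤ f x) : 0 ≤ S := by
  refine ge_of_tendsto hf ?_
  filter_upwards [eventually_gt_atTop (0 : ℝ)] with x hx
  exact div_nonneg (f0 x) hx.le

theorem prod_le {f g : ℝ → ℝ} (hf : ConvexOn ℝ univ f) (f0 : ∀ x, 0 ≤ f x)
    (hg : ConvexOn ℝ univ g) (g0 : ∀ x, 0 ≤ g x) (hSf : ¬ SLp f) (hSg : ¬ SLp g) {p : ℝ}
    (hM : ∀ x y X Y : ℝ, 0 < X → 0 < Y →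
      2 * (f x * g y) ≤ f (x + X) * g (y - Y) + f (x - X) * g (y + Y) + 2 * p * (X * Y))
    {x0 y0 s t : ℝ} (hs : ∀ x, f x0 + s * (x - x0) ≤ f x)
    (ht : ∀ y, g y0 + t * (y - y0) ≤ g y) : max s 0 * max t 0 ≤ p := by
  obtain ⟨S, hS⟩ := lim_slope hf hSf
  obtain ⟨T, hT⟩ := lim_slope hg hSg
  have h1 := asym hS hT hM
  have h2 : max s 0 ≤ S := max_le (sub_le_lim hS hs) (nonneg_lim hS f0)
  have h3 : max t 0 ≤ T := max_le (sub_le_lim hT ht) (nonneg_lim hT g0)
  have h4 := mul_le_mul h2 h3 (le_max_right _ _) (nonneg_lim hS f0)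
  linarith

/-- reflection of convex functions -/
theorem convex_refl {f : ℝ → ℝ} (hf : ConvexOn ℝ univ f) : ConvexOn ℝ univ (fun x => f (-x)) := by
  have h := hf.comp_linearMap (-LinearMap.id : ℝ →ₗ[ℝ] ℝ)
  rw [preimage_univ] at h
  exact h

end Pool.Agent.Run7.h167.MC
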