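import Mathlib

/-!
# Functions with a monotone mixed derivative, on a square

Let `m = h₁₂` be nondecreasing in each variable and `0 ≤ m ≤ n δ` on the square `[-R, R]²`, and let
`(x₀, y₀)` be a point of the square.  With the sets `{m(·, y₀) ≥ (i + 1) δ}` and
`{m(x₀, ·) ≥ (i + 1) δ}`, `i < n`, and their distribution functions `Aᵢ, Bᵢ`, the difference of
`h(x, y) - h(x, -R) - h(-R, y)` and `∑ δ Aᵢ(x) Bᵢ(y)` is minimal at `(x₀, y₀)` up to `8 R² δ`.
-/

set_option autoImplicit false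

namespace Pool.Agent.Run7.h167.MC

open Set Filter Topology MeasureTheory intervalIntegral

/-- staircase -/
noncomputable def stair (δ : ℝ) (n : ℕ) (μ : ℝ) : ℝ :=
  ∑ i ∈ Finset.range n, δ * (if ((i : ℝ) + 1) * δ ≤ μ then 1 else 0)

theorem stair_le_n {δ : ℝ} (hδ : 0 ≤ δ) (n : ℕ) (μ : ℝ) : stair δ n μ ≤ n * δ := by
  unfold stair
  have h : ∀ i ∈ Finset.range n, δ * (if ((i : ℝ) + 1) * δ ≤ μ then (1 : ℝ) else 0) ≤ δ := by
    intro i _
    split_ifs <;> linarith
  have := Finset.sum_le_sum h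
  simpa [mul_comm] using this

theorem stair_le {δ : ℝ} (hδ : 0 ≤ δ) (n : ℕ) {μ : ℝ} (hμ : 0 ≤ μ) : stair δ n μ ≤ μ := by
  induction n with
  | zero => simpa [stair] using hμ
  | succ n ih =>
    by_cases h : ((n : ℝ) + 1) * δ ≤ μ
    · have := stair_le_n hδ (n + 1) μ
      push_cast at this
      linarith
    · unfold stair at ih ⊢
      rw [Finset.sum_range_succ, if_neg h]
      linarith

theorem stair_full {δ : ℝ} (hδ : 0 ≤ δ) (n : ℕ) {μ : ℝ} (hμ : n * δ ≤ μ) :
    stair δ n μ = n * δ := by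
  unfold stair
  have h : ∀ i ∈ Finset.range n, δ * (if ((i : ℝ) + 1) * δ ≤ μ then (1 : ℝ) else 0) = δ := by
    intro i hi
    have h1 : ((i : ℝ) + 1) ≤ n := by
      have := Finset.mem_range.1 hi
      exact_mod_cast this
    rw [if_pos (by nlinarith)]
    ring
  rw [Finset.sum_congr rfl h]
  simp

theorem le_stair {δ : ℝ} (hδ : 0 ≤ δ) (n : ℕ) {μ : ℝ} (hμ : μ ≤ n * δ) :
    μ ≤ stair δ n μ + δ := by
  induction n with
  | zero =>
    simp only [stair, Finset.range_zero, Finset.sum_empty]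
    push_cast at hμ
    linarith
  | succ n ih =>
    rcases le_total μ (n * δ) with h | h
    · have h1 := ih h
      have h2 : stair δ n μ ≤ stair δ (n + 1) μ := by
        unfold stair
        rw [Finset.sum_range_succ]
        split_ifs <;> linarith
      linarith
    · have h1 := stair_full hδ n h
      have h2 : stair δ n μ ≤ stair δ (n + 1) μ := by
        unfold stair
        rw [Finset.sum_range_succ]
        split_ifs <;> linarith
      push_cast at hμ
      linarith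

/-- indicator of `{u ≥ c}` right of `-R` -/
noncomputable def chi (R c : ℝ) (u : ℝ → ℝ) (s : ℝ) : ℝ :=
  if -R ≤ s ∧ c ≤ u s then 1 else 0

theorem chi_nonneg (R c : ℝ) (u : ℝ → ℝ) (s : ℝ) : 0 ≤ chi R c u s := by
  unfold chi; split_ifs <;> norm_num

theorem chi_le_one (R c : ℝ) (u : ℝ → ℝ) (s : ℝ) : chi R c u s ≤ 1 := by
  unfold chi; split_ifs <;> norm_num

theorem chi_mono {R c : ℝ} {u : ℝ → ℝ} (hu : Monotone u) : Monotone (chi R c u) := by
  intro s t hst
  unfold chi
  by_cases h : -R ≤ s ∧ c ≤ u s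
  · rw [if_pos h, if_pos ⟨h.1.trans hst, h.2.trans (hu hst)⟩]
  · rw [if_neg h]
    split_ifs <;> norm_num

theorem chi_left {R c : ℝ} {u : ℝ → ℝ} {s : ℝ} (h : s < -R) : chi R c u s = 0 := by
  unfold chi
  rw [if_neg (fun h1 => absurd h1.1 (by linarith))]

/-- distribution function -/
noncomputable def AA (R c : ℝ) (u : ℝ → ℝ) (x : ℝ) : ℝ := ∫ s in (-R)..x, chi R c u s

theorem chi_int {R c : ℝ} {u : ℝ → ℝ} (hu : Monotone u) (a b : ℝ) :
    IntervalIntegrable (chi R c u) volume a b := (chi_mono hu).intervalIntegrable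

theorem AA_sub {R c : ℝ} {u : ℝ → ℝ} (hu : Monotone u) (x y : ℝ) :
    AA R c u y - AA R c u x = ∫ s in x..y, chi R c u s := by
  unfold AA
  rw [integral_interval_sub_left (chi_int hu _ _) (chi_int hu _ _)]

theorem AA_zero (R c : ℝ) (u : ℝ → ℝ) : AA R c u (-R) = 0 := by
  unfold AA
  exact integral_same

/-- convexity at a point -/
theorem AA_support {R c : ℝ} {u : ℝ → ℝ} (hu : Monotone u) (x0 x : ℝ) :
    AA R c u x0 + chi R c u x0 * (x - x0) ≤ AA R c u x := by
  have h := AA_sub (R := R) (c := c) hu x0 x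
  rcases le_total x0 x with h1 | h1
  · have h2 : ∫ s in x0..x, chi R c u x0 ≤ ∫ s in x0..x, chi R c u s :=
      integral_mono_on h1 (by simp) (chi_int hu _ _) (fun s hs => chi_mono hu hs.1)
    rw [intervalIntegral.integral_const, smul_eq_mul] at h2
    linarith
  · have h2 : ∫ s in x..x0, chi R c u s ≤ ∫ s in x..x0, chi R c u x0 :=
      integral_mono_on h1 (chi_int hu _ _) (by simp) (fun s hs => chi_mono hu hs.2)
    rw [intervalIntegral.integral_const, smul_eq_mul] at h2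
    rw [integral_symm] at h
    linarith

theorem AA_le {R c : ℝ} {u : ℝ → ℝ} (hu : Monotone u) {x y : ℝ} (hxy : x ≤ y) :
    AA R c u y ≤ AA R c u x + (y - x) := by
  have h := AA_sub (R := R) (c := c) hu x y
  have h2 : ∫ s in x..y, chi R c u s ≤ ∫ s in x..y, (1 : ℝ) :=
    integral_mono_on hxy (chi_int hu _ _) (by simp) (fun s hs => chi_le_one _ _ _ _)
  rw [intervalIntegral.integral_const, smul_eq_mul, mul_one] at h2
  linarith

theorem AA_mono {R c : ℝ} {u : ℝ → ℝ} (hu : Monotone u) {x y : ℝ} (hxy : x ≤ y) :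
    AA R c u x ≤ AA R c u y := by
  have h := AA_sub (R := R) (c := c) hu x y
  have h2 : 0 ≤ ∫ s in x..y, chi R c u s :=
    integral_nonneg hxy (fun s _ => chi_nonneg _ _ _ _)
  linarith

theorem AA_nonneg {R c : ℝ} {u : ℝ → ℝ} (hu : Monotone u) (x : ℝ) : 0 ≤ AA R c u x := by
  rcases le_total (-R) x with h | h
  · have := AA_mono (R := R) (c := c) hu h
    rwa [AA_zero] at this
  · unfold AA
    rw [integral_symm]
    have : ∫ s in x..(-R), chi R c u s = 0 := by
      rw [integral_of_le h, integral_Ioc_eq_integral_Ioo]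
      exact setIntegral_eq_zero_of_forall_eq_zero (fun s hs => chi_left hs.2)
    rw [this]
    simp

theorem AA_lip {R c : ℝ} {u : ℝ → ℝ} (hu : Monotone u) (x y : ℝ) :
    |AA R c u x - AA R c u y| ≤ |x - y| := by
  rcases le_total x y with h | h
  · have h1 := AA_le (R := R) (c := c) hu h
    have h2 := AA_mono (R := R) (c := c) hu h
    rw [abs_of_nonpos (by linarith), abs_of_nonpos (by linarith)]
    linarith
  · have h1 := AA_le (R := R) (c := c) hu h
    have h2 := AA_mono (R := R) (c := c) hu h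
    rw [abs_of_nonneg (by linarith), abs_of_nonneg (by linarith)]
    linarith

theorem AA_cont {R c : ℝ} {u : ℝ → ℝ} (hu : Monotone u) : Continuous (AA R c u) := by
  have : LipschitzWith 1 (AA R c u) := by
    refine LipschitzWith.of_dist_le_mul fun x y => ?_
    rw [Real.dist_eq, Real.dist_eq, NNReal.coe_one, one_mul]
    exact AA_lip hu x y
  exact this.continuous

/-- the value vanishes left of the threshold -/
theorem AA_eq_zero {R c : ℝ} {u : ℝ → ℝ} (hu : Monotone u) {x : ℝ} (h : chi R c u x = 0) :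
    AA R c u x = 0 := by
  refine le_antisymm ?_ (AA_nonneg hu x)
  have h1 := AA_support (R := R) (c := c) hu x (-R)
  rw [h, AA_zero] at h1
  linarith

theorem AA_comp {R c : ℝ} {u v : ℝ → ℝ} (hu : Monotone u) (hv : Monotone v)
    (huv : ∀ s, u s ≤ v s) {x : ℝ} (hx : -R ≤ x) : AA R c u x ≤ AA R c v x := by
  unfold AA
  refine integral_mono_on hx (chi_int hu _ _) (chi_int hv _ _) fun s _ => ?_
  unfold chi
  by_cases h : -R ≤ s ∧ c ≤ u s
  · rw [if_pos h, if_pos ⟨h.1, h.2.trans (huv s)⟩]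
  · rw [if_neg h]
    split_ifs <;> norm_num

/-- the data: `G` and `m` are the derivatives `h₂` and `h₁₂` -/
structure Data (h G m : ℝ → ℝ → ℝ) : Prop where
  dG : ∀ x t, HasDerivAt (h x) (G x t) t
  cG : ∀ x, Continuous (G x)
  dm : ∀ s t, HasDerivAt (fun s => G s t) (m s t) s
  m1 : ∀ t, Monotone (fun s => m s t)
  m2 : ∀ s, Monotone (m s)

/-- the sum of products -/
noncomputable def SS (R δ : ℝ) (n : ℕ) (u v : ℝ → ℝ) (x y : ℝ) : ℝ :=
  ∑ i ∈ Finset.range n, δ * (AA R (((i : ℝ) + 1) * δ) u x * AA R (((i : ℝ) + 1) * δ) v y)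

/-- its derivative in `y` -/
noncomputable def SY (R δ : ℝ) (n : ℕ) (u v : ℝ → ℝ) (x t : ℝ) : ℝ :=
  ∑ i ∈ Finset.range n, δ * (AA R (((i : ℝ) + 1) * δ) u x * chi R (((i : ℝ) + 1) * δ) v t)

/-- its mixed derivative -/
noncomputable def SM (R δ : ℝ) (n : ℕ) (u v : ℝ → ℝ) (s t : ℝ) : ℝ :=
  ∑ i ∈ Finset.range n, δ * (chi R (((i : ℝ) + 1) * δ) u s * chi R (((i : ℝ) + 1) * δ) v t)

theorem SM_eq {R δ : ℝ} {n : ℕ} {u v : ℝ → ℝ} {s t : ℝ} (hs : -R ≤ s) (ht : -R ≤ t) :
    SM R δ n u v s t = stair δ n (min (u s) (v t)) := by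
  unfold SM stair
  refine Finset.sum_congr rfl fun i _ => ?_
  unfold chi
  by_cases h1 : ((i : ℝ) + 1) * δ ≤ u s
  · by_cases h2 : ((i : ℝ) + 1) * δ ≤ v t
    · rw [if_pos ⟨hs, h1⟩, if_pos ⟨ht, h2⟩, if_pos (le_min h1 h2)]
      ring
    · rw [if_pos ⟨hs, h1⟩, if_neg (fun h => h2 h.2),
        if_neg (fun h => h2 (h.trans (min_le_right _ _)))]
      ring
  · have e1 : ¬ (-R ≤ s ∧ ((i : ℝ) + 1) * δ ≤ u s) := fun h => h1 h.2
    have e2 : ¬ (((i : ℝ) + 1) * δ ≤ min (u s) (v t)) := fun h => h1 (h.trans (min_le_left _ _))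
    rw [if_neg e1, if_neg e2]
    ring

theorem SM_int {R δ : ℝ} {n : ℕ} {u v : ℝ → ℝ} (hu : Monotone u) (t a b : ℝ) :
    IntervalIntegrable (fun s => SM R δ n u v s t) volume a b := by
  have h := IntervalIntegrable.sum (μ := volume) (a := a) (b := b) (Finset.range n)
    (f := fun (i : ℕ) (s : ℝ) =>
      δ * (chi R (((i : ℝ) + 1) * δ) u s * chi R (((i : ℝ) + 1) * δ) v t))
    (fun i _ => ((chi_int hu a b).mul_const _).const_mul _)
  have e : (fun s => SM R δ n u v s t) = ∑ i ∈ Finset.range n, fun (s : ℝ) =>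
      δ * (chi R (((i : ℝ) + 1) * δ) u s * chi R (((i : ℝ) + 1) * δ) v t) := by
    funext s
    simp [SM, Finset.sum_apply]
  rw [e]
  exact h

theorem SY_int {R δ : ℝ} {n : ℕ} {u v : ℝ → ℝ} (hv : Monotone v) (x a b : ℝ) :
    IntervalIntegrable (fun t => SY R δ n u v x t) volume a b := by
  have h := IntervalIntegrable.sum (μ := volume) (a := a) (b := b) (Finset.range n)
    (f := fun (i : ℕ) (t : ℝ) =>
      δ * (AA R (((i : ℝ) + 1) * δ) u x * chi R (((i : ℝ) + 1) * δ) v t))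
    (fun i _ => ((chi_int hv a b).const_mul _).const_mul _)
  have e : (fun t => SY R δ n u v x t) = ∑ i ∈ Finset.range n, fun (t : ℝ) =>
      δ * (AA R (((i : ℝ) + 1) * δ) u x * chi R (((i : ℝ) + 1) * δ) v t) := by
    funext s
    simp [SY, Finset.sum_apply]
  rw [e]
  exact h

theorem SY_sub {R δ : ℝ} {n : ℕ} {u v : ℝ → ℝ} (hu : Monotone u) (x x' t : ℝ) :
    SY R δ n u v x t - SY R δ n u v x' t = ∫ s in x'..x, SM R δ n u v s t := by
  unfold SM SY
  rw [intervalIntegral.integral_finsetSum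
    (fun i _ => ((chi_int hu _ _).mul_const _).const_mul _), ← Finset.sum_sub_distrib]
  refine Finset.sum_congr rfl fun i _ => ?_
  rw [intervalIntegral.integral_const_mul, intervalIntegral.integral_mul_const, ← AA_sub hu]
  ring

theorem SS_eq {R δ : ℝ} {n : ℕ} {u v : ℝ → ℝ} (hv : Monotone v) (x y : ℝ) :
    SS R δ n u v x y = ∫ t in (-R)..y, SY R δ n u v x t := by
  unfold SS SY
  rw [intervalIntegral.integral_finsetSum
    (fun i _ => ((chi_int hv _ _).const_mul _).const_mul _)]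
  refine Finset.sum_congr rfl fun i _ => ?_
  rw [intervalIntegral.integral_const_mul, intervalIntegral.integral_const_mul]
  rfl

theorem SY_left {R δ : ℝ} {n : ℕ} {u v : ℝ → ℝ} (t : ℝ) : SY R δ n u v (-R) t = 0 := by
  unfold SY
  refine Finset.sum_eq_zero fun i _ => ?_
  rw [AA_zero]
  ring

/-- the function which is almost minimal at `(x₀, y₀)` -/
noncomputable def EE (h : ℝ → ℝ → ℝ) (R δ : ℝ) (n : ℕ) (u v : ℝ → ℝ) (x y : ℝ) : ℝ :=
  h x y - h x (-R) - h (-R) y + h (-R) (-R) - SS R δ n u v x y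

theorem box {h G m : ℝ → ℝ → ℝ} (D : Data h G m) {R δ : ℝ} {n : ℕ} (hδ : 0 ≤ δ) {x0 y0 : ℝ}
    (hx0 : x0 ∈ Icc (-R) R) (hy0 : y0 ∈ Icc (-R) R)
    (hm0 : ∀ s ∈ Icc (-R) R, ∀ t ∈ Icc (-R) R, 0 ≤ m s t)
    (hm1 : ∀ s ∈ Icc (-R) R, ∀ t ∈ Icc (-R) R, m s t ≤ n * δ) {x y : ℝ}
    (hx : x ∈ Icc (-R) R) (hy : y ∈ Icc (-R) R) :
    EE h R δ n (fun s => m s y0) (m x0) x0 y0
      ≤ EE h R δ n (fun s => m s y0) (m x0) x y + 8 * R ^ 2 * δ := by
  set u : ℝ → ℝ := fun s => m s y0 with hu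
  set v : ℝ → ℝ := m x0 with hv
  have mu : Monotone u := D.m1 y0
  have mv : Monotone v := D.m2 x0
  have R0 : 0 ≤ R := by
    have := hx0.1.trans hx0.2
    linarith
  set J : ℝ → ℝ → ℝ := fun x t => G x t - G (-R) t - SY R δ n u v x t with hJ
  set e : ℝ → ℝ → ℝ := fun s t => m s t - SM R δ n u v s t with he
  have mi : ∀ t a b, IntervalIntegrable (fun s => m s t) volume a b := fun t a b =>
    (D.m1 t).intervalIntegrable
  have ei : ∀ t a b, IntervalIntegrable (fun s => e s t) volume a b := fun t a b =>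
    (mi t a b).sub (SM_int mu t a b)
  have Ji : ∀ x a b, IntervalIntegrable (J x) volume a b := fun x a b =>
    (((D.cG x).intervalIntegrable a b).sub ((D.cG (-R)).intervalIntegrable a b)).sub
      (SY_int mv x a b)
  have Jsub : ∀ x x' t, J x t - J x' t = ∫ s in x'..x, e s t := by
    intro x x' t
    have h1 : ∫ s in x'..x, m s t = G x t - G x' t :=
      integral_eq_sub_of_hasDerivAt (fun s _ => D.dm s t) (mi t _ _)
    have h2 := SY_sub (R := R) (δ := δ) (n := n) (v := v) mu x x' t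
    simp only [he, hJ]
    rw [intervalIntegral.integral_sub (mi t _ _) (SM_int mu t _ _), h1, ← h2]
    ring
  have Jleft : ∀ t, J (-R) t = 0 := by
    intro t
    simp only [hJ, SY_left]
    ring
  have EJ : ∀ x y, EE h R δ n u v x y = ∫ t in (-R)..y, J x t := by
    intro x y
    have h1 : ∀ x, ∫ t in (-R)..y, G x t = h x y - h x (-R) := fun x =>
      integral_eq_sub_of_hasDerivAt (fun s _ => D.dG x s) ((D.cG x).intervalIntegrable _ _)
    simp only [hJ]
    rw [intervalIntegral.integral_sub (((D.cG x).intervalIntegrable _ _).sub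
      ((D.cG (-R)).intervalIntegrable _ _)) (SY_int mv x _ _),
      intervalIntegral.integral_sub ((D.cG x).intervalIntegrable _ _)
      ((D.cG (-R)).intervalIntegrable _ _), h1, h1, ← SS_eq mv]
    unfold EE
    ring
  -- signs of `e`
  have e1 : ∀ s ∈ Icc (-R) R, ∀ t ∈ Icc (-R) R, x0 ≤ s → t ≤ y0 → 0 ≤ e s t := by
    intro s hs t ht h1 h2
    have h3 : v t ≤ m s t := D.m1 t h1
    have h4 : 0 ≤ min (u s) (v t) := le_min (hm0 s hs y0 hy0) (hm0 x0 hx0 t ht)
    have h5 := stair_le hδ n h4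
    simp only [he]
    rw [SM_eq hs.1 ht.1]
    have := min_le_right (u s) (v t)
    linarith
  have e2 : ∀ s ∈ Icc (-R) R, ∀ t ∈ Icc (-R) R, y0 ≤ t → 0 ≤ e s t := by
    intro s hs t ht h1
    have h3 : u s ≤ m s t := D.m2 s h1
    have h4 : 0 ≤ min (u s) (v t) := le_min (hm0 s hs y0 hy0) (hm0 x0 hx0 t ht)
    have h5 := stair_le hδ n h4
    simp only [he]
    rw [SM_eq hs.1 ht.1]
    have := min_le_left (u s) (v t)
    linarith
  have e3 : ∀ s ∈ Icc (-R) R, ∀ t ∈ Icc (-R) R, s ≤ x0 → t ≤ y0 → e s t ≤ δ := by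
    intro s hs t ht h1 h2
    have h3 : m s t ≤ u s := D.m2 s h2
    have h4 : m s t ≤ v t := D.m1 t h1
    have h5 : min (u s) (v t) ≤ n * δ := (min_le_left _ _).trans (hm1 s hs y0 hy0)
    have h6 := le_stair hδ n h5
    simp only [he]
    rw [SM_eq hs.1 ht.1]
    have := le_min h3 h4
    linarith
  -- the inner integrals
  have a1 : ∀ x ∈ Icc (-R) R, ∀ t ∈ Icc (-R) R, t ≤ y0 → J x0 t - 2 * R * δ ≤ J x t := by
    intro x hx t ht h1
    have h2 := Jsub x x0 t
    rcases le_total x0 x with h3 | h3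
    · have h4 : 0 ≤ ∫ s in x0..x, e s t :=
        integral_nonneg h3 (fun s hs => e1 s ⟨hx0.1.trans hs.1, hs.2.trans hx.2⟩ t ht hs.1 h1)
      have : 0 ≤ 2 * R * δ := by positivity
      linarith
    · have h4 : ∫ s in x..x0, e s t ≤ ∫ s in x..x0, δ :=
        integral_mono_on h3 (ei t _ _) (by simp)
          (fun s hs => e3 s ⟨hx.1.trans hs.1, hs.2.trans hx0.2⟩ t ht hs.2 h1)
      rw [intervalIntegral.integral_const, smul_eq_mul] at h4
      rw [integral_symm] at h2
      have h5 : (x0 - x) * δ ≤ 2 * R * δ := by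
        apply mul_le_mul_of_nonneg_right _ hδ
        have := hx0.2
        have := hx.1
        linarith
      linarith
  have a2 : ∀ t ∈ Icc (-R) R, t ≤ y0 → J x0 t ≤ 2 * R * δ := by
    intro t ht h1
    have h2 := Jsub x0 (-R) t
    rw [Jleft, sub_zero] at h2
    have h4 : ∫ s in (-R)..x0, e s t ≤ ∫ s in (-R)..x0, δ :=
      integral_mono_on hx0.1 (ei t _ _) (by simp)
        (fun s hs => e3 s ⟨hs.1, hs.2.trans hx0.2⟩ t ht hs.2 h1)
    rw [intervalIntegral.integral_const, smul_eq_mul] at h4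
    have h5 : (x0 - -R) * δ ≤ 2 * R * δ := by
      apply mul_le_mul_of_nonneg_right _ hδ
      have := hx0.2
      linarith
    linarith
  have a3 : ∀ x ∈ Icc (-R) R, ∀ t ∈ Icc (-R) R, y0 ≤ t → 0 ≤ J x t := by
    intro x hx t ht h1
    have h2 := Jsub x (-R) t
    rw [Jleft, sub_zero] at h2
    rw [h2]
    exact integral_nonneg hx.1 (fun s hs => e2 s ⟨hs.1, hs.2.trans hx.2⟩ t ht h1)
  -- the outer integrals
  rw [EJ x0 y0, EJ x y]
  have q0 : 0 ≤ R ^ 2 * δ := by positivity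
  rcases le_total y0 y with h1 | h1
  · have h2 : ∫ t in (-R)..y, J x t = (∫ t in (-R)..y0, J x t) + ∫ t in y0..y, J x t :=
      (integral_add_adjacent_intervals (Ji _ _ _) (Ji _ _ _)).symm
    have h3 : 0 ≤ ∫ t in y0..y, J x t :=
      integral_nonneg h1 (fun t ht => a3 x hx t ⟨hy0.1.trans ht.1, ht.2.trans hy.2⟩ ht.1)
    have h4 : ∫ t in (-R)..y0, (J x0 t - 2 * R * δ) ≤ ∫ t in (-R)..y0, J x t :=
      integral_mono_on hy0.1 ((Ji _ _ _).sub (by simp)) (Ji _ _ _)
        (fun t ht => a1 x hx t ⟨ht.1, ht.2.trans hy0.2⟩ ht.2)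
    rw [intervalIntegral.integral_sub (Ji _ _ _) (by simp), intervalIntegral.integral_const,
      smul_eq_mul] at h4
    have h5 : (y0 - -R) * (2 * R * δ) ≤ (2 * R) * (2 * R * δ) := by
      apply mul_le_mul_of_nonneg_right _ (by positivity)
      have := hy0.2
      linarith
    nlinarith
  · have h2 : ∫ t in (-R)..y0, J x0 t = (∫ t in (-R)..y, J x0 t) + ∫ t in y..y0, J x0 t :=
      (integral_add_adjacent_intervals (Ji _ _ _) (Ji _ _ _)).symm
    have h3 : ∫ t in y..y0, J x0 t ≤ ∫ t in y..y0, 2 * R * δ :=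
      integral_mono_on h1 (Ji _ _ _) (by simp)
        (fun t ht => a2 t ⟨hy.1.trans ht.1, ht.2.trans hy0.2⟩ ht.2)
    have h4 : ∫ t in (-R)..y, (J x0 t - 2 * R * δ) ≤ ∫ t in (-R)..y, J x t :=
      integral_mono_on hy.1 ((Ji _ _ _).sub (by simp)) (Ji _ _ _)
        (fun t ht => a1 x hx t ⟨ht.1, ht.2.trans hy.2⟩ (ht.2.trans h1))
    rw [intervalIntegral.integral_sub (Ji _ _ _) (by simp), intervalIntegral.integral_const,
      smul_eq_mul] at h4
    rw [intervalIntegral.integral_const, smul_eq_mul] at h3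
    have p0 : 0 ≤ 2 * R * δ := by positivity
    have h5 : (y - -R) * (2 * R * δ) ≤ (2 * R) * (2 * R * δ) := by
      apply mul_le_mul_of_nonneg_right _ p0
      have := hy.2
      linarith
    have h6 : (y0 - y) * (2 * R * δ) ≤ (2 * R) * (2 * R * δ) := by
      apply mul_le_mul_of_nonneg_right _ p0
      have := hy.1
      have := hy0.2
      linarith
    nlinarith

end Pool.Agent.Run7.h167.MC
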