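import Pool.Agent.Run7.h167.MC.MonoI

/-!
# Functions of class `C²` of two variables
-/

set_option autoImplicit false

namespace Pool.Agent.Run7.h167.MC

open MeasureTheory Set Filter Topology Metric
open Pool.Agent.TH937.ZC Pool.Agent.Y332.MD

/-- the derivatives -/
structure Der (h G m : ℝ → ℝ → ℝ) : Prop where
  dG : ∀ x t, HasDerivAt (h x) (G x t) t
  cG : ∀ x, Continuous (G x)
  dm : ∀ s t, HasDerivAt (fun s => G s t) (m s t) s

/-- the mixed derivative -/
noncomputable def mix (h : ℝ → ℝ → ℝ) (x y : ℝ) : ℝ :=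
  deriv (fun s => deriv (fun t => h s t) y) x

section

variable {h : ℝ → ℝ → ℝ}

/-- the function on pairs -/
noncomputable def HH (h : ℝ → ℝ → ℝ) (z : ℝ × ℝ) : ℝ := h z.1 z.2

theorem d1 (hC : ContDiff ℝ 2 (HH h)) (x t : ℝ) :
    HasDerivAt (h x) (fderiv ℝ (HH h) (x, t) (0, 1)) t := by
  have h1 : HasFDerivAt (HH h) (fderiv ℝ (HH h) (x, t)) (x, t) :=
    (hC.differentiable (by norm_num)).differentiableAt.hasFDerivAt
  have h2 : HasDerivAt (fun t : ℝ => (x, t)) (0, 1) t :=
    (hasDerivAt_const t x).prodMk (hasDerivAt_id t)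
  exact h1.comp_hasDerivAt t h2

theorem d1' (hC : ContDiff ℝ 2 (HH h)) (x t : ℝ) :
    HasDerivAt (fun s => h s t) (fderiv ℝ (HH h) (x, t) (1, 0)) x := by
  have h1 : HasFDerivAt (HH h) (fderiv ℝ (HH h) (x, t)) (x, t) :=
    (hC.differentiable (by norm_num)).differentiableAt.hasFDerivAt
  have h2 : HasDerivAt (fun s : ℝ => (s, t)) (1, 0) x :=
    (hasDerivAt_id x).prodMk (hasDerivAt_const x t)
  exact h1.comp_hasDerivAt x h2

theorem cf (hC : ContDiff ℝ 2 (HH h)) : ContDiff ℝ 1 (fderiv ℝ (HH h)) :=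
  hC.fderiv_right (by norm_num)

theorem d2 (hC : ContDiff ℝ 2 (HH h)) (x t : ℝ) (v : ℝ × ℝ) :
    HasDerivAt (fun s => fderiv ℝ (HH h) (s, t) v) (fderiv ℝ (fderiv ℝ (HH h)) (x, t) (1, 0) v)
      x := by
  have h1 : HasFDerivAt (fderiv ℝ (HH h)) (fderiv ℝ (fderiv ℝ (HH h)) (x, t)) (x, t) :=
    ((cf hC).differentiable (by norm_num)).differentiableAt.hasFDerivAt
  have h2 : HasDerivAt (fun s : ℝ => (s, t)) (1, 0) x :=
    (hasDerivAt_id x).prodMk (hasDerivAt_const x t)
  have h3 := h1.comp_hasDerivAt x h2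
  exact h3.clm_apply (hasDerivAt_const x v) |>.congr_deriv (by simp)

theorem d2' (hC : ContDiff ℝ 2 (HH h)) (x t : ℝ) (v : ℝ × ℝ) :
    HasDerivAt (fun t => fderiv ℝ (HH h) (x, t) v) (fderiv ℝ (fderiv ℝ (HH h)) (x, t) (0, 1) v)
      t := by
  have h1 : HasFDerivAt (fderiv ℝ (HH h)) (fderiv ℝ (fderiv ℝ (HH h)) (x, t)) (x, t) :=
    ((cf hC).differentiable (by norm_num)).differentiableAt.hasFDerivAt
  have h2 : HasDerivAt (fun t : ℝ => (x, t)) (0, 1) t :=
    (hasDerivAt_const t x).prodMk (hasDerivAt_id t)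
  have h3 := h1.comp_hasDerivAt t h2
  exact h3.clm_apply (hasDerivAt_const t v) |>.congr_deriv (by simp)

theorem mix_eq (hC : ContDiff ℝ 2 (HH h)) (x y : ℝ) :
    mix h x y = fderiv ℝ (fderiv ℝ (HH h)) (x, y) (1, 0) (0, 1) := by
  unfold mix
  have e : (fun s => deriv (fun t => h s t) y) = fun s => fderiv ℝ (HH h) (s, y) (0, 1) := by
    ext s
    exact (d1 hC s y).deriv
  rw [e]
  exact (d2 hC x y (0, 1)).deriv

theorem Der_of (hC : ContDiff ℝ 2 (HH h)) :
    Der h (fun x t => fderiv ℝ (HH h) (x, t) (0, 1)) (mix h) := by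
  refine ⟨fun x t => d1 hC x t, fun x => ?_, fun s t => ?_⟩
  · have h1 : Continuous (fderiv ℝ (HH h)) := (cf hC).continuous
    have h2 : Continuous (fun t : ℝ => fderiv ℝ (HH h) (x, t)) := h1.comp (by fun_prop)
    exact h2.clm_apply continuous_const
  · rw [mix_eq hC]
    exact d2 hC s t (0, 1)

theorem mix_symm (hC : ContDiff ℝ 2 (HH h)) (hs : ∀ x y, h x y = h y x) (x y : ℝ) :
    mix h x y = mix h y x := by
  have h1 : mix h y x = fderiv ℝ (fderiv ℝ (HH h)) (x, y) (0, 1) (1, 0) := by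
    unfold mix
    have e : (fun s => deriv (fun t => h s t) x) = fun s => fderiv ℝ (HH h) (x, s) (1, 0) := by
      ext s
      have e2 : (fun t => h s t) = fun t => h t s := by
        ext t
        exact hs s t
      rw [e2]
      exact (d1' hC x s).deriv
    rw [e]
    exact (d2' hC x y (1, 0)).deriv
  have h2 : IsSymmSndFDerivAt ℝ (HH h) (x, y) :=
    (hC.contDiffAt).isSymmSndFDerivAt (by simp)
  rw [mix_eq hC, h1]
  exact h2 (1, 0) (0, 1)

theorem cont_h (hC : ContDiff ℝ 2 (HH h)) : Continuous (fun z : ℝ × ℝ => h z.1 z.2) :=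
  hC.continuous

end

/-- reflections -/
theorem Der.refl {h G m : ℝ → ℝ → ℝ} (D : Der h G m) (e1 e2 : ℝ) :
    Der (fun x y => h (e1 * x) (e2 * y)) (fun x t => e2 * G (e1 * x) (e2 * t))
      (fun s t => e1 * e2 * m (e1 * s) (e2 * t)) := by
  refine ⟨fun x t => ?_, fun x => ?_, fun s t => ?_⟩
  · have h1 := (D.dG (e1 * x) (e2 * t)).comp t ((hasDerivAt_id t).const_mul e2)
    simp only [mul_one] at h1
    exact h1.congr_deriv (by ring)
  · have := D.cG (e1 * x)
    fun_prop
  · have h1 := ((D.dm (e1 * s) (e2 * t)).comp s ((hasDerivAt_id s).const_mul e1)).const_mul e2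
    simp only [mul_one] at h1
    exact h1.congr_deriv (by ring)

theorem convex_scale {f : ℝ → ℝ} (hf : ConvexOn ℝ univ f) (e : ℝ) :
    ConvexOn ℝ univ (fun x => f (e * x)) := by
  have h := hf.comp_linearMap (LinearMap.mulLeft ℝ e)
  rw [preimage_univ] at h
  exact h

/-- the isotropic theorem for functions of class `C²` -/
theorem iso_C2 {h : ℝ → ℝ → ℝ} (hC : ContDiff ℝ 2 (HH h)) (hs : ∀ x y, h x y = h y x)
    (hcx : ∀ y, ConvexOn ℝ univ (fun x => h x y)) (hM : ∀ s t, mix h s t ≤ 0)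
    (hmono : (∀ t, Monotone (fun s => mix h s t)) ∨ (∀ t, Antitone (fun s => mix h s t)))
    (F0 : ℂ × ℂ) : QL (fun F => h (sg F) (ta F)) F0 := by
  have D := Der_of hC
  have ms := mix_symm hC hs
  rcases hmono with hm | hm
  · have D' : Data h (fun x t => fderiv ℝ (HH h) (x, t) (0, 1)) (mix h) :=
      ⟨D.dG, D.cG, D.dm, hm, fun s t t' htt => by
        rw [ms s t, ms s t']
        exact hm s htt⟩
    have h1 := QL_monoI D' (cont_h hC) hs ms hcx hM F0
    simpa using h1
  · have D1 := D.refl (-1) (-1)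
    have D' : Data (fun x y => h (-1 * x) (-1 * y))
        (fun x t => -1 * fderiv ℝ (HH h) (-1 * x, -1 * t) (0, 1))
        (fun s t => -1 * -1 * mix h (-1 * s) (-1 * t)) :=
      ⟨D1.dG, D1.cG, D1.dm, fun t s s' hss => by
        have := hm (-1 * t) (show -1 * s' ≤ -1 * s by linarith)
        beta_reduce at this ⊢
        linarith, fun s t t' htt => by
        have := hm (-1 * s) (show -1 * t' ≤ -1 * t by linarith)
        beta_reduce at this ⊢
        rw [ms (-1 * s) (-1 * t), ms (-1 * s) (-1 * t')]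
        linarith⟩
    have hcc : Continuous (fun z : ℝ × ℝ => h (-1 * z.1) (-1 * z.2)) :=
      (cont_h hC).comp (f := fun z : ℝ × ℝ => (-1 * z.1, -1 * z.2)) (by fun_prop)
    have h1 := QL_monoI D' hcc (fun x y => hs _ _)
      (fun x y => by
        rw [ms (-1 * x) (-1 * y)])
      (fun y => convex_scale (hcx (-1 * y)) (-1)) (κ := 0)
      (fun s t => by
        have := hM (-1 * s) (-1 * t)
        linarith) (-F0)
    have h2 := QL_neg h1
    convert h2 using 2 with F
    have e1 : -1 * sg (-F) = ta F := by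
      unfold sg ta
      simp
      ring
    have e2 : -1 * ta (-F) = sg F := by
      unfold sg ta
      simp
      ring
    rw [e1, e2, hs (sg F) (ta F)]
    ring

/-- monotonicity of the mixed derivative in each variable -/
def SepMono (m : ℝ → ℝ → ℝ) : Prop :=
  ((∀ t, Monotone (fun s => m s t)) ∨ (∀ t, Antitone (fun s => m s t))) ∧
    ((∀ s, Monotone (m s)) ∨ (∀ s, Antitone (m s)))

theorem diag_C2 {h : ℝ → ℝ → ℝ} (hC : ContDiff ℝ 2 (HH h))
    (hcx : ∀ y, ConvexOn ℝ univ (fun x => h x y)) (hcy : ∀ x, ConvexOn ℝ univ (h x)) {p q : ℝ}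
    (hq : ∀ s t, -q ≤ mix h s t) (hp : ∀ s t, mix h s t ≤ p) (hmono : SepMono (mix h))
    (F0 : ℂ × ℂ) :
    QL (fun F => h (xx F) (yy F) + (p * F.1.im ^ 2 + q * F.2.im ^ 2)) F0 := by
  have D := Der_of hC
  have cc : ∀ e1 e2 : ℝ, Continuous (fun z : ℝ × ℝ => h (e1 * z.1) (e2 * z.2)) := fun e1 e2 =>
    (cont_h hC).comp (f := fun z : ℝ × ℝ => (e1 * z.1, e2 * z.2)) (by fun_prop)
  rcases hmono with ⟨h1 | h1, h2 | h2⟩
  · exact QL_monoD' ⟨D.dG, D.cG, D.dm, h1, h2⟩ (cont_h hC) hcx hcy hq hp F0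
  · -- `(↑, ↓)`, reflection of `x`
    have D1 := D.refl (-1) 1
    have h3 := QL_monoD' (p := q) (q := p)
      (F0 := (starRingEnd ℂ (-F0).2, starRingEnd ℂ (-F0).1))
      ⟨D1.dG, D1.cG, D1.dm, fun t s s' hss => by
        have := h1 (1 * t) (show -1 * s' ≤ -1 * s by linarith)
        beta_reduce at this ⊢
        linarith, fun s t t' htt => by
        have := h2 (-1 * s) (show 1 * t ≤ 1 * t' by linarith)
        linarith⟩ (cc (-1) 1) (fun y => convex_scale (hcx (1 * y)) (-1))
      (fun x => convex_scale (hcy (-1 * x)) 1)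
      (fun s t => by have := hp (-1 * s) (1 * t); linarith)
      (fun s t => by have := hq (-1 * s) (1 * t); linarith)
    have h4 := QL_neg (F0 := F0) (QL_conj h3)
    convert h4 using 2 with F
    have e1 : -1 * xx (starRingEnd ℂ (-F).2, starRingEnd ℂ (-F).1) = xx F := by
      unfold xx
      simp only [Prod.snd_neg, Prod.fst_neg, Complex.conj_re, Complex.neg_re]
      ring
    have e2 : 1 * yy (starRingEnd ℂ (-F).2, starRingEnd ℂ (-F).1) = yy F := by
      unfold yy
      simp only [Prod.snd_neg, Prod.fst_neg, Complex.conj_re, Complex.neg_re]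
      ring
    rw [e1, e2]
    simp
    ring
  · -- `(↓, ↑)`, reflection of `y`
    have D1 := D.refl 1 (-1)
    have h3 := QL_monoD' (p := q) (q := p)
      (F0 := (starRingEnd ℂ F0.2, starRingEnd ℂ F0.1))
      ⟨D1.dG, D1.cG, D1.dm, fun t s s' hss => by
        have := h1 (-1 * t) (show 1 * s ≤ 1 * s' by linarith)
        beta_reduce at this ⊢
        linarith, fun s t t' htt => by
        have := h2 (1 * s) (show -1 * t' ≤ -1 * t by linarith)
        linarith⟩ (cc 1 (-1)) (fun y => convex_scale (hcx (-1 * y)) 1)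
      (fun x => convex_scale (hcy (1 * x)) (-1))
      (fun s t => by have := hp (1 * s) (-1 * t); linarith)
      (fun s t => by have := hq (1 * s) (-1 * t); linarith)
    have h4 := QL_conj (F0 := F0) h3
    convert h4 using 2 with F
    have e1 : 1 * xx (starRingEnd ℂ F.2, starRingEnd ℂ F.1) = xx F := by
      unfold xx
      simp
      ring
    have e2 : -1 * yy (starRingEnd ℂ F.2, starRingEnd ℂ F.1) = yy F := by
      unfold yy
      simp
    rw [e1, e2]
    simp
    ring
  · have D1 := D.refl (-1) (-1)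
    have h3 := QL_monoD' (p := p) (q := q) (F0 := -F0)
      ⟨D1.dG, D1.cG, D1.dm, fun t s s' hss => by
        have := h1 (-1 * t) (show -1 * s' ≤ -1 * s by linarith)
        beta_reduce at this ⊢
        linarith, fun s t t' htt => by
        have := h2 (-1 * s) (show -1 * t' ≤ -1 * t by linarith)
        linarith⟩ (cc (-1) (-1)) (fun y => convex_scale (hcx (-1 * y)) (-1))
      (fun x => convex_scale (hcy (-1 * x)) (-1))
      (fun s t => by have := hq (-1 * s) (-1 * t); linarith)
      (fun s t => by have := hp (-1 * s) (-1 * t); linarith)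
    have h4 := QL_neg (F0 := F0) h3
    convert h4 using 2 with F
    have e1 : -1 * xx (-F) = xx F := by
      unfold xx
      simp
      ring
    have e2 : -1 * yy (-F) = yy F := by
      unfold yy
      simp only [Prod.snd_neg, Prod.fst_neg, Complex.neg_re]
      ring
    rw [e1, e2]
    simp

end Pool.Agent.Run7.h167.MC
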