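import Pool.Agent.Run7.h167.MC.Prod
import Pool.Agent.Run7.h167.MC.Asym

/-!
# All rank-one convex functions `f(F₀₀) g(F₁₁) + κ (F₀₁² + F₁₀²) + c F₀₁ F₁₀`
-/

set_option autoImplicit false

namespace Pool.Agent.Run7.h167.MC

open MeasureTheory Set Filter Topology Metric
open Pool.Agent.TH937.ZC Pool.Agent.Y332.MD

theorem convexOn_of_mid {E : Type*} [NormedAddCommGroup E] [NormedSpace ℝ E] {w : E → ℝ}
    (hw : Continuous w) (h : ∀ a H, 2 * w a ≤ w (a + H) + w (a - H)) : ConvexOn ℝ univ w := by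
  refine ⟨convex_univ, fun x _ y _ a b ha hb hab => ?_⟩
  simp only [smul_eq_mul]
  refine le_of_forall_pos_le_add fun ε hε => ?_
  set φ : ℝ → ℝ := fun t => w (x + t • (y - x)) - w x - t * (w y - w x) + ε * t ^ 2 with hφ
  have hc : Continuous φ := by fun_prop
  obtain ⟨t0, ht0, hmax⟩ := (isCompact_Icc (a := (0 : ℝ)) (b := 1)).exists_isMaxOn
    (nonempty_Icc.2 zero_le_one) hc.continuousOn
  have h0 : φ 0 = 0 := by simp [hφ]
  have h1 : φ 1 = ε := by simp [hφ]
  have hle : φ t0 ≤ ε := by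
    rcases ht0.1.eq_or_lt with h2 | h2
    · rw [← h2, h0]; exact hε.le
    rcases ht0.2.eq_or_lt with h3 | h3
    · rw [h3, h1]
    exfalso
    set δ := min t0 (1 - t0) with hδ
    have hδ0 : 0 < δ := lt_min h2 (by linarith)
    have hd1 : δ ≤ t0 := min_le_left _ _
    have hd2 : δ ≤ 1 - t0 := min_le_right _ _
    have m1 : φ (t0 + δ) ≤ φ t0 := hmax (show t0 + δ ∈ Icc (0 : ℝ) 1 from ⟨by linarith, by linarith⟩)
    have m2 : φ (t0 - δ) ≤ φ t0 := hmax (show t0 - δ ∈ Icc (0 : ℝ) 1 from ⟨by linarith, by linarith⟩)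
    have m3 := h (x + t0 • (y - x)) (δ • (y - x))
    have e1 : x + t0 • (y - x) + δ • (y - x) = x + (t0 + δ) • (y - x) := by
      rw [add_smul, add_assoc]
    have e2 : x + t0 • (y - x) - δ • (y - x) = x + (t0 - δ) • (y - x) := by
      rw [sub_smul, add_sub_assoc]
    rw [e1, e2] at m3
    simp only [hφ] at m1 m2
    have : 0 < ε * δ ^ 2 := by positivity
    nlinarith
  have hb1 : φ b ≤ φ t0 := hmax (show b ∈ Icc (0 : ℝ) 1 from ⟨hb, by linarith⟩)
  have e : a • x + b • y = x + b • (y - x) := by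
    have ea : a = 1 - b := by linarith
    rw [ea, sub_smul, one_smul, smul_sub]
    abel
  rw [e]
  simp only [hφ] at hb1 hle
  have hb2 : 0 ≤ ε * b ^ 2 := by positivity
  have ea : a = 1 - b := by linarith
  rw [ea]
  linarith

/-- symmetric second differences in rank-one directions -/
def SD (h : ℝ → ℝ → ℝ) (κ c : ℝ) : Prop :=
  ∀ x y X Y s t : ℝ, X * Y = s * t →
    2 * h x y ≤ h (x + X) (y + Y) + h (x - X) (y - Y) + 2 * (κ * (s ^ 2 + t ^ 2) + c * (s * t))

/-- the function on pairs -/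
noncomputable def Wh (h : ℝ → ℝ → ℝ) (κ c : ℝ) (F : ℂ × ℂ) : ℝ :=
  h (xx F) (yy F) + ((2 * κ - c) * F.1.im ^ 2 + (2 * κ + c) * F.2.im ^ 2)

theorem SD.kappa {h : ℝ → ℝ → ℝ} {κ c : ℝ} (hSD : SD h κ c) : 0 ≤ κ := by
  have := hSD 0 0 0 0 1 0 (by ring)
  norm_num at this
  linarith

theorem SD.pos {h : ℝ → ℝ → ℝ} {κ c : ℝ} (hSD : SD h κ c) {x y X Y : ℝ} (h0 : 0 ≤ X * Y) :
    2 * h x y ≤ h (x + X) (y + Y) + h (x - X) (y - Y) + 2 * (2 * κ + c) * (X * Y) := by
  have e : Real.sqrt (X * Y) * Real.sqrt (X * Y) = X * Y := Real.mul_self_sqrt h0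
  have := hSD x y X Y (Real.sqrt (X * Y)) (Real.sqrt (X * Y)) e.symm
  simp only [sq, e] at this
  linarith

theorem SD.neg {h : ℝ → ℝ → ℝ} {κ c : ℝ} (hSD : SD h κ c) {x y X Y : ℝ} (h0 : X * Y ≤ 0) :
    2 * h x y ≤ h (x + X) (y + Y) + h (x - X) (y - Y) + 2 * (2 * κ - c) * (-(X * Y)) := by
  have e : Real.sqrt (-(X * Y)) * Real.sqrt (-(X * Y)) = -(X * Y) :=
    Real.mul_self_sqrt (by linarith)
  have := hSD x y X Y (Real.sqrt (-(X * Y))) (-Real.sqrt (-(X * Y))) (by nlinarith)
  simp only [sq, neg_mul, mul_neg, neg_neg, e] at this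
  linarith

theorem eq_det (F : ℂ × ℂ) : xx F * yy F
    = (‖F.1‖ ^ 2 - ‖F.2‖ ^ 2) - F.1.im ^ 2 + F.2.im ^ 2 := by
  rw [← Complex.normSq_eq_norm_sq, ← Complex.normSq_eq_norm_sq, Complex.normSq_apply,
    Complex.normSq_apply]
  unfold xx yy
  ring

/-- `xx` as a linear map -/
noncomputable def xL : ℂ × ℂ →L[ℝ] ℝ := reL + reL2

noncomputable def yL : ℂ × ℂ →L[ℝ] ℝ := reL - reL2

theorem xL_apply (F : ℂ × ℂ) : xL F = xx F := by simp [xL, reL, reL2, xx]

theorem yL_apply (F : ℂ × ℂ) : yL F = yy F := by simp [yL, reL, reL2, yy]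

/-- functions of one diagonal entry -/
theorem QL_one {φ : ℝ → ℝ} (hφ : ConvexOn ℝ univ φ) (hc : Continuous φ) (L : ℂ × ℂ →L[ℝ] ℝ)
    {p q : ℝ} (hp : 0 ≤ p) (hq : 0 ≤ q) (F0 : ℂ × ℂ) :
    QL (fun F => φ (L F) + (p * F.1.im ^ 2 + q * F.2.im ^ 2)) F0 := by
  refine QL_add (by fun_prop) (by fun_prop) (QL_conv (by fun_prop) ?_ F0) (QL_quad hp hq F0)
  have h2 := hφ.comp_linearMap L.toLinearMap
  rw [preimage_univ] at h2
  exact h2

theorem pq_of_one {φ : ℝ → ℝ} (hc : Continuous φ) {κ c : ℝ}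
    (hSD : SD (fun x _ => φ x) κ c) : 0 ≤ 2 * κ - c ∧ 0 ≤ 2 * κ + c := by
  have lim : Tendsto (fun ε : ℝ => φ (0 + ε) + φ (0 - ε)) (𝓝[>] 0) (𝓝 (φ 0 + φ 0)) := by
    have h1 : Continuous (fun ε : ℝ => φ (0 + ε) + φ (0 - ε)) := by fun_prop
    have h2 := h1.tendsto 0
    simp only [add_zero, sub_zero] at h2
    exact h2.mono_left nhdsWithin_le_nhds
  constructor
  · have h1 : 2 * φ 0 ≤ φ 0 + φ 0 + 2 * (κ * 2 - c) := by
      refine ge_of_tendsto (lim.add_const (2 * (κ * 2 - c))) ?_
      filter_upwards [self_mem_nhdsWithin] with ε hε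
      have hε' : (0 : ℝ) < ε := hε
      have := hSD 0 0 ε (-1 / ε) 1 (-1) (by field_simp)
      simp only at this
      linarith
    linarith
  · have h1 : 2 * φ 0 ≤ φ 0 + φ 0 + 2 * (κ * 2 + c) := by
      refine ge_of_tendsto (lim.add_const (2 * (κ * 2 + c))) ?_
      filter_upwards [self_mem_nhdsWithin] with ε hε
      have hε' : (0 : ℝ) < ε := hε
      have := hSD 0 0 ε (1 / ε) 1 1 (by field_simp)
      simp only at this
      linarith
    linarith

theorem SD.swap {h : ℝ → ℝ → ℝ} {κ c : ℝ} (hSD : SD h κ c) : SD (fun x y => h y x) κ c := by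
  intro x y X Y s t hst
  exact hSD y x Y X s t (by linarith)

/-- a continuous function of the two diagonal entries whose sum with the quadratic form
is controlled by second differences -/
theorem QL_lc {h : ℝ → ℝ → ℝ} (hc : Continuous (fun z : ℝ × ℝ => h z.1 z.2)) {κ c : ℝ}
    (hSD : SD h κ c)
    (hmid : ∀ x y X Y : ℝ, 2 * h x y ≤ h (x + X) (y + Y) + h (x - X) (y - Y)) (F0 : ℂ × ℂ) :
    QL (Wh h κ c) F0 := by
  have cx := cont_xx
  have cy := cont_yy
  have hκ := hSD.kappa
  have conv : ∀ r : ℝ, (∀ x y X Y : ℝ, 2 * (h x y + r * (x * y))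
      ≤ h (x + X) (y + Y) + r * ((x + X) * (y + Y)) + (h (x - X) (y - Y)
        + r * ((x - X) * (y - Y)))) →
      QL (fun F => h (xx F) (yy F) + r * (xx F * yy F)) F0 := by
    intro r hr
    have h1 : ConvexOn ℝ univ (fun z : ℝ × ℝ => h z.1 z.2 + r * (z.1 * z.2)) := by
      refine convexOn_of_mid (by fun_prop) fun a H => ?_
      exact hr a.1 a.2 H.1 H.2
    have h2 := h1.comp_linearMap (xL.prod yL).toLinearMap
    rw [preimage_univ] at h2
    have e : (fun F => h (xx F) (yy F) + r * (xx F * yy F))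
        = (fun z : ℝ × ℝ => h z.1 z.2 + r * (z.1 * z.2)) ∘ (xL.prod yL).toLinearMap := by
      ext F
      simp [xL_apply, yL_apply]
    rw [e]
    refine QL_conv ?_ h2 F0
    have : Continuous (fun z : ℝ × ℝ => h z.1 z.2 + r * (z.1 * z.2)) := by fun_prop
    exact this.comp (xL.prod yL).continuous
  have chF : Continuous (fun F : ℂ × ℂ => h (xx F) (yy F)) :=
    hc.comp (f := fun F : ℂ × ℂ => (xx F, yy F)) (by fun_prop)
  rcases le_or_gt 0 (2 * κ - c) with hp | hp
  · rcases le_or_gt 0 (2 * κ + c) with hq | hq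
    · have h1 := conv 0 (fun x y X Y => by have := hmid x y X Y; linarith)
      have h2 := QL_add (by fun_prop) (by fun_prop) h1 (QL_quad hp hq F0)
      convert h2 using 2 with F
      unfold Wh
      ring
    · have h1 := conv (2 * κ + c) (fun x y X Y => by
        rcases le_total 0 (X * Y) with h0 | h0
        · have := hSD.pos (x := x) (y := y) h0
          linarith
        · have := hmid x y X Y
          nlinarith)
      have h2 := QL_add (by fun_prop) (by fun_prop) h1
        (QL_add (by fun_prop) (by fun_prop) (QL_det (-(2 * κ + c)) F0)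
          (QL_quad (p := 4 * κ) (q := 0) (by linarith) le_rfl F0))
      convert h2 using 2 with F
      unfold Wh
      rw [eq_det]
      ring
  · have h1 := conv (-(2 * κ - c)) (fun x y X Y => by
      rcases le_total 0 (X * Y) with h0 | h0
      · have := hmid x y X Y
        nlinarith
      · have := hSD.neg (x := x) (y := y) h0
        linarith)
    have h2 := QL_add (by fun_prop) (by fun_prop) h1
      (QL_add (by fun_prop) (by fun_prop) (QL_det (2 * κ - c) F0)
        (QL_quad (p := 0) (q := 4 * κ) le_rfl (by linarith) F0))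
    convert h2 using 2 with F
    unfold Wh
    rw [eq_det]
    ring

theorem mid_of_LM {f g : ℝ → ℝ} (hf : LM f) (hg : LM g) (f0 : ∀ x, 0 ≤ f x) (g0 : ∀ y, 0 ≤ g y)
    (x y X Y : ℝ) : 2 * (f x * g y) ≤ f (x + X) * g (y + Y) + f (x - X) * g (y - Y) := by
  have key : ∀ {k : ℝ → ℝ}, LM k → ∀ x X, k x ^ 2 ≤ k (x + X) * k (x - X) := by
    intro k hk x X
    rcases lt_trichotomy X 0 with h | h | h
    · have := hk x (-X) (by linarith)
      rw [show x + -X = x - X by ring, show x - -X = x + X by ring] at this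
      linarith [mul_comm (k (x + X)) (k (x - X))]
    · rw [h]; simp [sq]
    · exact hk x X h
  have h1 := key hf x X
  have h2 := key hg y Y
  have a1 := f0 (x + X)
  have a2 := f0 (x - X)
  have b1 := g0 (y + Y)
  have b2 := g0 (y - Y)
  have h3 : (f x * g y) ^ 2 ≤ (f (x + X) * g (y + Y)) * (f (x - X) * g (y - Y)) := by
    have := mul_le_mul h1 h2 (sq_nonneg _) (mul_nonneg a1 a2)
    nlinarith
  have h4 : 0 ≤ f x * g y := mul_nonneg (f0 x) (g0 y)
  have p1 : 0 ≤ f (x + X) * g (y + Y) := mul_nonneg a1 b1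
  have p2 : 0 ≤ f (x - X) * g (y - Y) := mul_nonneg a2 b2
  have h5 : (2 * (f x * g y)) ^ 2
      ≤ (f (x + X) * g (y + Y) + f (x - X) * g (y - Y)) ^ 2 := by
    nlinarith [sq_nonneg (f (x + X) * g (y + Y) - f (x - X) * g (y - Y))]
  exact (sq_le_sq₀ (by positivity) (by positivity)).1 h5

theorem ConvexOn.cont {f : ℝ → ℝ} (hf : ConvexOn ℝ univ f) : Continuous f :=
  continuousOn_univ.1 (hf.continuousOn isOpen_univ)

/-- products of nonnegative convex functions -/
theorem QL_pos {f g : ℝ → ℝ} (hf : ConvexOn ℝ univ f) (hg : ConvexOn ℝ univ g)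
    (f0 : ∀ x, 0 ≤ f x) (g0 : ∀ y, 0 ≤ g y) {κ c : ℝ} (hSD : SD (fun x y => f x * g y) κ c)
    (F0 : ℂ × ℂ) : QL (Wh (fun x y => f x * g y) κ c) F0 := by
  have hfc := ConvexOn.cont hf
  have hgc := ConvexOn.cont hg
  -- constants
  by_cases cf : ∀ x y, f x = f y
  · have e : (fun x y => f x * g y) = fun (_ : ℝ) y => f 0 * g y := by
      ext x y; rw [cf x 0]
    rw [e] at hSD ⊢
    have hpq := pq_of_one (φ := fun y => f 0 * g y) (by fun_prop) hSD.swap
    have h := QL_one (φ := fun y => f 0 * g y) (hg.smul (f0 0)) (by fun_prop) yL hpq.1 hpq.2 F0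
    simp only [yL_apply] at h
    exact h
  by_cases cg : ∀ x y, g x = g y
  · have e : (fun x y => f x * g y) = fun x (_ : ℝ) => g 0 * f x := by
      ext x y; rw [cg y 0, mul_comm]
    rw [e] at hSD ⊢
    have hpq := pq_of_one (φ := fun x => g 0 * f x) (by fun_prop) hSD
    have h := QL_one (φ := fun x => g 0 * f x) (hf.smul (g0 0)) (by fun_prop) xL hpq.1 hpq.2 F0
    simp only [xL_apply] at h
    exact h
  push Not at cf cg
  obtain ⟨xa, xb, hxab⟩ := cf
  obtain ⟨ya, yb, hyab⟩ := cg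
  set p := 2 * κ - c with hp
  set q := 2 * κ + c with hq
  -- the inequalities for the four reflections
  have hM : ∀ x y X Y : ℝ, 0 < X → 0 < Y →
      2 * (f x * g y) ≤ f (x + X) * g (y - Y) + f (x - X) * g (y + Y) + 2 * p * (X * Y) := by
    intro x y X Y hX hY
    have := hSD.neg (x := x) (y := y) (X := X) (Y := -Y) (by nlinarith [mul_pos hX hY])
    simp only [sub_neg_eq_add, ← sub_eq_add_neg] at this
    rw [hp]
    linarith
  have hP : ∀ x y X Y : ℝ, 0 < X → 0 < Y →
      2 * (f x * g y) ≤ f (x + X) * g (y + Y) + f (x - X) * g (y - Y) + 2 * q * (X * Y) := by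
    intro x y X Y hX hY
    have := hSD.pos (x := x) (y := y) (X := X) (Y := Y) (mul_pos hX hY).le
    rw [hq]
    exact this
  have hf' := convex_refl hf
  have hg' := convex_refl hg
  -- f reflected
  have hM1 : ∀ x y X Y : ℝ, 0 < X → 0 < Y →
      2 * (f (-x) * g y) ≤ f (-(x + X)) * g (y - Y) + f (-(x - X)) * g (y + Y)
        + 2 * q * (X * Y) := by
    intro x y X Y hX hY
    have := hP (-x) y X Y hX hY
    rw [show -(x + X) = -x - X by ring, show -(x - X) = -x + X by ring]
    linarith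
  have hP1 : ∀ x y X Y : ℝ, 0 < X → 0 < Y →
      2 * (f (-x) * g y) ≤ f (-(x + X)) * g (y + Y) + f (-(x - X)) * g (y - Y)
        + 2 * p * (X * Y) := by
    intro x y X Y hX hY
    have := hM (-x) y X Y hX hY
    rw [show -(x + X) = -x - X by ring, show -(x - X) = -x + X by ring]
    linarith
  -- g reflected
  have hM2 : ∀ x y X Y : ℝ, 0 < X → 0 < Y →
      2 * (f x * g (-y)) ≤ f (x + X) * g (-(y - Y)) + f (x - X) * g (-(y + Y))
        + 2 * q * (X * Y) := by
    intro x y X Y hX hY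
    have := hP x (-y) X Y hX hY
    rw [show -(y + Y) = -y - Y by ring, show -(y - Y) = -y + Y by ring]
    linarith
  have hP2 : ∀ x y X Y : ℝ, 0 < X → 0 < Y →
      2 * (f x * g (-y)) ≤ f (x + X) * g (-(y + Y)) + f (x - X) * g (-(y - Y))
        + 2 * p * (X * Y) := by
    intro x y X Y hX hY
    have := hM x (-y) X Y hX hY
    rw [show -(y + Y) = -y - Y by ring, show -(y - Y) = -y + Y by ring]
    linarith
  -- both reflected
  have hM3 : ∀ x y X Y : ℝ, 0 < X → 0 < Y →
      2 * (f (-x) * g (-y)) ≤ f (-(x + X)) * g (-(y - Y)) + f (-(x - X)) * g (-(y + Y))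
        + 2 * p * (X * Y) := by
    intro x y X Y hX hY
    have := hM (-x) (-y) X Y hX hY
    rw [show -(y + Y) = -y - Y by ring, show -(y - Y) = -y + Y by ring,
      show -(x + X) = -x - X by ring, show -(x - X) = -x + X by ring]
    linarith
  have swapM : ∀ {k l : ℝ → ℝ} {r : ℝ}, (∀ x y X Y : ℝ, 0 < X → 0 < Y →
      2 * (k x * l y) ≤ k (x + X) * l (y - Y) + k (x - X) * l (y + Y) + 2 * r * (X * Y)) →
      (∀ x y X Y : ℝ, 0 < X → 0 < Y →
      2 * (l x * k y) ≤ l (x + X) * k (y - Y) + l (x - X) * k (y + Y) + 2 * r * (X * Y)) := by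
    intro k l r h x y X Y hX hY
    have := h y x Y X hY hX
    linarith
  have swapP : ∀ {k l : ℝ → ℝ} {r : ℝ}, (∀ x y X Y : ℝ, 0 < X → 0 < Y →
      2 * (k x * l y) ≤ k (x + X) * l (y + Y) + k (x - X) * l (y - Y) + 2 * r * (X * Y)) →
      (∀ x y X Y : ℝ, 0 < X → 0 < Y →
      2 * (l x * k y) ≤ l (x + X) * k (y + Y) + l (x - X) * k (y - Y) + 2 * r * (X * Y)) := by
    intro k l r h x y X Y hX hY
    have := h y x Y X hY hX
    linarith
  -- from superlinear growth of one to the theorem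
  have both : LM f → LM g → QL (Wh (fun x y => f x * g y) κ c) F0 := by
    intro h1 h2
    refine QL_lc (by fun_prop) hSD (fun x y X Y => mid_of_LM h1 h2 f0 g0 x y X Y) F0
  have gToF : LM g → LM f := by
    intro h
    rcases SLp_or_of_LM h g0 hyab with h1 | h1
    · exact LM_of hg hgc g0 h1 hf f0 (swapM hM) (swapP hP)
    · exact LM_of hg' (hgc.comp continuous_neg) (fun y => g0 _) h1 hf f0 (swapM hM2) (swapP hP2)
  have fToG : LM f → LM g := by
    intro h
    rcases SLp_or_of_LM h f0 hxab with h1 | h1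
    · exact LM_of hf hfc f0 h1 hg g0 hM hP
    · exact LM_of hf' (hfc.comp continuous_neg) (fun y => f0 _) h1 hg g0 hM1 hP1
  by_cases s1 : SLp f
  · have := LM_of hf hfc f0 s1 hg g0 hM hP
    exact both (gToF this) this
  by_cases s2 : SLp (fun x => f (-x))
  · have := LM_of hf' (hfc.comp continuous_neg) (fun y => f0 _) s2 hg g0 hM1 hP1
    exact both (gToF this) this
  by_cases s3 : SLp g
  · have := LM_of hg hgc g0 s3 hf f0 (swapM hM) (swapP hP)
    exact both this (fToG this)
  by_cases s4 : SLp (fun x => g (-x))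
  · have := LM_of hg' (hgc.comp continuous_neg) (fun y => g0 _) s4 hf f0 (swapM hM2) (swapP hP2)
    exact both this (fToG this)
  -- bounded slopes
  obtain ⟨s, hs⟩ := exists_sub hf (xx F0)
  obtain ⟨t, ht⟩ := exists_sub hg (yy F0)
  have hs' : ∀ x, f (-(-xx F0)) + -s * (x - -xx F0) ≤ f (-x) := by
    intro x
    have := hs (-x)
    rw [neg_neg]
    linarith
  have ht' : ∀ x, g (-(-yy F0)) + -t * (x - -yy F0) ≤ g (-x) := by
    intro x
    have := ht (-x)
    rw [neg_neg]
    linarith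
  have b1 := prod_le hf f0 hg g0 s1 s3 hM hs ht
  have b2 := prod_le hf' (fun x => f0 _) hg' (fun x => g0 _) s2 s4 hM3
    (x0 := -xx F0) (y0 := -yy F0) hs' ht'
  have b3 := prod_le hf' (fun x => f0 _) hg g0 s2 s3 hM1 (x0 := -xx F0) hs' ht
  have b4 := prod_le hf f0 hg' (fun x => g0 _) s1 s4 hM2 (y0 := -yy F0) hs ht'
  have p0 : 0 ≤ p := le_trans (mul_nonneg (le_max_right _ _) (le_max_right _ _)) b1
  have q0 : 0 ≤ q := le_trans (mul_nonneg (le_max_right _ _) (le_max_right _ _)) b3
  refine QL_prod hfc hgc f0 g0 F0 hs ht p0 q0 ?_ ?_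
  · rcases le_total 0 s with h1 | h1 <;> rcases le_total 0 t with h2 | h2
    · rwa [max_eq_left h1, max_eq_left h2] at b1
    · exact (mul_nonpos_of_nonneg_of_nonpos h1 h2).trans p0
    · exact (mul_nonpos_of_nonpos_of_nonneg h1 h2).trans p0
    · rw [max_eq_left (by linarith), max_eq_left (by linarith)] at b2
      linarith
  · rcases le_total 0 s with h1 | h1 <;> rcases le_total 0 t with h2 | h2
    · have := mul_nonneg h1 h2
      linarith
    · rw [max_eq_left h1, max_eq_left (by linarith)] at b4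
      linarith
    · rw [max_eq_left (by linarith), max_eq_left h2] at b3
      linarith
    · have := mul_nonneg_of_nonpos_of_nonpos h1 h2
      linarith

/-- products of two functions which are convex in each variable -/
theorem tri {f g : ℝ → ℝ} (hx : ∀ y, ConvexOn ℝ univ (fun x => f x * g y))
    (hy : ∀ x, ConvexOn ℝ univ (fun y => f x * g y)) :
    (∃ φ ψ : ℝ → ℝ, ConvexOn ℝ univ φ ∧ ConvexOn ℝ univ ψ ∧ (∀ x, 0 ≤ φ x) ∧ (∀ y, 0 ≤ ψ y) ∧
      ∀ x y, f x * g y = φ x * ψ y) ∨
    (∃ a b a' b' : ℝ, ∀ x y, f x * g y = (a + b * x) * (a' + b' * y)) ∨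
    (∃ φ : ℝ → ℝ, ConvexOn ℝ univ φ ∧ ∀ x y, f x * g y = φ x) ∨
    (∃ φ : ℝ → ℝ, ConvexOn ℝ univ φ ∧ ∀ x y, f x * g y = φ y) := by
  by_cases hf0 : ∀ x, f x = 0
  · right; right; left
    exact ⟨fun _ => 0, convexOn_const 0 convex_univ, fun x y => by rw [hf0 x, zero_mul]⟩
  by_cases hg0 : ∀ y, g y = 0
  · right; right; left
    exact ⟨fun _ => 0, convexOn_const 0 convex_univ, fun x y => by rw [hg0 y, mul_zero]⟩
  push Not at hf0 hg0
  obtain ⟨x1, hx1⟩ := hf0
  obtain ⟨y1, hy1⟩ := hg0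
  -- positive values
  have posc : ∀ {k l : ℝ → ℝ} (_ : ∀ y, ConvexOn ℝ univ (fun x => k x * l y)) {y : ℝ},
      0 < l y → ConvexOn ℝ univ k := by
    intro k l h y hl
    have h1 := (h y).smul (inv_nonneg.2 hl.le)
    have e : (fun x => (l y)⁻¹ • (k x * l y)) = k := by
      ext x
      simp only [smul_eq_mul]
      field_simp
    rwa [e] at h1
  have negc : ∀ {k l : ℝ → ℝ} (_ : ∀ y, ConvexOn ℝ univ (fun x => k x * l y)) {y : ℝ},
      l y < 0 → ConcaveOn ℝ univ k := by
    intro k l h y hl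
    have h1 := (h y).smul (inv_nonneg.2 (neg_pos.2 hl).le)
    have hne : l y ≠ 0 := hl.ne
    have e : (fun x => (-(l y))⁻¹ • (k x * l y)) = -k := by
      ext x
      simp only [smul_eq_mul, Pi.neg_apply]
      field_simp
    rw [e] at h1
    exact neg_convexOn_iff.1 h1
  have hy' : ∀ x, ConvexOn ℝ univ (fun y => g y * f x) := by
    intro x
    have := hy x
    simpa only [mul_comm] using this
  -- constant sign of one factor reduces to one variable
  have cst : ∀ {k : ℝ → ℝ}, ConvexOn ℝ univ k → (∀ x, k x ≤ 0) → ∀ x, k x = k 0 := by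
    intro k hk h0 x
    exact le_antisymm (const_of_le hk h0 0 x) (const_of_le hk h0 x 0)
  have gconst : (∀ y, g y = g 0) → (∃ φ : ℝ → ℝ, ConvexOn ℝ univ φ ∧ ∀ x y, f x * g y = φ x) :=
    fun h => ⟨fun x => f x * g 0, hx 0, fun x y => by rw [h y]⟩
  have fconst : (∀ x, f x = f 0) → (∃ φ : ℝ → ℝ, ConvexOn ℝ univ φ ∧ ∀ x y, f x * g y = φ y) :=
    fun h => ⟨fun y => f 0 * g y, hy 0, fun x y => by rw [h x]⟩
  by_cases fp : ∃ x, 0 < f x
  · obtain ⟨xp, hxp⟩ := fp
    have gcv : ConvexOn ℝ univ g := posc hy' hxp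
    by_cases fn : ∃ x, f x < 0
    · obtain ⟨xn, hxn⟩ := fn
      have gcc : ConcaveOn ℝ univ g := negc hy' hxn
      obtain ⟨a', b', hg⟩ := affine_of gcv gcc
      by_cases gp : ∃ y, 0 < g y
      · obtain ⟨yp, hyp⟩ := gp
        by_cases gn : ∃ y, g y < 0
        · obtain ⟨yn, hyn⟩ := gn
          obtain ⟨a, b, hf⟩ := affine_of (posc hx hyp) (negc hx hyn)
          right; left
          exact ⟨a, b, a', b', fun x y => by rw [hf x, hg y]⟩
        · push Not at gn
          right; right; left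
          refine gconst fun y => ?_
          have h1 := cst (k := -g) (neg_convexOn_iff.2 gcc) (fun y => by
            simpa using gn y) y
          simpa using h1
      · push Not at gp
        right; right; left
        exact gconst (cst gcv gp)
    · push Not at fn
      by_cases gp : ∃ y, 0 < g y
      · obtain ⟨yp, hyp⟩ := gp
        have fcv := posc hx hyp
        by_cases gn : ∃ y, g y < 0
        · obtain ⟨yn, hyn⟩ := gn
          have fcc := negc hx hyn
          right; right; right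
          refine fconst fun x => ?_
          have h1 := cst (k := -f) (neg_convexOn_iff.2 fcc) (fun x => by
            simpa using fn x) x
          simpa using h1
        · push Not at gn
          left
          exact ⟨f, g, fcv, gcv, fn, gn, fun x y => rfl⟩
      · push Not at gp
        right; right; left
        exact gconst (cst gcv gp)
  · push Not at fp
    have hx1n : f x1 < 0 := lt_of_le_of_ne (fp x1) hx1
    have gcc : ConcaveOn ℝ univ g := negc hy' hx1n
    by_cases gn : ∃ y, g y < 0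
    · obtain ⟨yn, hyn⟩ := gn
      have fcc := negc hx hyn
      by_cases gp : ∃ y, 0 < g y
      · obtain ⟨yp, hyp⟩ := gp
        have fcv := posc hx hyp
        right; right; right
        exact fconst (cst fcv fp)
      · push Not at gp
        left
        refine ⟨-f, -g, neg_convexOn_iff.2 fcc, neg_convexOn_iff.2 gcc, fun x => ?_, fun y => ?_,
          fun x y => ?_⟩
        · simpa using fp x
        · simpa using gp y
        · simp
    · push Not at gn
      right; right; left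
      refine gconst fun y => ?_
      have h1 := cst (k := -g) (neg_convexOn_iff.2 gcc) (fun y => by
        simpa using gn y) y
      simpa using h1

/-- every product class function -/
theorem QL_all {f g : ℝ → ℝ} (hx : ∀ y, ConvexOn ℝ univ (fun x => f x * g y))
    (hy : ∀ x, ConvexOn ℝ univ (fun y => f x * g y)) {κ c : ℝ}
    (hSD : SD (fun x y => f x * g y) κ c) :
    Continuous (Wh (fun x y => f x * g y) κ c) ∧
      ∀ F0, QL (Wh (fun x y => f x * g y) κ c) F0 := by
  have cx := cont_xx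
  have cy := cont_yy
  rcases tri hx hy with ⟨φ, ψ, hφ, hψ, φ0, ψ0, e⟩ | ⟨a, b, a', b', e⟩ | ⟨φ, hφ, e⟩ | ⟨φ, hφ, e⟩
  · have e1 : (fun x y => f x * g y) = fun x y => φ x * ψ y := by ext x y; exact e x y
    rw [e1] at hSD ⊢
    refine ⟨?_, fun F0 => QL_pos hφ hψ φ0 ψ0 hSD F0⟩
    have := ConvexOn.cont hφ
    have := ConvexOn.cont hψ
    unfold Wh
    fun_prop
  · have e1 : (fun x y => f x * g y) = fun x y => (a + b * x) * (a' + b' * y) := by
      ext x y; exact e x y
    rw [e1] at hSD ⊢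
    refine ⟨by unfold Wh; fun_prop, fun F0 => ?_⟩
    have h1 := hSD 0 0 1 1 1 1 (by ring)
    have h2 := hSD 0 0 1 (-1) 1 (-1) (by ring)
    norm_num at h1 h2
    have h3 := QL_add (by fun_prop) (by fun_prop) (QL_affine ((b * a') • xL + (a * b') • yL)
      (w := fun F => b * a' * xx F + a * b' * yy F + a * a') (a * a')
      (fun F => by simp [xL_apply, yL_apply]) F0)
      (QL_add (by fun_prop) (by fun_prop) (QL_det (b * b') F0)
        (QL_quad (p := 2 * κ - c - b * b') (q := 2 * κ + c + b * b') (by nlinarith) (by nlinarith) F0))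
    convert h3 using 2 with F
    unfold Wh
    simp only
    have e2 := eq_det F
    have e3 : (a + b * xx F) * (a' + b' * yy F)
      = b * a' * xx F + a * b' * yy F + a * a' + b * b' * (xx F * yy F) := by ring
    rw [e3, e2]
    ring
  · have e1 : (fun x y => f x * g y) = fun x (_ : ℝ) => φ x := by ext x y; exact e x y
    rw [e1] at hSD ⊢
    have hc := ConvexOn.cont hφ
    refine ⟨by unfold Wh; fun_prop, fun F0 => ?_⟩
    have hpq := pq_of_one hc hSD
    have h := QL_one hφ hc xL hpq.1 hpq.2 F0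
    simp only [xL_apply] at h
    exact h
  · have e1 : (fun x y => f x * g y) = fun (_ : ℝ) y => φ y := by ext x y; exact e x y
    rw [e1] at hSD ⊢
    have hc := ConvexOn.cont hφ
    refine ⟨by unfold Wh; fun_prop, fun F0 => ?_⟩
    have hpq := pq_of_one hc hSD.swap
    have h := QL_one hφ hc yL hpq.1 hpq.2 F0
    simp only [yL_apply] at h
    exact h

end Pool.Agent.Run7.h167.MC
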