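import Pool.Agent.Run7.h167.MC.Fin

/-!
# Rank-one convex functions of the class
-/

set_option autoImplicit false

namespace Pool.Agent.Run7.h167.MC

open Matrix MeasureTheory Set Filter Topology
open Pool.Agent.W360.MQ (cab Quasiconvex)
open Pool.Agent.Helper188.Morrey (RankOneConvex)

theorem mid_conv {f : ℝ → ℝ} (hf : ConvexOn ℝ univ f) (x X : ℝ) :
    2 * f x ≤ f (x + X) + f (x - X) := by
  have h := hf.2 (mem_univ (x + X)) (mem_univ (x - X)) (show (0 : ℝ) ≤ 1 / 2 by norm_num)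
    (show (0 : ℝ) ≤ 1 / 2 by norm_num) (by norm_num)
  have e : (1 / 2 : ℝ) • (x + X) + (1 / 2 : ℝ) • (x - X) = x := by
    simp only [smul_eq_mul]; ring
  rw [e] at h
  simp only [smul_eq_mul] at h
  linarith

/-- the subclass with Lipschitz factors -/
theorem roc_lip {f g : ℝ → ℝ} (hf : ConvexOn ℝ univ f) (hg : ConvexOn ℝ univ g)
    (f0 : ∀ x, 0 ≤ f x) (g0 : ∀ y, 0 ≤ g y) {K₁ K₂ κ : ℝ}
    (hK1 : ∀ x y, |f x - f y| ≤ K₁ * |x - y|) (hK2 : ∀ x y, |g x - g y| ≤ K₂ * |x - y|)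
    (hκ : K₁ * K₂ ≤ 2 * κ) : RankOneConvex (Wc f g κ κ 0 0) := by
  have K10 : 0 ≤ K₁ := by
    have := hK1 1 0
    simp only [sub_zero, abs_one, mul_one] at this
    exact (abs_nonneg _).trans this
  have K20 : 0 ≤ K₂ := by
    have := hK2 1 0
    simp only [sub_zero, abs_one, mul_one] at this
    exact (abs_nonneg _).trans this
  have κ0 : 0 ≤ κ := by
    have := mul_nonneg K10 K20
    linarith
  have key : ∀ x y X Y s t : ℝ, X * Y = s * t →
      2 * (f x * g y) ≤ f (x + X) * g (y + Y) + f (x - X) * g (y - Y)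
        + 2 * (κ * s ^ 2 + κ * t ^ 2) := by
    intro x y X Y s t hst
    have a1 := hK1 (x + X) x
    have a2 := hK1 x (x - X)
    have b1 := hK2 (y + Y) y
    have b2 := hK2 y (y - Y)
    rw [show x + X - x = X by ring] at a1
    rw [show x - (x - X) = X by ring] at a2
    rw [show y + Y - y = Y by ring] at b1
    rw [show y - (y - Y) = Y by ring] at b2
    have c1 := mid_conv hf x X
    have c2 := mid_conv hg y Y
    have p1 : |(f (x + X) - f x) * (g (y + Y) - g y)| ≤ K₁ * K₂ * |X * Y| := by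
      rw [abs_mul, abs_mul]
      have := mul_le_mul a1 b1 (abs_nonneg _) (mul_nonneg K10 (abs_nonneg _))
      linarith
    have p2 : |(f x - f (x - X)) * (g y - g (y - Y))| ≤ K₁ * K₂ * |X * Y| := by
      rw [abs_mul, abs_mul]
      have := mul_le_mul a2 b2 (abs_nonneg _) (mul_nonneg K10 (abs_nonneg _))
      linarith
    have q1 := (abs_le.1 p1).1
    have q2 := (abs_le.1 p2).1
    have r1 : 0 ≤ f x * (g (y + Y) + g (y - Y) - 2 * g y) :=
      mul_nonneg (f0 x) (by linarith)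
    have r2 : 0 ≤ g y * (f (x + X) + f (x - X) - 2 * f x) :=
      mul_nonneg (g0 y) (by linarith)
    have r3 : 2 * |X * Y| ≤ s ^ 2 + t ^ 2 := by
      rw [hst, abs_mul]
      nlinarith [sq_nonneg (|s| - |t|), sq_abs s, sq_abs t]
    have r4 : K₁ * K₂ * |X * Y| ≤ 2 * κ * |X * Y| :=
      mul_le_mul_of_nonneg_right hκ (abs_nonneg _)
    have r5 : κ * (2 * |X * Y|) ≤ κ * (s ^ 2 + t ^ 2) := mul_le_mul_of_nonneg_left r3 κ0
    nlinarith
  have hfc := ConvexOn.cont hf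
  have hgc := ConvexOn.cont hg
  have hWc : Continuous (Wc f g κ κ 0 0) := by
    unfold Wc
    simp only [LinearMap.zero_apply, zero_mul, add_zero]
    fun_prop
  intro F H hH t h0 h1
  have hd := Pool.Agent.Helper188.Morrey.det_eq_zero_of_rank hH.le
  rw [det_fin_two] at hd
  have hc : ConvexOn ℝ univ (fun τ : ℝ => Wc f g κ κ 0 0 (F + τ • H)) := by
    refine convexOn_of_mid (hWc.comp (by fun_prop)) fun a h => ?_
    have h2 := key (F 0 0 + a * H 0 0) (F 1 1 + a * H 1 1) (h * H 0 0) (h * H 1 1) (h * H 0 1)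
      (h * H 1 0) (by linear_combination h ^ 2 * hd)
    unfold Wc
    simp only [Matrix.add_apply, Matrix.smul_apply, smul_eq_mul, LinearMap.zero_apply, add_zero,
      zero_mul]
    have e1 : F 0 0 + (a + h) * H 0 0 = F 0 0 + a * H 0 0 + h * H 0 0 := by ring
    have e2 : F 0 0 + (a - h) * H 0 0 = F 0 0 + a * H 0 0 - h * H 0 0 := by ring
    have e3 : F 1 1 + (a + h) * H 1 1 = F 1 1 + a * H 1 1 + h * H 1 1 := by ring
    have e4 : F 1 1 + (a - h) * H 1 1 = F 1 1 + a * H 1 1 - h * H 1 1 := by ring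
    rw [e1, e2, e3, e4]
    nlinarith
  have h2 := hc.2 (mem_univ 0) (mem_univ 1) (sub_nonneg.2 h1) h0 (by ring)
  simp only [smul_eq_mul, mul_zero, mul_one, zero_add, zero_smul, add_zero, one_smul] at h2
  have e : (1 - t) • F + t • (F + H) = F + t • H := by
    rw [smul_add, sub_smul, one_smul]; abel
  rw [e]
  exact h2

/-- the positive part -/
noncomputable def ps (x : ℝ) : ℝ := max x 0

theorem ps_conv : ConvexOn ℝ univ ps :=
  (convexOn_id convex_univ).sup (convexOn_const 0 convex_univ)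

/-- an example which is not polyconvex -/
theorem not_poly : ¬ ∃ P : M2 × ℝ → EReal, (∀ z, P z ≠ ⊥) ∧
    (∀ z w : M2 × ℝ, ∀ a b : ℝ, 0 ≤ a → 0 ≤ b → a + b = 1 →
      P (a • z + b • w) ≤ (a : EReal) * P z + (b : EReal) * P w) ∧
    ∀ F : M2, P (F, F.det)
      = ((max (F 0 0) 0 * max (F 1 1) 0 + 1 / 2 * (F 0 1 ^ 2 + F 1 0 ^ 2) : ℝ) : EReal) := by
  rintro ⟨P, hbot, hconv, hP⟩
  have v1 := hP !![2, 0; 0, 1 / 2]
  have v2 := hP !![1 / 2, 0; 0, 2]
  have v3 := hP !![-1, 0; 0, -1]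
  have v4 := hP !![1, 0; 0, 1]
  have d1 : (!![2, 0; 0, 1 / 2] : M2).det = 1 := by rw [det_fin_two_of]; norm_num
  have d2 : (!![1 / 2, 0; 0, 2] : M2).det = 1 := by rw [det_fin_two_of]; norm_num
  have d3 : (!![-1, 0; 0, -1] : M2).det = 1 := by rw [det_fin_two_of]; norm_num
  have d4 : (!![1, 0; 0, 1] : M2).det = 1 := by rw [det_fin_two_of]; norm_num
  rw [d1] at v1
  rw [d2] at v2
  rw [d3] at v3
  rw [d4] at v4
  have w1 : P (!![2, 0; 0, 1 / 2], 1) = ((1 : ℝ) : EReal) := by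
    rw [v1]; norm_num
  have w2 : P (!![1 / 2, 0; 0, 2], 1) = ((1 : ℝ) : EReal) := by
    rw [v2]; norm_num
  have w3 : P (!![-1, 0; 0, -1], 1) = ((0 : ℝ) : EReal) := by
    rw [v3]; norm_num
  have w4 : P (!![1, 0; 0, 1], 1) = ((1 : ℝ) : EReal) := by
    rw [v4]; norm_num
  have c1 := hconv (!![2, 0; 0, 1 / 2], 1) (!![1 / 2, 0; 0, 2], 1) (1 / 2) (1 / 2) (by norm_num)
    (by norm_num) (by norm_num)
  have e1 : (1 / 2 : ℝ) • ((!![2, 0; 0, 1 / 2], 1) : M2 × ℝ)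
      + (1 / 2 : ℝ) • ((!![1 / 2, 0; 0, 2], 1) : M2 × ℝ) = (!![5 / 4, 0; 0, 5 / 4], 1) := by
    ext i j
    · fin_cases i <;> fin_cases j <;> simp <;> norm_num
    · simp; norm_num
  rw [e1, w1, w2] at c1
  have c2 := hconv (!![5 / 4, 0; 0, 5 / 4], 1) (!![-1, 0; 0, -1], 1) (8 / 9) (1 / 9)
    (by norm_num) (by norm_num) (by norm_num)
  have e2 : (8 / 9 : ℝ) • ((!![5 / 4, 0; 0, 5 / 4], 1) : M2 × ℝ)
      + (1 / 9 : ℝ) • ((!![-1, 0; 0, -1], 1) : M2 × ℝ) = (!![1, 0; 0, 1], 1) := by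
    ext i j
    · fin_cases i <;> fin_cases j <;> simp <;> norm_num
    · simp; norm_num
  rw [e2, w3, w4] at c2
  have h5 := hbot (!![5 / 4, 0; 0, 5 / 4], 1)
  obtain ⟨p, hp⟩ : ∃ p : ℝ, P (!![5 / 4, 0; 0, 5 / 4], 1) = (p : EReal) := by
    induction h : P (!![5 / 4, 0; 0, 5 / 4], 1) with
    | bot => exact absurd h h5
    | coe p => exact ⟨p, rfl⟩
    | top =>
      exfalso
      rw [h, ← EReal.coe_mul, ← EReal.coe_add] at c1
      exact absurd (top_le_iff.1 c1) (EReal.coe_ne_top _)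
  rw [hp] at c1 c2
  rw [← EReal.coe_mul, ← EReal.coe_add, EReal.coe_le_coe_iff] at c1
  rw [← EReal.coe_mul, ← EReal.coe_mul, ← EReal.coe_add, EReal.coe_le_coe_iff] at c2
  linarith

end Pool.Agent.Run7.h167.MC
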