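import Pool.Agent.Run7.h167.MC.Cls
import Pool.Agent.Helper188.Morrey.Basic

/-!
# From the normalized class to matrices

The lemma `QC_mul` is the one of `Pool/Agent/Run7/h521/MQ/FinA.lean`, repeated here.
-/

set_option autoImplicit false

namespace Pool.Agent.Run7.h167.MC

open Matrix MeasureTheory Set Filter Topology
open Pool.Agent.TH937.ZC
open Pool.Agent.W360.MQ (cab Quasiconvex)
open Pool.Agent.Helper188.Morrey (RankOneConvex)

abbrev M2 := Matrix (Fin 2) (Fin 2) ℝ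

abbrev V2 := Fin 2 → ℝ

/-- the isomorphism of an invertible matrix -/
noncomputable def iso (A : M2) (hA : A.det ≠ 0) : V2 ≃L[ℝ] V2 :=
  (Matrix.toLinearEquiv' A (A.invertibleOfIsUnitDet (isUnit_iff_ne_zero.2 hA))).toContinuousLinearEquiv

theorem iso_apply (A : M2) (hA : A.det ≠ 0) (v : V2) : iso A hA v = A *ᵥ v := by
  have h := LinearMap.congr_fun
    (Matrix.toLinearEquiv'_apply A (A.invertibleOfIsUnitDet (isUnit_iff_ne_zero.2 hA))) v
  rw [Matrix.toLin'_apply] at h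
  exact h

theorem iso_coe (A : M2) (hA : A.det ≠ 0) :
    (((iso A hA : V2 ≃L[ℝ] V2) : V2 →L[ℝ] V2) : V2 →ₗ[ℝ] V2) = Matrix.toLin' A := by
  ext v i
  simp [iso_apply]

/-- Quasiconvexity is invariant under multiplication with invertible matrices. -/
theorem QC_mul {W : M2 → ℝ} (A C : M2) (hA : A.det ≠ 0) (hC : C.det ≠ 0) (h : Quasiconvex W) :
    Quasiconvex (fun F => W (A * F * C)) := by
  rintro F₀ Ω hΩ hb ϑ ⟨K, hK⟩ h0
  set eA := iso A hA with heA
  set eC := iso C hC with heC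
  have hgrad : ∀ y, LinearMap.toMatrix' ((fderiv ℝ (fun y => eA (ϑ (eC y))) y : V2 →L[ℝ] V2) : V2 →ₗ[ℝ] V2)
      = A * LinearMap.toMatrix' ((fderiv ℝ ϑ (eC y) : V2 →L[ℝ] V2) : V2 →ₗ[ℝ] V2) * C := by
    intro y
    have e1 : fderiv ℝ (fun y => eA (ϑ (eC y))) y
        = (eA : V2 →L[ℝ] V2).comp ((fderiv ℝ ϑ (eC y)).comp (eC : V2 →L[ℝ] V2)) := by
      have a1 := eA.comp_fderiv (f := fun y => ϑ (eC y)) (x := y)
      have a2 := eC.comp_right_fderiv (f := ϑ) (x := y)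
      have a3 : (fun y => eA (ϑ (eC y))) = eA ∘ fun y => ϑ (eC y) := rfl
      have a4 : (fun y => ϑ (eC y)) = ϑ ∘ eC := rfl
      rw [a3, a1, a4, a2]
    rw [e1]
    have e2 : (((eA : V2 →L[ℝ] V2).comp ((fderiv ℝ ϑ (eC y)).comp (eC : V2 →L[ℝ] V2)) : V2 →L[ℝ] V2)
        : V2 →ₗ[ℝ] V2) = (Matrix.toLin' A).comp
          (((fderiv ℝ ϑ (eC y) : V2 →L[ℝ] V2) : V2 →ₗ[ℝ] V2).comp (Matrix.toLin' C)) := by
      rw [← iso_coe A hA, ← iso_coe C hC]
      rfl
    rw [e2, LinearMap.toMatrix'_comp, LinearMap.toMatrix'_comp, LinearMap.toMatrix'_toLin',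
      LinearMap.toMatrix'_toLin', Matrix.mul_assoc]
  have hlipC : LipschitzWith ‖(eC : V2 →L[ℝ] V2)‖₊ eC := (eC : V2 →L[ℝ] V2).lipschitz
  have hlipA : LipschitzWith ‖(eA : V2 →L[ℝ] V2)‖₊ eA := (eA : V2 →L[ℝ] V2).lipschitz
  have hbΩ : Bornology.IsBounded (eC ⁻¹' Ω) := by
    have e : eC ⁻¹' Ω = eC.symm '' Ω := by
      ext x
      constructor
      · intro hx
        exact ⟨eC x, hx, by simp⟩
      · rintro ⟨y, hy, rfl⟩
        simpa using hy
    rw [e]
    exact ((eC.symm : V2 →L[ℝ] V2).lipschitz).isBounded_image hb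
  have key := h (A * F₀ * C) (eC ⁻¹' Ω) (hΩ.preimage eC.continuous) hbΩ
    (fun y => eA (ϑ (eC y))) ⟨_, hlipA.comp (hK.comp hlipC)⟩
    (fun x hx => by
      have : ϑ (eC x) = 0 := h0 _ hx
      rw [this, map_zero])
  have hdet : LinearMap.det (((eC : V2 ≃L[ℝ] V2) : V2 →L[ℝ] V2) : V2 →ₗ[ℝ] V2) ≠ 0 := by
    rw [heC, iso_coe, LinearMap.det_toLin']
    exact hC
  set κ : ℝ := |(LinearMap.det (((eC : V2 ≃L[ℝ] V2) : V2 →L[ℝ] V2) : V2 →ₗ[ℝ] V2))⁻¹| with hκ
  have hκ0 : 0 < κ := abs_pos.2 (inv_ne_zero hdet)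
  have hmap : Measure.map eC (volume : Measure V2) = ENNReal.ofReal κ • (volume : Measure V2) := by
    have := Measure.map_linearMap_addHaar_eq_smul_addHaar (μ := (volume : Measure V2)) hdet
    exact this
  have hvol : (volume (eC ⁻¹' Ω)).toReal = κ * (volume Ω).toReal := by
    have e := Measure.map_apply (μ := (volume : Measure V2)) eC.continuous.measurable
      hΩ.measurableSet
    rw [← e, hmap, Measure.smul_apply, smul_eq_mul, ENNReal.toReal_mul,
      ENNReal.toReal_ofReal hκ0.le]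
  set g : V2 → ℝ := fun x => W (A * (F₀ + LinearMap.toMatrix'
    ((fderiv ℝ ϑ x : V2 →L[ℝ] V2) : V2 →ₗ[ℝ] V2)) * C) with hg
  have hint : ∫ y in eC ⁻¹' Ω, g (eC y) = κ * ∫ x in Ω, g x := by
    have e := (eC.toHomeomorph.measurableEmbedding).setIntegral_map (μ := (volume : Measure V2)) g Ω
    have e1 : (eC.toHomeomorph : V2 → V2) = eC := rfl
    rw [e1, hmap] at e
    rw [← e, Measure.restrict_smul, integral_smul_measure, ENNReal.toReal_ofReal hκ0.le,
      smul_eq_mul]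
  have hlast : ∫ y in eC ⁻¹' Ω, W (A * F₀ * C + LinearMap.toMatrix'
      ((fderiv ℝ (fun y => eA (ϑ (eC y))) y : V2 →L[ℝ] V2) : V2 →ₗ[ℝ] V2))
      = ∫ y in eC ⁻¹' Ω, g (eC y) := by
    refine integral_congr_ae (Eventually.of_forall fun y => ?_)
    simp only [hg]
    rw [hgrad, Matrix.mul_add, Matrix.add_mul]
  rw [hlast, hint, hvol] at key
  have k2 : κ * (W (A * F₀ * C) * (volume Ω).toReal) ≤ κ * ∫ x in Ω, g x := by
    linarith
  exact le_of_mul_le_mul_left k2 hκ0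

/-- the class -/
noncomputable def Wc (f g : ℝ → ℝ) (a b c : ℝ) (L : M2 →ₗ[ℝ] ℝ) (F : M2) : ℝ :=
  f (F 0 0) * g (F 1 1) + (a * F 0 1 ^ 2 + b * F 1 0 ^ 2 + c * (F 0 1 * F 1 0)) + L F

theorem sd_of_roc {f g : ℝ → ℝ} {a b c : ℝ} {L : M2 →ₗ[ℝ] ℝ}
    (hW : RankOneConvex (Wc f g a b c L)) (x y X Y s t : ℝ) (h : X * Y = s * t) :
    2 * (f x * g y) ≤ f (x + X) * g (y + Y) + f (x - X) * g (y - Y)
      + 2 * (a * s ^ 2 + b * t ^ 2 + c * (s * t)) := by
  have h1 := hW.line (!![x, 0; 0, y] : M2) (!![X, s; t, Y] : M2)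
    (by rw [det_fin_two_of]; linarith)
  have h2 := h1.2 (mem_univ (-1)) (mem_univ 1) (show (0 : ℝ) ≤ 1 / 2 by norm_num)
    (show (0 : ℝ) ≤ 1 / 2 by norm_num) (by norm_num)
  simp only [Wc, map_add, map_smul] at h2
  simp at h2
  have e1 : x + -X = x - X := by ring
  have e2 : y + -Y = y - Y := by ring
  rw [e1, e2] at h2
  linarith

theorem hx_of_roc {f g : ℝ → ℝ} {a b c : ℝ} {L : M2 →ₗ[ℝ] ℝ}
    (hW : RankOneConvex (Wc f g a b c L)) (y : ℝ) : ConvexOn ℝ univ (fun x => f x * g y) := by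
  have h1 := hW.line (!![0, 0; 0, y] : M2) (!![1, 0; 0, 0] : M2)
    (by rw [det_fin_two_of]; ring)
  have h2 : ConvexOn ℝ univ (fun t : ℝ => t * (-L (!![1, 0; 0, 0] : M2)) + -L (!![0, 0; 0, y] : M2)) :=
    ((LinearMap.mulRight ℝ (-L (!![1, 0; 0, 0] : M2))).convexOn convex_univ).add
      (convexOn_const _ convex_univ)
  have h3 := h1.add h2
  refine h3.congr fun t _ => ?_
  simp only [Wc, map_add, map_smul, Pi.add_apply]
  simp
  ring

theorem hy_of_roc {f g : ℝ → ℝ} {a b c : ℝ} {L : M2 →ₗ[ℝ] ℝ}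
    (hW : RankOneConvex (Wc f g a b c L)) (x : ℝ) : ConvexOn ℝ univ (fun y => f x * g y) := by
  have h1 := hW.line (!![x, 0; 0, 0] : M2) (!![0, 0; 0, 1] : M2)
    (by rw [det_fin_two_of]; ring)
  have h2 : ConvexOn ℝ univ (fun t : ℝ => t * (-L (!![0, 0; 0, 1] : M2)) + -L (!![x, 0; 0, 0] : M2)) :=
    ((LinearMap.mulRight ℝ (-L (!![0, 0; 0, 1] : M2))).convexOn convex_univ).add
      (convexOn_const _ convex_univ)
  have h3 := h1.add h2
  refine h3.congr fun t _ => ?_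
  simp only [Wc, map_add, map_smul, Pi.add_apply]
  simp
  ring

/-- the matrix of a pair -/
noncomputable def matL : ℂ × ℂ →ₗ[ℝ] M2 where
  toFun F := !![xx F, F.2.im - F.1.im; F.1.im + F.2.im, yy F]
  map_add' F G := by
    ext i j
    fin_cases i <;> fin_cases j <;> simp [xx, yy] <;> ring
  map_smul' r F := by
    ext i j
    fin_cases i <;> fin_cases j <;> simp [xx, yy] <;> ring

theorem matL_cab (A : M2) : matL (cab A) = A := by
  ext i j
  fin_cases i <;> fin_cases j <;> simp [matL, cab, xx, yy] <;> ring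

/-- the normalized class -/
theorem quasi_norm {f g : ℝ → ℝ} {κ c : ℝ} {L : M2 →ₗ[ℝ] ℝ}
    (hW : RankOneConvex (Wc f g κ κ c L)) : Quasiconvex (Wc f g κ κ c L) := by
  have hSD : SD (fun x y => f x * g y) κ c := by
    intro x y X Y s t hst
    have := sd_of_roc hW x y X Y s t hst
    linarith
  obtain ⟨h1, h2⟩ := QL_all (hx_of_roc hW) (hy_of_roc hW) hSD
  set L' : ℂ × ℂ →L[ℝ] ℝ := LinearMap.toContinuousLinearMap (L ∘ₗ matL) with hL'
  have h3 : Continuous (fun F => Wh (fun x y => f x * g y) κ c F + L' F) := h1.add L'.continuous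
  have h4 := QL_om h3 (fun F0 => QL_add h1 L'.continuous (h2 F0)
    (QL_affine L' 0 (fun F => by simp) F0))
  have e : (fun A => Wh (fun x y => f x * g y) κ c (cab A) + L' (cab A)) = Wc f g κ κ c L := by
    ext A
    have e1 : L' (cab A) = L A := by
      have : L' (cab A) = L (matL (cab A)) := rfl
      rw [this, matL_cab]
    rw [e1]
    unfold Wh Wc
    have e2 : xx (cab A) = A 0 0 := by simp [xx, cab]; ring
    have e3 : yy (cab A) = A 1 1 := by simp [yy, cab]; ring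
    have e4 : (cab A).1.im = (A 1 0 - A 0 1) / 2 := by simp [cab]
    have e5 : (cab A).2.im = (A 1 0 + A 0 1) / 2 := by simp [cab]
    simp only [e2, e3, e4, e5]
    ring
  rw [e] at h4
  exact h4

/-- rank-one convexity is invariant under multiplication with matrices -/
theorem ROC_mul {W : M2 → ℝ} (A C : M2) (h : RankOneConvex W) :
    RankOneConvex (fun F => W (A * F * C)) := by
  intro F H hH t h0 h1
  have hd : (A * H * C).det = 0 := by
    rw [det_mul, det_mul, Pool.Agent.Helper188.Morrey.det_eq_zero_of_rank hH.le]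
    ring
  have h2 := h.seg (A * F * C) (A * H * C) hd h0 h1
  have e1 : A * ((1 - t) • F + t • (F + H)) * C = A * F * C + t • (A * H * C) := by
    have : (1 - t) • F + t • (F + H) = F + t • H := by
      rw [smul_add, sub_smul, one_smul]; abel
    rw [this, Matrix.mul_add, Matrix.add_mul, Matrix.mul_smul, Matrix.smul_mul]
  have e2 : A * (F + H) * C = A * F * C + A * H * C := by
    rw [Matrix.mul_add, Matrix.add_mul]
  simp only [e1, e2]
  exact h2

/-- diagonal matrices -/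
def dgm (ν : ℝ) : M2 := !![ν, 0; 0, 1]

theorem dgm_det (ν : ℝ) : (dgm ν).det = ν := by
  unfold dgm
  rw [det_fin_two_of]
  ring

theorem dgm_mul (μ ν : ℝ) (F : M2) :
    dgm μ * F * dgm ν = !![μ * F 0 0 * ν, μ * F 0 1; F 1 0 * ν, F 1 1] := by
  ext i j
  fin_cases i <;> fin_cases j <;>
    simp [dgm, Matrix.mul_apply, Fin.sum_univ_two, Matrix.vecMul, dotProduct]

/-- positive coefficients -/
theorem quasi_pos {f g : ℝ → ℝ} {a b c : ℝ} (ha : 0 < a) (hb : 0 < b) {L : M2 →ₗ[ℝ] ℝ}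
    (hW : RankOneConvex (Wc f g a b c L)) : Quasiconvex (Wc f g a b c L) := by
  obtain ⟨ν, hν, hν4⟩ : ∃ ν : ℝ, 0 < ν ∧ a * ν ^ 2 = b / ν ^ 2 := by
    refine ⟨Real.sqrt (Real.sqrt (b / a)), Real.sqrt_pos.2 (Real.sqrt_pos.2 (by positivity)), ?_⟩
    have h1 : 0 < Real.sqrt (b / a) := Real.sqrt_pos.2 (by positivity)
    rw [Real.sq_sqrt h1.le, eq_div_iff h1.ne']
    have h2 : Real.sqrt (b / a) * Real.sqrt (b / a) = b / a := Real.mul_self_sqrt (by positivity)
    rw [mul_assoc, h2]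
    field_simp
  set L' : M2 →ₗ[ℝ] ℝ :=
    L ∘ₗ (LinearMap.mulRight ℝ (dgm (1 / ν))) ∘ₗ (LinearMap.mulLeft ℝ (dgm ν)) with hL'
  have e : (fun F => Wc f g a b c L (dgm ν * F * dgm (1 / ν)))
      = Wc f g (a * ν ^ 2) (a * ν ^ 2) c L' := by
    ext F
    have eL : L' F = L (dgm ν * F * dgm (1 / ν)) := rfl
    unfold Wc
    rw [eL, dgm_mul]
    have h1 : ν * F 0 0 * (1 / ν) = F 0 0 := by field_simp
    have h2 : b * (F 1 0 * (1 / ν)) ^ 2 = a * ν ^ 2 * F 1 0 ^ 2 := by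
      rw [hν4]
      field_simp
    have h3 : ν * F 0 1 * (F 1 0 * (1 / ν)) = F 0 1 * F 1 0 := by field_simp
    simp only [Matrix.of_apply, Matrix.cons_val', Matrix.cons_val_zero, Matrix.cons_val_one,
      Matrix.cons_val_fin_one]
    rw [h1, h2, h3]
    ring
  have h1 := ROC_mul (dgm ν) (dgm (1 / ν)) hW
  rw [e] at h1
  have h2 := quasi_norm h1
  rw [← e] at h2
  have h3 := QC_mul (dgm (1 / ν)) (dgm ν) (by rw [dgm_det]; positivity)
    (by rw [dgm_det]; exact hν.ne') h2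
  have e2 : (fun F => Wc f g a b c L (dgm ν * (dgm (1 / ν) * F * dgm ν) * dgm (1 / ν)))
      = Wc f g a b c L := by
    ext F
    have : dgm ν * (dgm (1 / ν) * F * dgm ν) * dgm (1 / ν) = F := by
      rw [dgm_mul, dgm_mul]
      ext i j
      fin_cases i <;> fin_cases j <;> simp <;> field_simp
    rw [this]
  rw [e2] at h3
  exact h3

/-- the gradient matrix as a function of the derivative -/
noncomputable def tm : (V2 →L[ℝ] V2) →ₗ[ℝ] M2 :=
  (LinearMap.toMatrix' : (V2 →ₗ[ℝ] V2) ≃ₗ[ℝ] M2).toLinearMap ∘ₗ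
    (ContinuousLinearMap.coeLM ℝ : (V2 →L[ℝ] V2) →ₗ[ℝ] (V2 →ₗ[ℝ] V2))

theorem tm_apply (A : V2 →L[ℝ] V2) : tm A = LinearMap.toMatrix' (A : V2 →ₗ[ℝ] V2) := rfl

theorem int_W {W : M2 → ℝ} (hW : Continuous W) (F₀ : M2) {Ω : Set V2}
    (hb : Bornology.IsBounded Ω) {ϑ : V2 → V2} {K : NNReal} (hK : LipschitzWith K ϑ) :
    IntegrableOn (fun x => W (F₀ + LinearMap.toMatrix'
      ((fderiv ℝ ϑ x : V2 →L[ℝ] V2) : V2 →ₗ[ℝ] V2))) Ω := by
  have hc : Continuous (fun A : V2 →L[ℝ] V2 => W (F₀ + tm A)) := by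
    have h1 : Continuous (tm : (V2 →L[ℝ] V2) → M2) := tm.continuous_of_finiteDimensional
    exact hW.comp (continuous_const.add h1)
  have hcp : IsCompact (Metric.closedBall (0 : V2 →L[ℝ] V2) K) := isCompact_closedBall _ _
  obtain ⟨M, hM⟩ := hcp.exists_bound_of_continuousOn hc.continuousOn
  have hmeas : Measurable (fun x => W (F₀ + tm (fderiv ℝ ϑ x))) :=
    hc.measurable.comp (measurable_fderiv ℝ ϑ)
  refine Measure.integrableOn_of_bounded (M := M) hb.measure_lt_top.ne hmeas.aestronglyMeasurable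
    (Eventually.of_forall fun x => hM (fderiv ℝ ϑ x) ?_)
  rw [mem_closedBall_zero_iff]
  exact norm_fderiv_le_of_lipschitz ℝ hK

theorem QC_lim {W q : M2 → ℝ} (hW : Continuous W) (hq : Continuous q)
    (h : ∀ ε : ℝ, 0 < ε → Quasiconvex (fun F => W F + ε * q F)) : Quasiconvex W := by
  rintro F₀ Ω hΩ hb ϑ ⟨K, hK⟩ h0
  have i1 := int_W hW F₀ hb hK
  have i2 := int_W hq F₀ hb hK
  set I := ∫ x in Ω, W (F₀ + LinearMap.toMatrix'
      ((fderiv ℝ ϑ x : V2 →L[ℝ] V2) : V2 →ₗ[ℝ] V2)) with hI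
  set J := ∫ x in Ω, q (F₀ + LinearMap.toMatrix'
      ((fderiv ℝ ϑ x : V2 →L[ℝ] V2) : V2 →ₗ[ℝ] V2)) with hJ
  have key : ∀ ε : ℝ, 0 < ε → (W F₀ + ε * q F₀) * (volume Ω).toReal ≤ I + ε * J := by
    intro ε hε
    have h1 := h ε hε F₀ Ω hΩ hb ϑ ⟨K, hK⟩ h0
    rw [integral_add i1 (i2.const_mul ε), integral_const_mul] at h1
    exact h1
  have l1 : Tendsto (fun ε : ℝ => (W F₀ + ε * q F₀) * (volume Ω).toReal) (𝓝[>] 0)
      (𝓝 ((W F₀ + 0 * q F₀) * (volume Ω).toReal)) := by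
    have : Continuous (fun ε : ℝ => (W F₀ + ε * q F₀) * (volume Ω).toReal) := by fun_prop
    exact (this.tendsto 0).mono_left nhdsWithin_le_nhds
  have l2 : Tendsto (fun ε : ℝ => I + ε * J) (𝓝[>] 0) (𝓝 (I + 0 * J)) := by
    have : Continuous (fun ε : ℝ => I + ε * J) := by fun_prop
    exact (this.tendsto 0).mono_left nhdsWithin_le_nhds
  have h2 := le_of_tendsto_of_tendsto l1 l2 (by
    filter_upwards [self_mem_nhdsWithin] with ε hε
    exact key ε hε)
  simpa using h2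

/-- every rank-one convex function of the class is quasiconvex -/
theorem quasi {f g : ℝ → ℝ} {a b c : ℝ} {L : M2 →ₗ[ℝ] ℝ}
    (hW : RankOneConvex (Wc f g a b c L)) : Quasiconvex (Wc f g a b c L) := by
  have ha : 0 ≤ a := by
    have := sd_of_roc hW 0 0 0 0 1 0 (by ring)
    norm_num at this
    linarith
  have hb : 0 ≤ b := by
    have := sd_of_roc hW 0 0 0 0 0 1 (by ring)
    norm_num at this
    linarith
  refine QC_lim (q := fun F => F 0 1 ^ 2 + F 1 0 ^ 2) hW.continuous (by fun_prop) fun ε hε => ?_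
  have e : (fun F => Wc f g a b c L F + ε * (F 0 1 ^ 2 + F 1 0 ^ 2))
      = Wc f g (a + ε) (b + ε) c L := by
    ext F
    unfold Wc
    ring
  rw [e]
  apply quasi_pos (by linarith) (by linarith)
  rw [← e]
  intro F H hH t h0 h1
  have h2 := hW F H hH t h0 h1
  have h3 : ∀ x y : ℝ, ((1 - t) * x + t * (x + y)) ^ 2 ≤ (1 - t) * x ^ 2 + t * (x + y) ^ 2 := by
    intro x y
    nlinarith [mul_nonneg (mul_nonneg h0 (sub_nonneg.2 h1)) (sq_nonneg y)]
  have h4 := h3 (F 0 1) (H 0 1)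
  have h5 := h3 (F 1 0) (H 1 0)
  simp only [Matrix.add_apply, Matrix.smul_apply, smul_eq_mul]
  nlinarith

end Pool.Agent.Run7.h167.MC
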