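import Pool.Agent.Run7.h167.MC.C2
import Pool.Agent.Run7.h167.MC.Fin

/-!
# The theorems on monotone mixed derivatives for matrices
-/

set_option autoImplicit false

namespace Pool.Agent.Run7.h167.MC

open Matrix MeasureTheory Set Filter Topology
open Pool.Agent.TH937.ZC
open Pool.Agent.W360.MQ (cab Quasiconvex)

/-- half of the distance of the eigenvalues of the symmetric part -/
noncomputable def rad (A : M2) : ℝ :=
  Real.sqrt (((A 0 0 - A 1 1) / 2) ^ 2 + ((A 0 1 + A 1 0) / 2) ^ 2)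

theorem norm_cab2 (A : M2) : ‖(cab A).2‖ = rad A := by
  rw [Complex.norm_eq_sqrt_sq_add_sq]
  unfold rad
  congr 1
  simp [cab]
  ring

theorem iso_M {h : ℝ → ℝ → ℝ} (hC : ContDiff ℝ 2 (HH h)) (hs : ∀ x y, h x y = h y x)
    (hcx : ∀ y, ConvexOn ℝ univ (fun x => h x y)) (hM : ∀ s t, mix h s t ≤ 0)
    (hmono : (∀ t, Monotone (fun s => mix h s t)) ∨ (∀ t, Antitone (fun s => mix h s t))) :
    Quasiconvex (fun A => h ((A 0 0 + A 1 1) / 2 + rad A) ((A 0 0 + A 1 1) / 2 - rad A)) := by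
  have cs := cont_sg
  have ct := cont_ta
  have chF : Continuous (fun F : ℂ × ℂ => h (sg F) (ta F)) :=
    (cont_h hC).comp (f := fun F : ℂ × ℂ => (sg F, ta F)) (by fun_prop)
  have h1 := QL_om chF (fun F0 => iso_C2 hC hs hcx hM hmono F0)
  have e : (fun A : M2 => h (sg (cab A)) (ta (cab A)))
      = fun A => h ((A 0 0 + A 1 1) / 2 + rad A) ((A 0 0 + A 1 1) / 2 - rad A) := by
    funext A
    have e1 : (cab A).1.re = (A 0 0 + A 1 1) / 2 := by simp [cab]
    unfold sg ta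
    rw [norm_cab2, e1]
  rw [e] at h1
  exact h1

/-- functions of the diagonal entries plus a quadratic form of the other entries -/
noncomputable def Wd (h : ℝ → ℝ → ℝ) (a b c : ℝ) (L : M2 →ₗ[ℝ] ℝ) (F : M2) : ℝ :=
  h (F 0 0) (F 1 1) + (a * F 0 1 ^ 2 + b * F 1 0 ^ 2 + c * (F 0 1 * F 1 0)) + L F

/-- the bounds for the mixed derivative -/
def Bd (h : ℝ → ℝ → ℝ) (a b c : ℝ) : Prop :=
  ∀ x y s t : ℝ, 0 ≤ a * s ^ 2 + b * t ^ 2 + (c + mix h x y) * (s * t)

theorem diag_norm {h : ℝ → ℝ → ℝ} (hC : ContDiff ℝ 2 (HH h))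
    (hcx : ∀ y, ConvexOn ℝ univ (fun x => h x y)) (hcy : ∀ x, ConvexOn ℝ univ (h x))
    (hmono : SepMono (mix h)) {κ c : ℝ} {L : M2 →ₗ[ℝ] ℝ} (hB : Bd h κ κ c) :
    Quasiconvex (Wd h κ κ c L) := by
  have hq : ∀ s t, -(2 * κ + c) ≤ mix h s t := fun s t => by
    have := hB s t 1 1
    linarith
  have hp : ∀ s t, mix h s t ≤ 2 * κ - c := fun s t => by
    have := hB s t 1 (-1)
    linarith
  have cx := cont_xx
  have cy := cont_yy
  have chF : Continuous (fun F : ℂ × ℂ => h (xx F) (yy F)) :=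
    (cont_h hC).comp (f := fun F : ℂ × ℂ => (xx F, yy F)) (by fun_prop)
  set w : ℂ × ℂ → ℝ := fun F => h (xx F) (yy F)
    + ((2 * κ - c) * F.1.im ^ 2 + (2 * κ + c) * F.2.im ^ 2) with hw
  have cw : Continuous w := chF.add (by fun_prop)
  have h2 : ∀ F0, QL w F0 := fun F0 => diag_C2 hC hcx hcy hq hp hmono F0
  set L' : ℂ × ℂ →L[ℝ] ℝ := LinearMap.toContinuousLinearMap (L ∘ₗ matL) with hL'
  have h3 : Continuous (fun F => w F + L' F) := cw.add L'.continuous
  have h4 := QL_om h3 (fun F0 => QL_add cw L'.continuous (h2 F0)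
    (QL_affine L' 0 (fun F => by simp) F0))
  have e : (fun A => w (cab A) + L' (cab A)) = Wd h κ κ c L := by
    ext A
    have e1 : L' (cab A) = L A := by
      have : L' (cab A) = L (matL (cab A)) := rfl
      rw [this, matL_cab]
    rw [e1]
    unfold Wd
    have e2 : xx (cab A) = A 0 0 := by simp [xx, cab]; ring
    have e3 : yy (cab A) = A 1 1 := by simp [yy, cab]; ring
    have e4 : (cab A).1.im = (A 1 0 - A 0 1) / 2 := by simp [cab]
    have e5 : (cab A).2.im = (A 1 0 + A 0 1) / 2 := by simp [cab]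
    simp only [hw, e2, e3, e4, e5]
    ring
  rw [e] at h4
  exact h4

theorem diag_pos {h : ℝ → ℝ → ℝ} (hC : ContDiff ℝ 2 (HH h))
    (hcx : ∀ y, ConvexOn ℝ univ (fun x => h x y)) (hcy : ∀ x, ConvexOn ℝ univ (h x))
    (hmono : SepMono (mix h)) {a b c : ℝ} (ha : 0 < a) (hb : 0 < b) {L : M2 →ₗ[ℝ] ℝ}
    (hB : Bd h a b c) : Quasiconvex (Wd h a b c L) := by
  obtain ⟨ν, hν, hν4⟩ : ∃ ν : ℝ, 0 < ν ∧ a * ν ^ 2 = b / ν ^ 2 := by
    refine ⟨Real.sqrt (Real.sqrt (b / a)), Real.sqrt_pos.2 (Real.sqrt_pos.2 (by positivity)), ?_⟩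
    have h1 : 0 < Real.sqrt (b / a) := Real.sqrt_pos.2 (by positivity)
    rw [Real.sq_sqrt h1.le, eq_div_iff h1.ne']
    have h2 : Real.sqrt (b / a) * Real.sqrt (b / a) = b / a := Real.mul_self_sqrt (by positivity)
    rw [mul_assoc, h2]
    field_simp
  set L' : M2 →ₗ[ℝ] ℝ :=
    L ∘ₗ (LinearMap.mulRight ℝ (dgm (1 / ν))) ∘ₗ (LinearMap.mulLeft ℝ (dgm ν)) with hL'
  have e : (fun F => Wd h a b c L (dgm ν * F * dgm (1 / ν)))
      = Wd h (a * ν ^ 2) (a * ν ^ 2) c L' := by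
    ext F
    have eL : L' F = L (dgm ν * F * dgm (1 / ν)) := rfl
    unfold Wd
    rw [eL, dgm_mul]
    have h1 : ν * F 0 0 * (1 / ν) = F 0 0 := by field_simp
    have h2 : b * (F 1 0 * (1 / ν)) ^ 2 = a * ν ^ 2 * F 1 0 ^ 2 := by
      rw [hν4]
      field_simp
    have h3 : ν * F 0 1 * (F 1 0 * (1 / ν)) = F 0 1 * F 1 0 := by field_simp
    simp only [Matrix.of_apply, Matrix.cons_val', Matrix.cons_val_zero, Matrix.cons_val_one,
      Matrix.cons_val_fin_one]
    rw [h1, h2, h3]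
    ring
  have hB' : Bd h (a * ν ^ 2) (a * ν ^ 2) c := by
    intro x y s t
    have h1 := hB x y (ν * s) (t / ν)
    have e1 : a * (ν * s) ^ 2 = a * ν ^ 2 * s ^ 2 := by ring
    have e2 : b * (t / ν) ^ 2 = a * ν ^ 2 * t ^ 2 := by
      rw [hν4]
      field_simp
    have e3 : ν * s * (t / ν) = s * t := by field_simp
    rw [e1, e2, e3] at h1
    exact h1
  have h2 := diag_norm hC hcx hcy hmono hB' (L := L')
  rw [← e] at h2
  have h3 := QC_mul (dgm (1 / ν)) (dgm ν) (by rw [dgm_det]; positivity)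
    (by rw [dgm_det]; exact hν.ne') h2
  have e2 : (fun F => Wd h a b c L (dgm ν * (dgm (1 / ν) * F * dgm ν) * dgm (1 / ν)))
      = Wd h a b c L := by
    ext F
    have : dgm ν * (dgm (1 / ν) * F * dgm ν) * dgm (1 / ν) = F := by
      rw [dgm_mul, dgm_mul]
      ext i j
      fin_cases i <;> fin_cases j <;> simp <;> field_simp
    rw [this]
  rw [e2] at h3
  exact h3

theorem diag_M {h : ℝ → ℝ → ℝ} (hC : ContDiff ℝ 2 (HH h))
    (hcx : ∀ y, ConvexOn ℝ univ (fun x => h x y)) (hcy : ∀ x, ConvexOn ℝ univ (h x))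
    (hmono : SepMono (mix h)) {a b c : ℝ} {L : M2 →ₗ[ℝ] ℝ}
    (hB : Bd h a b c) : Quasiconvex (Wd h a b c L) := by
  have ha : 0 ≤ a := by
    have := hB 0 0 1 0
    linarith
  have hb : 0 ≤ b := by
    have := hB 0 0 0 1
    linarith
  have cW : Continuous (Wd h a b c L) := by
    have h1 : Continuous (fun F : M2 => h (F 0 0) (F 1 1)) :=
      (cont_h hC).comp (f := fun F : M2 => (F 0 0, F 1 1)) (by fun_prop)
    have h2 : Continuous (L : M2 → ℝ) := L.continuous_of_finiteDimensional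
    exact (h1.add (by fun_prop)).add h2
  refine QC_lim (q := fun F => F 0 1 ^ 2 + F 1 0 ^ 2) cW (by fun_prop) fun ε hε => ?_
  have e : (fun F => Wd h a b c L F + ε * (F 0 1 ^ 2 + F 1 0 ^ 2))
      = Wd h (a + ε) (b + ε) c L := by
    ext F
    unfold Wd
    ring
  rw [e]
  apply diag_pos hC hcx hcy hmono (by linarith) (by linarith)
  intro x y s t
  have h1 := hB x y s t
  have h2 : 0 ≤ ε * (s ^ 2 + t ^ 2) := by positivity
  linarith

/-! ### An example -/

/-- `(x + √(1 + x²)) / 2` -/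
noncomputable def gg (x : ℝ) : ℝ := (x + Real.sqrt (1 + x ^ 2)) / 2

theorem sqrt_pos' (x : ℝ) : 0 < Real.sqrt (1 + x ^ 2) := Real.sqrt_pos.2 (by positivity)

theorem abs_lt_sqrt (x : ℝ) : |x| < Real.sqrt (1 + x ^ 2) := by
  apply Real.lt_sqrt_of_sq_lt
  rw [sq_abs]
  linarith

theorem gg_pos (x : ℝ) : 0 < gg x := by
  have := abs_lt_sqrt x
  have := neg_abs_le x
  unfold gg
  linarith

/-- its derivative -/
noncomputable def gd (x : ℝ) : ℝ := (1 + x / Real.sqrt (1 + x ^ 2)) / 2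

theorem gg_hasDeriv (x : ℝ) : HasDerivAt gg (gd x) x := by
  have h1 : HasDerivAt (fun x : ℝ => 1 + x ^ 2) (2 * x) x := by
    have := (hasDerivAt_pow 2 x).const_add 1
    simpa using this
  have h2 := h1.sqrt (by positivity)
  have h3 := ((hasDerivAt_id x).add h2).div_const 2
  refine h3.congr_deriv ?_
  unfold gd
  have := (sqrt_pos' x).ne'
  field_simp

theorem gd_pos (x : ℝ) : 0 < gd x := by
  have h1 := abs_lt_sqrt x
  have h2 := sqrt_pos' x
  have h3 : -1 < x / Real.sqrt (1 + x ^ 2) := by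
    rw [lt_div_iff₀ h2]
    have := neg_abs_le x
    linarith
  unfold gd
  linarith

theorem gd_lt (x : ℝ) : gd x < 1 := by
  have h1 := abs_lt_sqrt x
  have h2 := sqrt_pos' x
  have h3 : x / Real.sqrt (1 + x ^ 2) < 1 := by
    rw [div_lt_iff₀ h2]
    have := le_abs_self x
    linarith
  unfold gd
  linarith

theorem gd_mono : Monotone gd := by
  apply monotone_of_deriv_nonneg
  · intro x
    have h1 : HasDerivAt (fun x : ℝ => 1 + x ^ 2) (2 * x) x := by
      have := (hasDerivAt_pow 2 x).const_add 1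
      simpa using this
    have h2 := h1.sqrt (by positivity)
    have h3 := (((hasDerivAt_id x).div h2 (sqrt_pos' x).ne').const_add 1).div_const 2
    exact h3.differentiableAt
  · intro x
    have h1 : HasDerivAt (fun x : ℝ => 1 + x ^ 2) (2 * x) x := by
      have := (hasDerivAt_pow 2 x).const_add 1
      simpa using this
    have h2 := h1.sqrt (by positivity)
    have h3 := (((hasDerivAt_id x).div h2 (sqrt_pos' x).ne').const_add 1).div_const 2
    have h4 : deriv gd x = _ := h3.deriv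
    rw [h4]
    have h5 := sqrt_pos' x
    have h6 : Real.sqrt (1 + x ^ 2) ^ 2 = 1 + x ^ 2 := Real.sq_sqrt (by positivity)
    have h7 : id x * (2 * x / (2 * Real.sqrt (1 + x ^ 2))) = x ^ 2 / Real.sqrt (1 + x ^ 2) := by
      simp only [id]
      field_simp
    rw [h7, one_mul]
    apply div_nonneg _ (by norm_num)
    apply div_nonneg _ (by positivity)
    rw [sub_nonneg, div_le_iff₀ h5]
    nlinarith

theorem gg_conv : ConvexOn ℝ univ gg := by
  apply Monotone.convexOn_univ_of_deriv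
  · exact fun x => (gg_hasDeriv x).differentiableAt
  · have e : deriv gg = gd := funext fun x => (gg_hasDeriv x).deriv
    rw [e]
    exact gd_mono

theorem gg_smooth : ContDiff ℝ 2 gg := by
  unfold gg
  have h1 : ContDiff ℝ 2 (fun x : ℝ => Real.sqrt (1 + x ^ 2)) :=
    ContDiff.sqrt (by fun_prop) (fun x => by positivity)
  fun_prop

/-- the example -/
noncomputable def psi (x y : ℝ) : ℝ := gg x * gg y - x * y

theorem psi_smooth : ContDiff ℝ 2 (HH psi) := by
  have h1 : ContDiff ℝ 2 (fun z : ℝ × ℝ => gg z.1) := gg_smooth.comp contDiff_fst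
  have h2 : ContDiff ℝ 2 (fun z : ℝ × ℝ => gg z.2) := gg_smooth.comp contDiff_snd
  have h3 : ContDiff ℝ 2 (fun z : ℝ × ℝ => gg z.1 * gg z.2 - z.1 * z.2) :=
    (h1.mul h2).sub (contDiff_fst.mul contDiff_snd)
  exact h3

theorem psi_mix (x y : ℝ) : mix psi x y = gd x * gd y - 1 := by
  unfold mix
  have e : (fun s => deriv (fun t => psi s t) y) = fun s => gg s * gd y - s := by
    ext s
    have h1 : HasDerivAt (fun t => psi s t) (gg s * gd y - s * 1) y :=
      ((gg_hasDeriv y).const_mul (gg s)).sub ((hasDerivAt_id y).const_mul s)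
    rw [h1.deriv, mul_one]
  rw [e]
  exact (((gg_hasDeriv x).mul_const (gd y)).sub (hasDerivAt_id x)).deriv

theorem psi_conv (y : ℝ) : ConvexOn ℝ univ (fun x => psi x y) := by
  have h1 := gg_conv.smul (gg_pos y).le
  have h2 : ConvexOn ℝ univ (fun x : ℝ => (-y) * x) := by
    have := (LinearMap.mulLeft ℝ (-y)).convexOn (convex_univ (𝕜 := ℝ) (E := ℝ))
    exact this
  refine (h1.add h2).congr fun x _ => ?_
  simp only [Pi.add_apply, psi, smul_eq_mul]
  ring

theorem psi_num : 8 / 9 * (psi 4 1) + 1 / 9 * psi (-2) (-2) < psi 2 2 := by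
  unfold psi gg
  have e1 : (1 : ℝ) + 4 ^ 2 = 17 := by norm_num
  have e2 : (1 : ℝ) + 1 ^ 2 = 2 := by norm_num
  have e3 : (1 : ℝ) + (-2) ^ 2 = 5 := by norm_num
  have e4 : (1 : ℝ) + 2 ^ 2 = 5 := by norm_num
  rw [e1, e2, e3, e4]
  have s17 : Real.sqrt 17 < 4.1232 := by
    rw [Real.sqrt_lt' (by norm_num)]
    norm_num
  have s2 : Real.sqrt 2 < 1.41422 := by
    rw [Real.sqrt_lt' (by norm_num)]
    norm_num
  have s5 : Real.sqrt 5 < 2.2361 := by
    rw [Real.sqrt_lt' (by norm_num)]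
    norm_num
  have s5' : 2.236 < Real.sqrt 5 := by
    rw [Real.lt_sqrt (by norm_num)]
    norm_num
  have p1 : (4 + Real.sqrt 17) / 2 * ((1 + Real.sqrt 2) / 2)
      ≤ (4 + 4.1232) / 2 * ((1 + 1.41422) / 2) := by
    apply mul_le_mul
    · linarith
    · linarith
    · positivity
    · norm_num
  have p2 : (-2 + Real.sqrt 5) / 2 * ((-2 + Real.sqrt 5) / 2)
      ≤ (-2 + 2.2361) / 2 * ((-2 + 2.2361) / 2) := by
    apply mul_le_mul
    · linarith
    · linarith
    · linarith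
    · norm_num
  have p3 : (2 + 2.236) / 2 * ((2 + 2.236) / 2)
      ≤ (2 + Real.sqrt 5) / 2 * ((2 + Real.sqrt 5) / 2) := by
    apply mul_le_mul
    · linarith
    · linarith
    · norm_num
    · positivity
  norm_num at p1 p2 p3 ⊢
  linarith

theorem rad_diag (x y : ℝ) : rad !![x, 0; 0, y] = |(x - y) / 2| := by
  unfold rad
  rw [← Real.sqrt_sq_eq_abs]
  congr 1
  simp

/-- the example is not polyconvex -/
theorem psi_not_poly : ¬ ∃ P : M2 × ℝ → EReal, (∀ z, P z ≠ ⊥) ∧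
    (∀ z w : M2 × ℝ, ∀ a b : ℝ, 0 ≤ a → 0 ≤ b → a + b = 1 →
      P (a • z + b • w) ≤ (a : EReal) * P z + (b : EReal) * P w) ∧
    ∀ F : M2, P (F, F.det) = ((psi ((F 0 0 + F 1 1) / 2 + rad F)
      ((F 0 0 + F 1 1) / 2 - rad F) : ℝ) : EReal) := by
  rintro ⟨P, hbot, hconv, hP⟩
  have v1 := hP !![4, 0; 0, 1]
  have v2 := hP !![1, 0; 0, 4]
  have v3 := hP !![-2, 0; 0, -2]
  have v4 := hP !![2, 0; 0, 2]
  have d1 : (!![4, 0; 0, 1] : M2).det = 4 := by rw [det_fin_two_of]; norm_num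
  have d2 : (!![1, 0; 0, 4] : M2).det = 4 := by rw [det_fin_two_of]; norm_num
  have d3 : (!![-2, 0; 0, -2] : M2).det = 4 := by rw [det_fin_two_of]; norm_num
  have d4 : (!![2, 0; 0, 2] : M2).det = 4 := by rw [det_fin_two_of]; norm_num
  rw [d1, rad_diag] at v1
  rw [d2, rad_diag] at v2
  rw [d3, rad_diag] at v3
  rw [d4, rad_diag] at v4
  simp only [Matrix.of_apply, Matrix.cons_val', Matrix.cons_val_zero, Matrix.cons_val_one,
      Matrix.cons_val_fin_one] at v1 v2 v3 v4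
  rw [show ((4 : ℝ) + 1) / 2 + |((4 : ℝ) - 1) / 2| = 4 by
    rw [abs_of_pos (by norm_num)]; norm_num,
    show ((4 : ℝ) + 1) / 2 - |((4 : ℝ) - 1) / 2| = 1 by
    rw [abs_of_pos (by norm_num)]; norm_num] at v1
  rw [show ((1 : ℝ) + 4) / 2 + |((1 : ℝ) - 4) / 2| = 4 by
    rw [abs_of_neg (by norm_num)]; norm_num,
    show ((1 : ℝ) + 4) / 2 - |((1 : ℝ) - 4) / 2| = 1 by
    rw [abs_of_neg (by norm_num)]; norm_num] at v2
  rw [show ((-2 : ℝ) + -2) / 2 + |((-2 : ℝ) - -2) / 2| = -2 by norm_num,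
    show ((-2 : ℝ) + -2) / 2 - |((-2 : ℝ) - -2) / 2| = -2 by norm_num] at v3
  rw [show ((2 : ℝ) + 2) / 2 + |((2 : ℝ) - 2) / 2| = 2 by norm_num,
    show ((2 : ℝ) + 2) / 2 - |((2 : ℝ) - 2) / 2| = 2 by norm_num] at v4
  have c1 := hconv (!![4, 0; 0, 1], 4) (!![1, 0; 0, 4], 4) (1 / 2) (1 / 2) (by norm_num)
    (by norm_num) (by norm_num)
  have e1 : (1 / 2 : ℝ) • ((!![4, 0; 0, 1], 4) : M2 × ℝ)
      + (1 / 2 : ℝ) • ((!![1, 0; 0, 4], 4) : M2 × ℝ) = (!![5 / 2, 0; 0, 5 / 2], 4) := by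
    ext i j
    · fin_cases i <;> fin_cases j <;> simp <;> norm_num
    · simp; norm_num
  rw [e1, v1, v2] at c1
  have c2 := hconv (!![5 / 2, 0; 0, 5 / 2], 4) (!![-2, 0; 0, -2], 4) (8 / 9) (1 / 9)
    (by norm_num) (by norm_num) (by norm_num)
  have e2 : (8 / 9 : ℝ) • ((!![5 / 2, 0; 0, 5 / 2], 4) : M2 × ℝ)
      + (1 / 9 : ℝ) • ((!![-2, 0; 0, -2], 4) : M2 × ℝ) = (!![2, 0; 0, 2], 4) := by
    ext i j
    · fin_cases i <;> fin_cases j <;> simp <;> norm_num
    · simp; norm_num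
  rw [e2, v3, v4] at c2
  have h5 := hbot (!![5 / 2, 0; 0, 5 / 2], 4)
  obtain ⟨p, hp⟩ : ∃ p : ℝ, P (!![5 / 2, 0; 0, 5 / 2], 4) = (p : EReal) := by
    induction h : P (!![5 / 2, 0; 0, 5 / 2], 4) with
    | bot => exact absurd h h5
    | coe p => exact ⟨p, rfl⟩
    | top =>
      exfalso
      rw [h, ← EReal.coe_mul, ← EReal.coe_add] at c1
      exact absurd (top_le_iff.1 c1) (EReal.coe_ne_top _)
  rw [hp] at c1 c2
  rw [← EReal.coe_mul, ← EReal.coe_add, EReal.coe_le_coe_iff] at c1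
  rw [← EReal.coe_mul, ← EReal.coe_mul, ← EReal.coe_add, EReal.coe_le_coe_iff] at c2
  have := psi_num
  linarith

end Pool.Agent.Run7.h167.MC
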