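import Pool.Agent.Run7.h167.MC.Cls
import Pool.Agent.Run7.h167.MC.Box

/-!
# Functions of the two diagonal entries with a monotone mixed derivative
-/

set_option autoImplicit false

namespace Pool.Agent.Run7.h167.MC

open MeasureTheory Set Filter Topology Metric
open Pool.Agent.TH937.ZC Pool.Agent.Y332.MD

theorem exists_n {M ε S : ℝ} (hM : 0 ≤ M) (hε : 0 < ε) : ∃ (n : ℕ) (δ : ℝ), 0 ≤ δ ∧
    (n : ℝ) * δ = M ∧ 8 * S ^ 2 * δ ≤ ε := by
  obtain ⟨n, hn⟩ := exists_nat_gt (8 * S ^ 2 * M / ε)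
  have h0 : 0 ≤ 8 * S ^ 2 * M / ε := by positivity
  have hn0 : 0 < (n : ℝ) := lt_of_le_of_lt h0 hn
  refine ⟨n, M / n, by positivity, by field_simp, ?_⟩
  rw [div_lt_iff₀ hε] at hn
  rw [← mul_div_assoc, div_le_iff₀ hn0]
  linarith

theorem chi01 (R c : ℝ) (u : ℝ → ℝ) (s : ℝ) : chi R c u s = 0 ∨ chi R c u s = 1 := by
  unfold chi
  split_ifs
  · exact Or.inr rfl
  · exact Or.inl rfl

/-- products of distribution functions of the diagonal entries -/
theorem QL_AA {R c : ℝ} {u v : ℝ → ℝ} (hu : Monotone u) (hv : Monotone v) (F0 : ℂ × ℂ) :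
    QL (fun F => AA R c u (xx F) * AA R c v (yy F) + F.1.im ^ 2) F0 := by
  have h1 := chi_nonneg R c u (xx F0)
  have h2 := chi_nonneg R c v (yy F0)
  have h3 := chi_le_one R c u (xx F0)
  have h4 := chi_le_one R c v (yy F0)
  have h := QL_prod (AA_cont (R := R) (c := c) hu) (AA_cont (R := R) (c := c) hv) (AA_nonneg hu)
    (AA_nonneg hv) (p := 1) (q := 0) F0 (AA_support hu (xx F0)) (AA_support hv (yy F0))
    zero_le_one le_rfl (by nlinarith) (by nlinarith)
  convert h using 2 with F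
  ring

theorem xx_le (F : ℂ × ℂ) : |xx F| ≤ ‖F.1‖ + ‖F.2‖ := by
  unfold xx
  exact (abs_add_le _ _).trans (add_le_add (Complex.abs_re_le_norm _) (Complex.abs_re_le_norm _))

theorem yy_le (F : ℂ × ℂ) : |yy F| ≤ ‖F.1‖ + ‖F.2‖ := by
  unfold yy
  exact (abs_sub _ _).trans (add_le_add (Complex.abs_re_le_norm _) (Complex.abs_re_le_norm _))

theorem QL_monoD {h G m : ℝ → ℝ → ℝ} (D : Data h G m)
    (hc : Continuous (fun z : ℝ × ℝ => h z.1 z.2))
    (hcx : ∀ y, ConvexOn ℝ univ (fun x => h x y)) (hcy : ∀ x, ConvexOn ℝ univ (h x)) {M : ℝ}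
    (h0 : ∀ s t, 0 ≤ m s t) (hM : ∀ s t, m s t ≤ M) (F0 : ℂ × ℂ) :
    QL (fun F => h (xx F) (yy F) + M * F.1.im ^ 2) F0 := by
  have cx := cont_xx
  have cy := cont_yy
  have chF : Continuous (fun F : ℂ × ℂ => h (xx F) (yy F)) :=
    hc.comp (f := fun F : ℂ × ℂ => (xx F, yy F)) (by fun_prop)
  have M0 : 0 ≤ M := (h0 0 0).trans (hM 0 0)
  apply QL_support (by fun_prop)
  intro R ε hR hε
  set S : ℝ := R + (‖F0.1‖ + ‖F0.2‖) with hS
  have n1 := norm_nonneg F0.1
  have n2 := norm_nonneg F0.2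
  obtain ⟨n, δ, hδ, hnδ, hε'⟩ := exists_n (S := S) M0 hε
  set x0 := xx F0 with hx0
  set y0 := yy F0 with hy0
  have bx0 : x0 ∈ Icc (-S) S := abs_le.1 ((xx_le F0).trans (by linarith))
  have by0 : y0 ∈ Icc (-S) S := abs_le.1 ((yy_le F0).trans (by linarith))
  set u : ℝ → ℝ := fun s => m s y0 with hu
  set v : ℝ → ℝ := m x0 with hv
  have mu : Monotone u := D.m1 y0
  have mv : Monotone v := D.m2 x0
  set c0 : ℝ := EE h S δ n u v x0 y0 - h (-S) (-S) with hc0
  set k : ℂ × ℂ → ℝ := fun F => (∑ i ∈ Finset.range n,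
    δ * (AA S (((i : ℝ) + 1) * δ) u (xx F) * AA S (((i : ℝ) + 1) * δ) v (yy F) + F.1.im ^ 2))
    + (h (xx F) (-S) + (h (-S) (yy F) + c0)) with hk
  have keq : ∀ F, k F = SS S δ n u v (xx F) (yy F) + M * F.1.im ^ 2
      + (h (xx F) (-S) + (h (-S) (yy F) + c0)) := by
    intro F
    simp only [hk, SS, mul_add, Finset.sum_add_distrib]
    rw [Finset.sum_const, Finset.card_range, nsmul_eq_mul, ← mul_assoc, hnδ]
  have cAu : ∀ c, Continuous (AA S c u) := fun c => AA_cont mu
  have cAv : ∀ c, Continuous (AA S c v) := fun c => AA_cont mv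
  have c1 : ∀ i : ℕ, Continuous (fun F : ℂ × ℂ => δ * (AA S (((i : ℝ) + 1) * δ) u (xx F)
      * AA S (((i : ℝ) + 1) * δ) v (yy F) + F.1.im ^ 2)) := by
    intro i
    have := cAu (((i : ℝ) + 1) * δ)
    have := cAv (((i : ℝ) + 1) * δ)
    fun_prop
  have c2 : Continuous (fun F : ℂ × ℂ => ∑ i ∈ Finset.range n, δ * (AA S (((i : ℝ) + 1) * δ) u
      (xx F) * AA S (((i : ℝ) + 1) * δ) v (yy F) + F.1.im ^ 2)) :=
    continuous_finsetSum _ fun i _ => c1 i
  have c3 : Continuous (fun x => h x (-S)) := hc.comp (f := fun x : ℝ => (x, -S)) (by fun_prop)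
  have c4 : Continuous (fun y => h (-S) y) := hc.comp (f := fun y : ℝ => (-S, y)) (by fun_prop)
  have c5 : Continuous (fun F : ℂ × ℂ => h (xx F) (-S)) := c3.comp cx
  have c6 : Continuous (fun F : ℂ × ℂ => h (-S) (yy F)) := c4.comp cy
  refine ⟨k, ?_, ?_, fun F hF => ?_, ?_⟩
  · exact c2.add (c5.add (c6.add continuous_const))
  · have q1 : QL (fun F => ∑ i ∈ Finset.range n, δ * (AA S (((i : ℝ) + 1) * δ) u
        (xx F) * AA S (((i : ℝ) + 1) * δ) v (yy F) + F.1.im ^ 2)) F0 :=
      QL_sum (Finset.range n) c1 (fun i _ => QL_smul hδ (QL_AA mu mv F0))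
    have q2 : QL (fun F : ℂ × ℂ => h (xx F) (-S)) F0 := by
      refine QL_conv c5 ?_ F0
      have h2 := (hcx (-S)).comp_linearMap xL.toLinearMap
      rw [preimage_univ] at h2
      refine h2.congr fun F _ => ?_
      simp only [Function.comp]
      rw [show xL.toLinearMap F = xL F from rfl, xL_apply]
    have q3 : QL (fun F : ℂ × ℂ => h (-S) (yy F)) F0 := by
      refine QL_conv c6 ?_ F0
      have h2 := (hcy (-S)).comp_linearMap yL.toLinearMap
      rw [preimage_univ] at h2
      refine h2.congr fun F _ => ?_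
      simp only [Function.comp]
      rw [show yL.toLinearMap F = yL F from rfl, yL_apply]
    exact QL_add c2 (c5.add (c6.add continuous_const)) q1
      (QL_add c5 (c6.add continuous_const) q2 (QL_add c6 continuous_const q3 (QL_const c0 F0)))
  · have bx : xx F ∈ Icc (-S) S := abs_le.1 ((xx_le F).trans (by linarith))
    have by' : yy F ∈ Icc (-S) S := abs_le.1 ((yy_le F).trans (by linarith))
    have hb := box D hδ bx0 by0 (fun s _ t _ => h0 s t)
      (fun s _ t _ => (hM s t).trans (le_of_eq hnδ.symm)) bx by'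
    rw [keq]
    unfold EE at hb
    simp only [hc0]
    unfold EE
    linarith
  · rw [keq]
    simp only [hc0]
    unfold EE
    linarith

/-- general bounds, mixed derivative nondecreasing in both variables -/
theorem QL_monoD' {h G m : ℝ → ℝ → ℝ} (D : Data h G m)
    (hc : Continuous (fun z : ℝ × ℝ => h z.1 z.2))
    (hcx : ∀ y, ConvexOn ℝ univ (fun x => h x y)) (hcy : ∀ x, ConvexOn ℝ univ (h x)) {p q : ℝ}
    (hq : ∀ s t, -q ≤ m s t) (hp : ∀ s t, m s t ≤ p) (F0 : ℂ × ℂ) :
    QL (fun F => h (xx F) (yy F) + (p * F.1.im ^ 2 + q * F.2.im ^ 2)) F0 := by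
  have cx := cont_xx
  have cy := cont_yy
  have chF : Continuous (fun F : ℂ × ℂ => h (xx F) (yy F)) :=
    hc.comp (f := fun F : ℂ × ℂ => (xx F, yy F)) (by fun_prop)
  have lin : ∀ r : ℝ, ConvexOn ℝ univ (fun x : ℝ => r * x) := fun r => by
    have := (LinearMap.mulLeft ℝ r).convexOn (convex_univ (𝕜 := ℝ) (E := ℝ))
    exact this
  have D' : Data (fun x y => h x y + q * (x * y)) (fun x t => G x t + q * x)
      (fun s t => m s t + q) := by
    refine ⟨fun x t => ?_, fun x => ?_, fun s t => ?_, fun t => ?_, fun s => ?_⟩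
    · have h1 := (D.dG x t).add (((hasDerivAt_id t).const_mul x).const_mul q)
      simp only [mul_one] at h1
      exact h1
    · have := D.cG x
      fun_prop
    · have h1 := (D.dm s t).add ((hasDerivAt_id s).const_mul q)
      simp only [mul_one] at h1
      exact h1
    · exact (D.m1 t).add_const q
    · exact (D.m2 s).add_const q
  have h1 := QL_monoD D' (by fun_prop)
    (fun y => by
      have := (hcx y).add (lin (q * y))
      refine this.congr fun x _ => ?_
      simp only [Pi.add_apply]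
      ring)
    (fun x => by
      have := (hcy x).add (lin (q * x))
      refine this.congr fun y _ => ?_
      simp only [Pi.add_apply]
      ring)
    (M := p + q) (fun s t => by have := hq s t; linarith) (fun s t => by have := hp s t; linarith) F0
  have h2 := QL_add (by fun_prop) (by fun_prop) h1 (QL_det (-q) F0)
  convert h2 using 2 with F
  rw [eq_det]
  ring

end Pool.Agent.Run7.h167.MC
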