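import Pool.Agent.Run7.h167.MC.MonoD

/-!
# Functions of the eigenvalues of the symmetric part with a monotone mixed derivative
-/

set_option autoImplicit false

namespace Pool.Agent.Run7.h167.MC

open MeasureTheory Set Filter Topology Metric
open Pool.Agent.TH937.ZC Pool.Agent.Y332.MD

/-- the larger eigenvalue of the symmetric part -/
noncomputable def sg (F : ℂ × ℂ) : ℝ := F.1.re + ‖F.2‖

/-- the smaller eigenvalue of the symmetric part -/
noncomputable def ta (F : ℂ × ℂ) : ℝ := F.1.re - ‖F.2‖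

theorem cont_sg : Continuous sg := by unfold sg; fun_prop

theorem cont_ta : Continuous ta := by unfold ta; fun_prop

theorem ta_le_sg (F : ℂ × ℂ) : ta F ≤ sg F := by
  have := norm_nonneg F.2
  unfold ta sg
  linarith

theorem sg_le (F : ℂ × ℂ) : |sg F| ≤ ‖F.1‖ + ‖F.2‖ := by
  unfold sg
  refine (abs_add_le _ _).trans (add_le_add (Complex.abs_re_le_norm _) ?_)
  rw [abs_norm]

theorem ta_le (F : ℂ × ℂ) : |ta F| ≤ ‖F.1‖ + ‖F.2‖ := by
  unfold ta
  refine (abs_sub _ _).trans (add_le_add (Complex.abs_re_le_norm _) ?_)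
  rw [abs_norm]

theorem det_st (F : ℂ × ℂ) : sg F * ta F = (‖F.1‖ ^ 2 - ‖F.2‖ ^ 2) - F.1.im ^ 2 := by
  rw [← Complex.normSq_eq_norm_sq, Complex.normSq_apply]
  unfold sg ta
  ring

theorem exists_dir (F0 : ℂ × ℂ) : ∃ b : ℂ, ‖b‖ = 1 ∧ F0.2 = (‖F0.2‖ : ℂ) * b := by
  by_cases h : F0.2 = 0
  · exact ⟨1, norm_one, by rw [h]; simp⟩
  · have h1 : (‖F0.2‖ : ℂ) ≠ 0 := by simpa using h
    refine ⟨F0.2 / ‖F0.2‖, ?_, ?_⟩
    · rw [norm_div, Complex.norm_real, norm_norm]
      exact div_self (by simpa using h)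
    · field_simp

/-- isotropic corners -/
theorem QL_isoC {a b : ℝ} (hab : b ≤ a) (F0 : ℂ × ℂ) :
    QL (fun F => max (sg F - a) 0 * max (ta F - b) 0 + F.1.im ^ 2) F0 := by
  have cs := cont_sg
  have ct := cont_ta
  obtain ⟨w, hw, hw2⟩ := exists_dir F0
  set m : ℝ := (a - b) / 2 with hm
  have hm0 : 0 ≤ m := by rw [hm]; linarith
  set A : ℂ × ℂ := ((((a + b) / 2 : ℝ) : ℂ), (m : ℂ) * w) with hA
  have h1 := QL_shift (w := V0) (F0 := F0) (F1 := F0 - A) (QL_V0 _)
  have e : ∀ F : ℂ × ℂ, F + ((F0 - A) - F0) = F - A := by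
    intro F
    abel
  simp only [e] at h1
  have hz : ∀ F : ℂ × ℂ, V0 (F - A) = F.1.im ^ 2 +
      max (max (F.1.re - (a + b) / 2) 0 ^ 2 - ‖F.2 - (m : ℂ) * w‖ ^ 2) 0 := by
    intro F
    unfold V0
    simp [hA]
  have hC : ∀ F : ℂ × ℂ, max (sg F - a) 0 * max (ta F - b) 0 + F.1.im ^ 2 = F.1.im ^ 2 +
      max (max (F.1.re - (a + b) / 2) 0 ^ 2 - (‖F.2‖ - m) ^ 2) 0 := by
    intro F
    rw [key_prod, show (sg F - a + (ta F - b)) / 2 = F.1.re - (a + b) / 2 by
      unfold sg ta; ring, show (sg F - a - (ta F - b)) / 2 = ‖F.2‖ - m by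
      unfold sg ta; rw [hm]; ring]
    ring
  refine QL_ge (by fun_prop) (cont_V0.comp (by fun_prop)) h1 (fun F => ?_) ?_
  · simp only [Function.comp]
    rw [hz, hC]
    have h2 : (‖F.2‖ - m) ^ 2 ≤ ‖F.2 - (m : ℂ) * w‖ ^ 2 := by
      have h3 := abs_norm_sub_norm_le F.2 ((m : ℂ) * w)
      rw [norm_mul, hw, mul_one, Complex.norm_real, Real.norm_of_nonneg hm0] at h3
      rw [← sq_abs]
      exact pow_le_pow_left₀ (abs_nonneg _) h3 2
    have := max_le_max (show max (F.1.re - (a + b) / 2) 0 ^ 2 - ‖F.2 - (m : ℂ) * w‖ ^ 2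
        ≤ max (F.1.re - (a + b) / 2) 0 ^ 2 - (‖F.2‖ - m) ^ 2 by linarith) (le_refl (0 : ℝ))
    linarith
  · simp only [Function.comp]
    rw [hz, hC]
    have h2 : ‖F0.2 - (m : ℂ) * w‖ ^ 2 = (‖F0.2‖ - m) ^ 2 := by
      have h1 : F0.2 - (m : ℂ) * w = ((‖F0.2‖ - m : ℝ) : ℂ) * w := by
        conv_lhs => rw [hw2]
        push_cast
        ring
      rw [h1, norm_mul, hw, mul_one, Complex.norm_real, Real.norm_eq_abs, sq_abs]
    rw [h2]

/-- products of distribution functions of the eigenvalues -/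
theorem QL_AAI {R c : ℝ} {u v : ℝ → ℝ} (hu : Monotone u) (hv : Monotone v)
    (huv : ∀ s, u s ≤ v s) (F0 : ℂ × ℂ) (hR : -R ≤ ta F0) :
    QL (fun F => AA R c u (sg F) * AA R c v (ta F) + F.1.im ^ 2) F0 := by
  have cs := cont_sg
  have ct := cont_ta
  have cAu : Continuous (AA R c u) := AA_cont hu
  have cAv : Continuous (AA R c v) := AA_cont hv
  have cw : Continuous (fun F : ℂ × ℂ => AA R c u (sg F) * AA R c v (ta F) + F.1.im ^ 2) := by
    fun_prop
  have quad : QL (fun F : ℂ × ℂ => F.1.im ^ 2) F0 := by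
    have := QL_quad zero_le_one le_rfl F0
    convert this using 2 with F
    ring
  have zero : AA R c u (sg F0) * AA R c v (ta F0) = 0 →
      QL (fun F => AA R c u (sg F) * AA R c v (ta F) + F.1.im ^ 2) F0 := by
    intro h
    refine QL_ge cw (by fun_prop) quad (fun F => ?_) ?_
    · have := mul_nonneg (AA_nonneg (R := R) (c := c) hu (sg F))
        (AA_nonneg (R := R) (c := c) hv (ta F))
      linarith
    · rw [h]
      linarith
  rcases chi01 R c u (sg F0) with h1 | h1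
  · exact zero (by rw [AA_eq_zero hu h1, zero_mul])
  rcases chi01 R c v (ta F0) with h2 | h2
  · exact zero (by rw [AA_eq_zero hv h2, mul_zero])
  set a : ℝ := sg F0 - AA R c u (sg F0) with ha
  set b : ℝ := ta F0 - AA R c v (ta F0) with hb
  have hba : b ≤ a := by
    have h3 := AA_le (R := R) (c := c) hu (ta_le_sg F0)
    have h4 := AA_comp (R := R) (c := c) hu hv huv hR
    linarith
  refine QL_ge cw (by fun_prop) (QL_isoC hba F0) (fun F => ?_) ?_
  · have h3 : max (sg F - a) 0 ≤ AA R c u (sg F) := by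
      apply max_le _ (AA_nonneg hu _)
      have := AA_support (R := R) (c := c) hu (sg F0) (sg F)
      rw [h1] at this
      linarith
    have h4 : max (ta F - b) 0 ≤ AA R c v (ta F) := by
      apply max_le _ (AA_nonneg hv _)
      have := AA_support (R := R) (c := c) hv (ta F0) (ta F)
      rw [h2] at this
      linarith
    have := mul_le_mul h3 h4 (le_max_right _ _) (AA_nonneg hu _)
    linarith
  · have h3 : AA R c u (sg F0) = max (sg F0 - a) 0 := by
      rw [ha, sub_sub_cancel, max_eq_left (AA_nonneg hu _)]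
    have h4 : AA R c v (ta F0) = max (ta F0 - b) 0 := by
      rw [hb, sub_sub_cancel, max_eq_left (AA_nonneg hv _)]
    rw [h3, h4]

/-- nondecreasing subgradients -/
theorem exists_two {f : ℝ → ℝ} (hf : ConvexOn ℝ univ f) {x y : ℝ} (hyx : y ≤ x) :
    ∃ b1 b2 : ℝ, b2 ≤ b1 ∧ (∀ z, f x + b1 * (z - x) ≤ f z) ∧ (∀ z, f y + b2 * (z - y) ≤ f z) := by
  obtain ⟨b1, h1⟩ := exists_sub hf x
  rcases hyx.eq_or_lt with h | h
  · exact ⟨b1, b1, le_rfl, h1, by rw [h]; exact h1⟩
  · obtain ⟨b2, h2⟩ := exists_sub hf y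
    refine ⟨b1, b2, ?_, h1, h2⟩
    have h3 := h1 y
    have h4 := h2 x
    have h5 : 0 ≤ (b1 - b2) * (x - y) := by nlinarith
    by_contra h6
    push Not at h6
    nlinarith

theorem QL_monoI {h G m : ℝ → ℝ → ℝ} (D : Data h G m)
    (hc : Continuous (fun z : ℝ × ℝ => h z.1 z.2)) (hsym : ∀ x y, h x y = h y x)
    (msym : ∀ x y, m x y = m y x)
    (hcx : ∀ y, ConvexOn ℝ univ (fun x => h x y)) {κ : ℝ}
    (hM : ∀ s t, m s t ≤ κ) (F0 : ℂ × ℂ) :
    QL (fun F => h (sg F) (ta F) + κ * F.1.im ^ 2) F0 := by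
  have cs := cont_sg
  have ct := cont_ta
  have chF : Continuous (fun F : ℂ × ℂ => h (sg F) (ta F)) :=
    hc.comp (f := fun F : ℂ × ℂ => (sg F, ta F)) (by fun_prop)
  have lin : ∀ r : ℝ, ConvexOn ℝ univ (fun x : ℝ => r * x) := fun r => by
    have := (LinearMap.mulLeft ℝ r).convexOn (convex_univ (𝕜 := ℝ) (E := ℝ))
    exact this
  apply QL_support (by fun_prop)
  intro R ε hR hε
  set S : ℝ := R + (‖F0.1‖ + ‖F0.2‖) with hS
  have n1 := norm_nonneg F0.1
  have n2 := norm_nonneg F0.2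
  have S0 : 0 < S := by linarith
  set q : ℝ := -m (-S) (-S) with hq
  have M0 : 0 ≤ κ + q := by
    have := hM (-S) (-S)
    linarith
  -- the shifted function
  set h' : ℝ → ℝ → ℝ := fun x y => h x y + q * (x * y) with hh'
  set m' : ℝ → ℝ → ℝ := fun s t => m s t + q with hm'
  have D' : Data h' (fun x t => G x t + q * x) m' := by
    refine ⟨fun x t => ?_, fun x => ?_, fun s t => ?_, fun t => ?_, fun s => ?_⟩
    · have h1 := (D.dG x t).add (((hasDerivAt_id t).const_mul x).const_mul q)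
      simp only [mul_one] at h1
      exact h1
    · have := D.cG x
      fun_prop
    · have h1 := (D.dm s t).add ((hasDerivAt_id s).const_mul q)
      simp only [mul_one] at h1
      exact h1
    · exact (D.m1 t).add_const q
    · exact (D.m2 s).add_const q
  obtain ⟨n, δ, hδ, hnδ, hε'⟩ := exists_n (S := S) M0 hε
  set x0 := sg F0 with hx0
  set y0 := ta F0 with hy0
  have bx0 : x0 ∈ Icc (-S) S := abs_le.1 ((sg_le F0).trans (by linarith))
  have by0 : y0 ∈ Icc (-S) S := abs_le.1 ((ta_le F0).trans (by linarith))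
  set u : ℝ → ℝ := fun s => m' s y0 with hu
  set v : ℝ → ℝ := m' x0 with hv
  have mu : Monotone u := D'.m1 y0
  have mv : Monotone v := D'.m2 x0
  have huv : ∀ s, u s ≤ v s := by
    intro s
    have h1 : m s y0 = m y0 s := msym s y0
    have h2 : m y0 s ≤ m x0 s := D.m1 s (ta_le_sg F0)
    simp only [hu, hv, hm']
    linarith
  have hβ : ConvexOn ℝ univ (fun x => h' x (-S)) := by
    have := (hcx (-S)).add (lin (q * (-S)))
    refine this.congr fun x _ => ?_
    simp only [Pi.add_apply, hh']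
    ring
  obtain ⟨b1, b2, hb, hb1, hb2⟩ := exists_two hβ (ta_le_sg F0)
  have hsym' : ∀ y, h' (-S) y = h' y (-S) := by
    intro y
    simp only [hh']
    rw [hsym (-S) y]
    ring
  set c0 : ℝ := EE h' S δ n u v x0 y0 - h' (-S) (-S) + (h' x0 (-S) - b1 * x0)
    + (h' y0 (-S) - b2 * y0) with hc0
  set k : ℂ × ℂ → ℝ := fun F => (∑ i ∈ Finset.range n,
    δ * (AA S (((i : ℝ) + 1) * δ) u (sg F) * AA S (((i : ℝ) + 1) * δ) v (ta F) + F.1.im ^ 2))
    + (((b1 + b2) * F.1.re + (b1 - b2) * ‖F.2‖ + c0) + (-q) * (‖F.1‖ ^ 2 - ‖F.2‖ ^ 2)) with hk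
  have keq : ∀ F, k F = SS S δ n u v (sg F) (ta F) + (κ + q) * F.1.im ^ 2
      + ((b1 * sg F + b2 * ta F + c0) + (-q) * (‖F.1‖ ^ 2 - ‖F.2‖ ^ 2)) := by
    intro F
    simp only [hk, SS, mul_add, Finset.sum_add_distrib]
    rw [Finset.sum_const, Finset.card_range, nsmul_eq_mul, ← mul_assoc, hnδ]
    unfold sg ta
    ring
  have cAu : ∀ c, Continuous (AA S c u) := fun c => AA_cont mu
  have cAv : ∀ c, Continuous (AA S c v) := fun c => AA_cont mv
  have c1 : ∀ i : ℕ, Continuous (fun F : ℂ × ℂ => δ * (AA S (((i : ℝ) + 1) * δ) u (sg F)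
      * AA S (((i : ℝ) + 1) * δ) v (ta F) + F.1.im ^ 2)) := by
    intro i
    have := cAu (((i : ℝ) + 1) * δ)
    have := cAv (((i : ℝ) + 1) * δ)
    fun_prop
  have c2 : Continuous (fun F : ℂ × ℂ => ∑ i ∈ Finset.range n, δ * (AA S (((i : ℝ) + 1) * δ) u
      (sg F) * AA S (((i : ℝ) + 1) * δ) v (ta F) + F.1.im ^ 2)) :=
    continuous_finsetSum _ fun i _ => c1 i
  refine ⟨k, ?_, ?_, fun F hF => ?_, ?_⟩
  · exact c2.add (by fun_prop)
  · have q1 : QL (fun F => ∑ i ∈ Finset.range n, δ * (AA S (((i : ℝ) + 1) * δ) u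
        (sg F) * AA S (((i : ℝ) + 1) * δ) v (ta F) + F.1.im ^ 2)) F0 :=
      QL_sum (Finset.range n) c1 (fun i _ => QL_smul hδ (QL_AAI mu mv huv F0 by0.1))
    have q2 : QL (fun F : ℂ × ℂ => (b1 + b2) * F.1.re + (b1 - b2) * ‖F.2‖ + c0) F0 := by
      refine QL_conv (by fun_prop) ?_ F0
      have e1 : ConvexOn ℝ univ (fun F : ℂ × ℂ => ((b1 + b2) • reL) F) :=
        ((b1 + b2) • reL).toLinearMap.convexOn convex_univ
      have e2 : ConvexOn ℝ univ (fun F : ℂ × ℂ => (b1 - b2) * ‖F.2‖) := by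
        have h1 : ConvexOn ℝ univ (fun z : ℂ => ‖z‖) := convexOn_univ_norm
        have h2 := h1.comp_linearMap (LinearMap.snd ℝ ℂ ℂ)
        rw [preimage_univ] at h2
        exact h2.smul (show 0 ≤ b1 - b2 by linarith)
      have e3 := (e1.add e2).add (convexOn_const c0 convex_univ)
      refine e3.congr fun F _ => ?_
      simp only [Pi.add_apply]
      simp [reL]
    exact QL_add c2 (by fun_prop) q1 (QL_add (by fun_prop) (by fun_prop) q2 (QL_det (-q) F0))
  · have bx : sg F ∈ Icc (-S) S := abs_le.1 ((sg_le F).trans (by linarith))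
    have by' : ta F ∈ Icc (-S) S := abs_le.1 ((ta_le F).trans (by linarith))
    have hb' := box D' hδ bx0 by0
      (fun s hs t ht => by
        have h1 := (D.m1 (-S) hs.1).trans (D.m2 s ht.1)
        simp only at h1
        simp only [hm', hq]
        linarith)
      (fun s _ t _ => by
        have h1 := hM s t
        simp only [hm']
        linarith) bx by'
    have g1 := hb1 (sg F)
    have g2 := hb2 (ta F)
    have g3 := det_st F
    have g4 : h' (sg F) (ta F) = h (sg F) (ta F) + q * (sg F * ta F) := rfl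
    rw [keq]
    have g5 : EE h' S δ n u v (sg F) (ta F) = h' (sg F) (ta F) - h' (sg F) (-S)
      - h' (ta F) (-S) + h' (-S) (-S) - SS S δ n u v (sg F) (ta F) := by
      unfold EE
      rw [hsym']
    rw [g5, g4, g3] at hb'
    simp only [hc0]
    linarith
  · rw [keq]
    have g3 := det_st F0
    have g4 : h' (sg F0) (ta F0) = h (sg F0) (ta F0) + q * (sg F0 * ta F0) := rfl
    have g5 : EE h' S δ n u v x0 y0 = h' x0 y0 - h' x0 (-S)
      - h' y0 (-S) + h' (-S) (-S) - SS S δ n u v x0 y0 := by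
      unfold EE
      rw [hsym']
    simp only [hc0]
    rw [g5]
    rw [hx0, hy0] at *
    rw [g4, g3]
    linarith

end Pool.Agent.Run7.h167.MC
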