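import Mathlib

/-!
# Convex functions of one variable: facts for the product class
-/

set_option autoImplicit false

namespace Pool.Agent.Run7.h167.MC

open Set Filter Topology

theorem const_of_le {g : ℝ → ℝ} (hg : ConvexOn ℝ univ g) {M : ℝ} (h : ∀ y, g y ≤ M) (x y : ℝ) :
    g y ≤ g x := by
  by_contra hc
  push Not at hc
  -- `y = (1 - 1/n) x + (1/n) (x + n (y - x))`
  obtain ⟨n, hn⟩ := exists_nat_gt ((M - g x) / (g y - g x))
  have hd : 0 < g y - g x := by linarith
  have hn0 : 0 < (n : ℝ) := by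
    rcases Nat.eq_zero_or_pos n with h0 | h0
    · exfalso
      rw [h0, Nat.cast_zero, div_lt_iff₀ hd, zero_mul] at hn
      have := h y
      linarith
    · exact_mod_cast h0
  have hn1 : 1 ≤ (n : ℝ) := by
    have : 0 < n := by exact_mod_cast hn0
    exact_mod_cast this
  have h1 := hg.2 (mem_univ x) (mem_univ (x + n * (y - x)))
    (show 0 ≤ 1 - 1 / (n : ℝ) by rw [sub_nonneg, div_le_one hn0]; exact hn1)
    (show 0 ≤ 1 / (n : ℝ) by positivity) (by ring)
  have e : (1 - 1 / (n : ℝ)) • x + (1 / (n : ℝ)) • (x + n * (y - x)) = y := by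
    simp only [smul_eq_mul]
    field_simp
    ring
  rw [e] at h1
  simp only [smul_eq_mul] at h1
  have h2 := h (x + n * (y - x))
  rw [div_lt_iff₀ hd] at hn
  have h3 : (1 / (n : ℝ)) * g (x + n * (y - x)) ≤ (1 / (n : ℝ)) * M :=
    mul_le_mul_of_nonneg_left h2 (by positivity)
  have h4 : g y ≤ g x + (1 / (n : ℝ)) * (M - g x) := by linarith
  have h5 : (1 / (n : ℝ)) * (M - g x) < g y - g x := by
    rw [one_div, inv_mul_lt_iff₀ hn0]
    exact hn
  linarith

theorem affine_of {g : ℝ → ℝ} (hg : ConvexOn ℝ univ g) (hg' : ConcaveOn ℝ univ g) :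
    ∃ a b : ℝ, ∀ x, g x = a + b * x := by
  refine ⟨g 0, g 1 - g 0, fun x => ?_⟩
  have key : ∀ u v s t : ℝ, 0 ≤ s → 0 ≤ t → s + t = 1 → g (s * u + t * v) = s * g u + t * g v := by
    intro u v s t hs ht hst
    exact le_antisymm (hg.2 (mem_univ u) (mem_univ v) hs ht hst)
      (hg'.2 (mem_univ u) (mem_univ v) hs ht hst)
  rcases le_total x 0 with h | h
  · -- `0 = (1/(1-x)) x + (-x/(1-x)) 1`
    have hp : 0 < 1 - x := by linarith
    have h1 := key x 1 (1 / (1 - x)) (-x / (1 - x)) (by positivity)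
      (div_nonneg (by linarith) hp.le) (by field_simp; ring)
    have e : 1 / (1 - x) * x + -x / (1 - x) * 1 = 0 := by field_simp; ring
    rw [e] at h1
    field_simp at h1
    linarith
  · rcases le_total x 1 with h' | h'
    · have h1 := key 0 1 (1 - x) x (by linarith) h (by ring)
      have e : (1 - x) * 0 + x * 1 = x := by ring
      rw [e] at h1
      linarith
    · have hx : 0 < x := by linarith
      have h1 := key 0 x (1 - 1 / x) (1 / x) (by rw [sub_nonneg, div_le_one hx]; exact h')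
        (by positivity) (by ring)
      have e : (1 - 1 / x) * 0 + 1 / x * x = 1 := by field_simp; ring
      rw [e] at h1
      field_simp at h1
      linarith

/-- existence of subgradients -/
theorem exists_sub {f : ℝ → ℝ} (hf : ConvexOn ℝ univ f) (x0 : ℝ) :
    ∃ s : ℝ, ∀ x, f x0 + s * (x - x0) ≤ f x := by
  set A : Set ℝ := (fun y => (f y - f x0) / (y - x0)) '' Ioi x0 with hA
  have hne : A.Nonempty := ⟨_, ⟨x0 + 1, by simp, rfl⟩⟩
  have hlow : ∀ y, y < x0 → ∀ a ∈ A, (f x0 - f y) / (x0 - y) ≤ a := by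
    rintro y hy a ⟨z, hz, rfl⟩
    exact hf.slope_mono_adjacent (mem_univ y) (mem_univ z) hy hz
  have hbd : BddBelow A := ⟨_, hlow (x0 - 1) (by linarith)⟩
  refine ⟨sInf A, fun x => ?_⟩
  rcases lt_trichotomy x x0 with h | h | h
  · have h1 := le_csInf hne (hlow x h)
    rw [div_le_iff₀ (by linarith)] at h1
    linarith
  · rw [h]; simp
  · have h1 := csInf_le hbd ⟨x, h, rfl⟩
    simp only at h1
    rw [le_div_iff₀ (by linarith)] at h1
    linarith

/-- slopes are monotone -/
theorem sl {f : ℝ → ℝ} (hf : ConvexOn ℝ univ f) {K x1 x2 u v : ℝ} (h12 : x1 < x2) (h2u : x2 ≤ u)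
    (huv : u ≤ v) (h : K * (x2 - x1) ≤ f x2 - f x1) : K * (v - u) ≤ f v - f u := by
  obtain ⟨s, hs⟩ := exists_sub hf x2
  obtain ⟨t, ht⟩ := exists_sub hf u
  have h1 := hs x1
  have h2 := hs u
  have h3 := ht x2
  have h4 := ht v
  have hKs : K ≤ s := by nlinarith
  have hst : s ≤ t ∨ u = x2 := by
    rcases h2u.lt_or_eq with h | h
    · left; nlinarith
    · exact Or.inr h.symm
  rcases hst with h5 | h5
  · nlinarith
  · rw [h5]
    rw [h5] at huv
    have := hs v
    nlinarith

/-- unbounded slopes at `+∞` -/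
def SLp (f : ℝ → ℝ) : Prop := ∀ K : ℝ, ∃ x y, x < y ∧ K * (y - x) < f y - f x

theorem growth {f : ℝ → ℝ} (hf : ConvexOn ℝ univ f) (hfc : Continuous f) (f0 : ∀ x, 0 ≤ f x)
    (hS : SLp f) {m η : ℝ} (hm : 1 < m) (hη : 0 < η) :
    ∃ x α : ℝ, 0 < α ∧ 0 < f (x - α) ∧ f (x + α) = m ^ 2 * f (x - α) ∧
      (1 - η) * (m * f (x - α)) ≤ f x ∧ α ≤ η * f (x - α) := by
  obtain ⟨x1, x2, h12, hsl⟩ := hS 1
  have hv : 0 < f x2 := by
    have := f0 x1
    linarith
  set v := f x2 with hvd
  have hinc : ∀ u w, x2 ≤ u → u ≤ w → 1 * (w - u) ≤ f w - f u := fun u w h1 h2 =>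
    sl hf h12 h1 h2 hsl.le
  have hmono : ∀ u w, x2 ≤ u → u ≤ w → f u ≤ f w := fun u w h1 h2 => by
    have := hinc u w h1 h2
    linarith
  have hpow : ∀ k : ℕ, 1 ≤ m ^ k := fun k => one_le_pow₀ hm.le
  have hu : ∀ k : ℕ, ∃ u, x2 ≤ u ∧ f u = v * m ^ k := by
    intro k
    have h1 : v * m ^ k ∈ Icc (f x2) (f (x2 + v * m ^ k)) := by
      constructor
      · rw [← hvd]
        nlinarith [hpow k]
      · have h2 : 0 ≤ v * m ^ k := by positivity
        have := hinc x2 (x2 + v * m ^ k) le_rfl (by linarith)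
        linarith
    obtain ⟨u, hu1, hu2⟩ := intermediate_value_Icc
      (show x2 ≤ x2 + v * m ^ k by have : 0 ≤ v * m ^ k := by positivity
                                   linarith) hfc.continuousOn h1
    exact ⟨u, hu1.1, hu2⟩
  choose u hu1 hu2 using hu
  have hlt : ∀ k, u k < u (k + 1) := by
    intro k
    by_contra hc
    push Not at hc
    have h1 := hmono _ _ (hu1 (k + 1)) hc
    rw [hu2, hu2, pow_succ] at h1
    have : 0 < v * m ^ k := by positivity
    nlinarith
  by_contra hno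
  push Not at hno
  obtain ⟨x3, x4, h34, hsl2⟩ := hS (m ^ 2 / η)
  obtain ⟨k0, hk0⟩ := pow_unbounded_of_one_lt (f (max x4 x2) / v) hm
  have hbig : ∀ k, k0 ≤ k → max x4 x2 < u k := by
    intro k hk
    by_contra hc
    push Not at hc
    have h1 := hmono _ _ (hu1 k) hc
    rw [hu2] at h1
    rw [div_lt_iff₀ hv] at hk0
    have h2 : m ^ k0 ≤ m ^ k := pow_le_pow_right₀ hm.le hk
    nlinarith
  have hstep : ∀ k, k0 ≤ k →
      (m - 1 + 2 * η) * (u (k + 2) - u (k + 1)) ≤ (m - 1) * (u (k + 1) - u k) := by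
    intro k hk
    have hb := hbig k hk
    have hb4 : x4 ≤ u k := (le_max_left _ _).trans hb.le
    have hfk : f (u k) = v * m ^ k := hu2 k
    have hfk1 : f (u (k + 1)) = m * f (u k) := by rw [hu2, hu2]; ring
    have hfk2 : f (u (k + 2)) = m ^ 2 * f (u k) := by rw [hu2, hu2]; ring
    have hpos : 0 < f (u k) := by rw [hfk]; positivity
    have hl1 := hlt k
    have hl2 : u (k + 1) < u (k + 2) := hlt (k + 1)
    set x := (u k + u (k + 2)) / 2 with hx
    set α := (u (k + 2) - u k) / 2 with hα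
    have ea : x - α = u k := by rw [hx, hα]; ring
    have eb : x + α = u (k + 2) := by rw [hx, hα]; ring
    have hα0 : 0 < α := by rw [hα]; linarith
    have h1 : f x < (1 - η) * (m * f (u k)) := by
      by_contra hc
      push Not at hc
      have h2 := hno x α hα0 (by rw [ea]; exact hpos) (by rw [ea, eb]; exact hfk2)
        (by rw [ea]; exact hc)
      rw [ea] at h2
      have h3 := sl hf h34 hb4 (show u k ≤ u (k + 2) by linarith) hsl2.le
      rw [hfk2] at h3
      have h4 : m ^ 2 * (u (k + 2) - u k) ≤ η * (m ^ 2 * f (u k) - f (u k)) := by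
        have h5 : m ^ 2 / η * (u (k + 2) - u k) * η = m ^ 2 * (u (k + 2) - u k) := by
          field_simp
        nlinarith
      have hm2 : 0 < m ^ 2 := by positivity
      have h5 : u (k + 2) - u k ≤ η * f (u k) := by
        by_contra hcc
        push Not at hcc
        have : m ^ 2 * (η * f (u k)) < m ^ 2 * (u (k + 2) - u k) :=
          mul_lt_mul_of_pos_left hcc hm2
        have : 0 < η * f (u k) := by positivity
        nlinarith
      rw [hα] at h2
      have : 0 < η * f (u k) := by positivity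
      linarith
    rw [← hfk1] at h1
    have hV : 0 < f (u (k + 1)) := by rw [hfk1]; positivity
    have hx2 : x2 ≤ x := by
      have := (le_max_right x4 x2).trans hb.le
      rw [hx]
      linarith
    have hxlt : x < u (k + 1) := by
      by_contra hc
      push Not at hc
      have h2 := hmono _ _ (hu1 (k + 1)) hc
      nlinarith
    have h6 := hf.slope_mono_adjacent (mem_univ x) (mem_univ (u (k + 2))) hxlt hl2
    rw [div_le_div_iff₀ (by linarith) (by linarith)] at h6
    have h7 : f (u (k + 2)) - f (u (k + 1)) = (m - 1) * f (u (k + 1)) := by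
      rw [hfk2, hfk1]; ring
    rw [h7] at h6
    have h8 : η * f (u (k + 1)) ≤ f (u (k + 1)) - f x := by linarith
    have h9 : η * f (u (k + 1)) * (u (k + 2) - u (k + 1))
        ≤ (m - 1) * f (u (k + 1)) * (u (k + 1) - x) :=
      (mul_le_mul_of_nonneg_right h8 (by linarith)).trans h6
    have h10 : η * (u (k + 2) - u (k + 1)) ≤ (m - 1) * (u (k + 1) - x) := by
      by_contra hcc
      push Not at hcc
      have := mul_lt_mul_of_pos_left hcc hV
      nlinarith
    have h11 : u (k + 1) - x = ((u (k + 1) - u k) - (u (k + 2) - u (k + 1))) / 2 := by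
      rw [hx]; ring
    rw [h11] at h10
    linarith
  -- the points stay bounded
  set C : ℝ := (m - 1 + 2 * η) / (2 * η) with hC
  have hC0 : 0 ≤ C := by rw [hC]; apply div_nonneg <;> linarith
  have hEd : ∀ k, k0 ≤ k → u (k + 1) + C * (u (k + 2) - u (k + 1)) ≤ u k + C * (u (k + 1) - u k) := by
    intro k hk
    have h1 := hstep k hk
    have h2 : C * (u (k + 2) - u (k + 1)) ≤ (m - 1) / (2 * η) * (u (k + 1) - u k) := by
      rw [hC, div_mul_eq_mul_div, div_mul_eq_mul_div]
      exact div_le_div_of_nonneg_right h1 (by linarith)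
    have h3 : C * (u (k + 1) - u k) = (u (k + 1) - u k) + (m - 1) / (2 * η) * (u (k + 1) - u k) := by
      rw [hC]; field_simp; ring
    linarith
  have hE : ∀ j : ℕ, u (k0 + j) + C * (u (k0 + j + 1) - u (k0 + j))
      ≤ u k0 + C * (u (k0 + 1) - u k0) := by
    intro j
    induction j with
    | zero => exact le_rfl
    | succ j ih =>
      have := hEd (k0 + j) (by omega)
      have e1 : k0 + (j + 1) = k0 + j + 1 := by ring
      rw [e1]
      linarith
  set U := u k0 + C * (u (k0 + 1) - u k0) with hU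
  have hub : ∀ j : ℕ, u (k0 + j) ≤ U := by
    intro j
    have h1 := hE j
    have h2 := mul_nonneg hC0 (show 0 ≤ u (k0 + j + 1) - u (k0 + j) by
      have := hlt (k0 + j); linarith)
    linarith
  obtain ⟨n, hn⟩ := pow_unbounded_of_one_lt (f U / v) hm
  rw [div_lt_iff₀ hv] at hn
  have h1 := hmono _ _ (hu1 (k0 + n)) (hub n)
  rw [hu2] at h1
  have h2 : m ^ n ≤ m ^ (k0 + n) := pow_le_pow_right₀ hm.le (by omega)
  nlinarith

/-- midpoint log-convexity -/
def LM (g : ℝ → ℝ) : Prop := ∀ y Y : ℝ, 0 < Y → g y ^ 2 ≤ g (y + Y) * g (y - Y)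

theorem LM_of {f g : ℝ → ℝ} (hf : ConvexOn ℝ univ f) (hfc : Continuous f) (f0 : ∀ x, 0 ≤ f x)
    (hS : SLp f) (hg : ConvexOn ℝ univ g) (g0 : ∀ y, 0 ≤ g y) {p q : ℝ}
    (hM : ∀ x y X Y : ℝ, 0 < X → 0 < Y →
      2 * (f x * g y) ≤ f (x + X) * g (y - Y) + f (x - X) * g (y + Y) + 2 * p * (X * Y))
    (hP : ∀ x y X Y : ℝ, 0 < X → 0 < Y →
      2 * (f x * g y) ≤ f (x + X) * g (y + Y) + f (x - X) * g (y - Y) + 2 * q * (X * Y)) :
    LM g := by
  intro y Y hY
  have key : ∀ (A B G p : ℝ), 0 ≤ A → 0 ≤ B → 0 ≤ G →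
      (∀ x X : ℝ, 0 < X → 2 * (f x * G) ≤ f (x + X) * A + f (x - X) * B + 2 * p * (X * Y)) →
      ∀ m : ℝ, 1 < m → 2 * m * G ≤ m ^ 2 * A + B := by
    intro A B G p hA hB hG h m hm
    refine le_of_forall_pos_le_add fun ε hε => ?_
    obtain ⟨η, hη, hη2⟩ : ∃ η : ℝ, 0 < η ∧ η * (2 * |p| * Y + 2 * m * G + 1) ≤ ε := by
      have hD : 0 < 2 * |p| * Y + 2 * m * G + 1 := by positivity
      exact ⟨ε / (2 * |p| * Y + 2 * m * G + 1), by positivity, by field_simp; rfl⟩
    obtain ⟨x, α, hα, hfp, h1, h2, h3⟩ := growth hf hfc f0 hS hm hη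
    have h4 := h x α hα
    rw [h1] at h4
    have h5 : 2 * ((1 - η) * (m * f (x - α)) * G) ≤ 2 * (f x * G) := by
      have := mul_le_mul_of_nonneg_right h2 hG
      linarith
    have h6 : 2 * p * (α * Y) ≤ 2 * |p| * Y * (η * f (x - α)) := by
      have a1 : 2 * p * (α * Y) ≤ 2 * |p| * (α * Y) := by
        have := le_abs_self p
        have : 0 ≤ α * Y := by positivity
        nlinarith
      have a2 : 2 * |p| * Y * α ≤ 2 * |p| * Y * (η * f (x - α)) :=
        mul_le_mul_of_nonneg_left h3 (by positivity)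
      linarith
    have h7 : f (x - α) * (2 * (1 - η) * m * G) ≤ f (x - α) * (m ^ 2 * A + B + 2 * |p| * Y * η) := by
      linarith
    have h8 := le_of_mul_le_mul_left h7 hfp
    nlinarith
  have hA := g0 (y - Y)
  have hB := g0 (y + Y)
  have hG := g0 y
  have quad : ∀ μ : ℝ, 0 ≤ g (y - Y) * (μ * μ) + (-(2 * g y)) * μ + g (y + Y) := by
    intro μ
    rcases le_or_gt μ 0 with h | h
    · have : 0 ≤ g (y - Y) * (μ * μ) := mul_nonneg hA (mul_self_nonneg μ)
      nlinarith
    · rcases lt_trichotomy μ 1 with h1 | h1 | h1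
      · have h2 := key (g (y + Y)) (g (y - Y)) (g y) q hB hA hG
          (fun x X hX => hP x y X Y hX hY) (1 / μ) (by rw [lt_div_iff₀ h]; linarith)
        have h3 : μ ^ 2 * (2 * (1 / μ) * g y) ≤ μ ^ 2 * ((1 / μ) ^ 2 * g (y + Y) + g (y - Y)) :=
          mul_le_mul_of_nonneg_left h2 (sq_nonneg μ)
        have e1 : μ ^ 2 * (2 * (1 / μ) * g y) = 2 * μ * g y := by field_simp
        have e2 : μ ^ 2 * ((1 / μ) ^ 2 * g (y + Y) + g (y - Y)) = g (y + Y) + μ ^ 2 * g (y - Y) := by
          field_simp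
        rw [e1, e2] at h3
        linarith
      · rw [h1]
        have h2 := hg.2 (mem_univ (y - Y)) (mem_univ (y + Y)) (show (0 : ℝ) ≤ 1 / 2 by norm_num)
          (show (0 : ℝ) ≤ 1 / 2 by norm_num) (by norm_num)
        have e : (1 / 2 : ℝ) • (y - Y) + (1 / 2 : ℝ) • (y + Y) = y := by
          simp only [smul_eq_mul]; ring
        rw [e] at h2
        simp only [smul_eq_mul] at h2
        linarith
      · have h2 := key (g (y - Y)) (g (y + Y)) (g y) p hA hB hG
          (fun x X hX => hM x y X Y hX hY) μ h1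
        linarith
  have hd := discrim_le_zero quad
  unfold discrim at hd
  nlinarith

theorem LM.pos {g : ℝ → ℝ} (h : LM g) (g0 : ∀ y, 0 ≤ g y) {y1 : ℝ} (h1 : g y1 ≠ 0) (y : ℝ) :
    0 < g y := by
  by_contra hc
  have hy : g y = 0 := le_antisymm (not_lt.1 hc) (g0 y)
  have hp : 0 < g y1 ^ 2 := by positivity
  rcases lt_trichotomy y y1 with h2 | h2 | h2
  · have := h y1 (y1 - y) (by linarith)
    rw [show y1 - (y1 - y) = y by ring, hy, mul_zero] at this
    linarith
  · rw [h2] at hy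
    exact h1 hy
  · have := h y1 (y - y1) (by linarith)
    rw [show y1 + (y - y1) = y by ring, hy, zero_mul] at this
    linarith

theorem SLp_of_LM {g : ℝ → ℝ} (h : LM g) (g0 : ∀ y, 0 ≤ g y) {y1 y2 : ℝ} (h12 : y1 < y2)
    (hlt : g y1 < g y2) : SLp g := by
  have h2p : 0 < g y2 := lt_of_le_of_lt (g0 y1) hlt
  have hpos : ∀ y, 0 < g y := h.pos g0 h2p.ne'
  set D := y2 - y1 with hD
  have hD0 : 0 < D := by linarith
  set r := g y2 / g y1 with hr
  have hr1 : 1 < r := by rw [hr, lt_div_iff₀ (hpos y1)]; linarith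
  have hstep : ∀ k : ℕ, r * g (y1 + k * D) ≤ g (y1 + (k + 1 : ℕ) * D) := by
    intro k
    induction k with
    | zero =>
      have e1 : y1 + ((0 : ℕ) : ℝ) * D = y1 := by simp
      have e2 : y1 + ((0 + 1 : ℕ) : ℝ) * D = y2 := by simp [hD]
      rw [e1, e2, hr, div_mul_cancel₀ _ (hpos y1).ne']
    | succ k ih =>
      have h1 := h (y1 + (k + 1 : ℕ) * D) D hD0
      have e1 : y1 + ((k + 1 : ℕ) : ℝ) * D + D = y1 + ((k + 1 + 1 : ℕ) : ℝ) * D := by
        push_cast; ring
      have e2 : y1 + ((k + 1 : ℕ) : ℝ) * D - D = y1 + (k : ℝ) * D := by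
        push_cast; ring
      rw [e1, e2] at h1
      have p0 := hpos (y1 + (k : ℝ) * D)
      have p1 := hpos (y1 + ((k + 1 : ℕ) : ℝ) * D)
      have p2 := hpos (y1 + ((k + 1 + 1 : ℕ) : ℝ) * D)
      have h2 : r * g (y1 + k * D) * g (y1 + ((k + 1 : ℕ) : ℝ) * D)
          ≤ g (y1 + ((k + 1 + 1 : ℕ) : ℝ) * D) * g (y1 + k * D) := by
        have := mul_le_mul_of_nonneg_right ih p1.le
        nlinarith
      have h3 : g (y1 + k * D) * (r * g (y1 + ((k + 1 : ℕ) : ℝ) * D))
          ≤ g (y1 + k * D) * g (y1 + ((k + 1 + 1 : ℕ) : ℝ) * D) := by linarith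
      exact le_of_mul_le_mul_left h3 p0
  have hexp : ∀ k : ℕ, g y1 * r ^ k ≤ g (y1 + k * D) := by
    intro k
    induction k with
    | zero => simp
    | succ k ih =>
      have := hstep k
      have h2 := mul_le_mul_of_nonneg_left ih (show 0 ≤ r by linarith)
      rw [pow_succ]
      linarith
  intro K
  obtain ⟨k, hk⟩ := pow_unbounded_of_one_lt (K * D / ((r - 1) * g y1)) hr1
  refine ⟨y1 + k * D, y1 + (k + 1 : ℕ) * D, by push_cast; linarith, ?_⟩
  have hp : 0 < (r - 1) * g y1 := mul_pos (by linarith) (hpos y1)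
  rw [div_lt_iff₀ hp] at hk
  have h1 := hstep k
  have h2 := hexp k
  have e : y1 + ((k + 1 : ℕ) : ℝ) * D - (y1 + k * D) = D := by push_cast; ring
  rw [e]
  have h3 := mul_le_mul_of_nonneg_left h2 (show 0 ≤ r - 1 by linarith)
  linarith

theorem SLp_or_of_LM {g : ℝ → ℝ} (h : LM g) (g0 : ∀ y, 0 ≤ g y) {y1 y2 : ℝ}
    (hne : g y1 ≠ g y2) : SLp g ∨ SLp (fun y => g (-y)) := by
  have hn : LM (fun y => g (-y)) := by
    intro y Y hY
    have := h (-y) Y hY
    simp only
    rw [show -(y + Y) = -y - Y by ring, show -(y - Y) = -y + Y by ring, mul_comm]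
    exact this
  wlog h12 : y1 < y2 generalizing y1 y2
  · rcases lt_trichotomy y1 y2 with h1 | h1 | h1
    · exact absurd h1 h12
    · exact absurd (by rw [h1]) hne
    · exact this hne.symm h1
  rcases lt_or_gt_of_ne hne with h1 | h1
  · exact Or.inl (SLp_of_LM h g0 h12 h1)
  · right
    refine SLp_of_LM hn (fun y => g0 _) (y1 := -y2) (y2 := -y1) (by linarith) ?_
    simpa using h1

end Pool.Agent.Run7.h167.MC
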