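import Pool.Agent.Run7.h167.MC.V0

/-!
# Products of functions of the diagonal entries
-/

set_option autoImplicit false

namespace Pool.Agent.Run7.h167.MC

open MeasureTheory Set Filter Topology Metric
open scoped ComplexConjugate
open Pool.Agent.W488.IW (dz dzb)
open Pool.Agent.TH937.ZC Pool.Agent.Y332.MD

theorem QL_neg {w : ℂ × ℂ → ℝ} {F0 : ℂ × ℂ} (h : QL w (-F0)) : QL (fun F => w (-F)) F0 := by
  intro f ⟨K, hf⟩ hcs
  have hg : LipschitzWith K (fun z => (-1 : ℝ) • f z) := by
    refine LipschitzWith.of_dist_le_mul fun x y => ?_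
    rw [dist_eq_norm, ← smul_sub, norm_smul]
    simp only [norm_neg, norm_one, one_mul]
    rw [← dist_eq_norm]
    exact hf.dist_le_mul x y
  have h1 := h (fun z => (-1 : ℝ) • f z) ⟨K, hg⟩ (hcs.smul_left (f := fun _ => (-1 : ℝ)))
  refine h1.trans (le_of_eq ?_)
  refine integral_congr_ae (Eventually.of_forall fun z => ?_)
  simp only [dz_smul, dzb_smul]
  have e : -F0 + ((-1 : ℝ) • dz f z, (-1 : ℝ) • dzb f z) = -(F0 + (dz f z, dzb f z)) := by
    ext1
    · simp; ring
    · simp; ring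
  rw [e]

theorem QL_conj {w : ℂ × ℂ → ℝ} {F0 : ℂ × ℂ} (h : QL w (conj F0.2, conj F0.1)) :
    QL (fun F => w (conj F.2, conj F.1)) F0 := by
  intro f ⟨K, hf⟩ hcs
  have hg : LipschitzWith K (fun z => conj (f z)) := by
    refine LipschitzWith.of_dist_le_mul fun x y => ?_
    rw [dist_eq_norm, ← map_sub, Complex.norm_conj, ← dist_eq_norm]
    exact hf.dist_le_mul x y
  have hgc : HasCompactSupport (fun z => conj (f z)) := by
    refine hcs.mono' ?_
    intro z hz
    apply subset_tsupport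
    intro h0
    apply hz
    simp [h0]
  have h1 := h (fun z => conj (f z)) ⟨K, hg⟩ hgc
  refine h1.trans (le_of_eq ?_)
  refine integral_congr_ae (Eventually.of_forall fun z => ?_)
  simp only [dz_conj, dzb_conj, Prod.fst_add, Prod.snd_add, ← map_add, Prod.mk_add_mk]

/-- the first diagonal entry -/
def xx (F : ℂ × ℂ) : ℝ := F.1.re + F.2.re

/-- the second diagonal entry -/
def yy (F : ℂ × ℂ) : ℝ := F.1.re - F.2.re

theorem cont_xx : Continuous xx := by unfold xx; fun_prop

theorem cont_yy : Continuous yy := by unfold yy; fun_prop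

/-- the four corners -/
noncomputable def Cg (e1 e2 a b : ℝ) (F : ℂ × ℂ) : ℝ :=
  max (e1 * xx F - a) 0 * max (e2 * yy F - b) 0

theorem cont_Cg (e1 e2 a b : ℝ) : Continuous (Cg e1 e2 a b) := by
  have := cont_xx
  have := cont_yy
  unfold Cg
  fun_prop

/-- the part of the quadratic form which pays for a corner -/
noncomputable def Qe (e : ℝ) (F : ℂ × ℂ) : ℝ :=
  (1 + e) / 2 * F.1.im ^ 2 + (1 - e) / 2 * F.2.im ^ 2

theorem cont_Qe (e : ℝ) : Continuous (Qe e) := by
  unfold Qe
  fun_prop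

theorem QL_Cg {e1 e2 : ℝ} (h1 : e1 = 1 ∨ e1 = -1) (h2 : e2 = 1 ∨ e2 = -1) (a b : ℝ)
    (F0 : ℂ × ℂ) : QL (fun F => Cg e1 e2 a b F + Qe (e1 * e2) F) F0 := by
  rcases h1 with rfl | rfl <;> rcases h2 with rfl | rfl
  · have h := QL_Cab a b F0
    convert h using 2 with F
    unfold Cg Qe Cab xx yy
    ring_nf
  · have h := QL_conj (F0 := F0) (QL_Cab a b _)
    convert h using 2 with F
    unfold Cg Qe Cab xx yy
    simp only [Complex.conj_re, Complex.conj_im]
    ring_nf
  · have h := QL_neg (F0 := F0) (QL_conj (QL_Cab a b _))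
    convert h using 2 with F
    unfold Cg Qe Cab xx yy
    simp only [Prod.snd_neg, Prod.fst_neg, Complex.conj_re, Complex.conj_im, Complex.neg_re,
      Complex.neg_im]
    ring_nf
  · have h := QL_neg (F0 := F0) (QL_Cab a b _)
    convert h using 2 with F
    unfold Cg Qe Cab xx yy
    simp only [Prod.snd_neg, Prod.fst_neg, Complex.neg_re, Complex.neg_im]
    ring_nf

/-- the imaginary parts -/
noncomputable def imL1 : ℂ × ℂ →L[ℝ] ℝ := Complex.imCLM.comp (ContinuousLinearMap.fst ℝ ℂ ℂ)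

noncomputable def imL2 : ℂ × ℂ →L[ℝ] ℝ := Complex.imCLM.comp (ContinuousLinearMap.snd ℝ ℂ ℂ)

noncomputable def reL2 : ℂ × ℂ →L[ℝ] ℝ := Complex.reCLM.comp (ContinuousLinearMap.snd ℝ ℂ ℂ)

theorem convex_sq (L : ℂ × ℂ →L[ℝ] ℝ) {c : ℝ} (hc : 0 ≤ c) :
    ConvexOn ℝ univ (fun F : ℂ × ℂ => c * L F ^ 2) := by
  have h1 : ConvexOn ℝ univ (fun x : ℝ => x ^ 2) := (even_two).convexOn_pow
  have h2 := h1.comp_linearMap L.toLinearMap
  rw [preimage_univ] at h2
  exact h2.smul hc

theorem QL_quad {p q : ℝ} (hp : 0 ≤ p) (hq : 0 ≤ q) (F0 : ℂ × ℂ) :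
    QL (fun F => p * F.1.im ^ 2 + q * F.2.im ^ 2) F0 :=
  QL_conv (by fun_prop) ((convex_sq imL1 hp).add (convex_sq imL2 hq)) F0

/-- the product class at one point -/
theorem QL_prod {f g : ℝ → ℝ} (hf : Continuous f) (hg : Continuous g) (f0 : ∀ x, 0 ≤ f x)
    (g0 : ∀ y, 0 ≤ g y) {p q : ℝ} (F0 : ℂ × ℂ) {s t : ℝ}
    (hs : ∀ x, f (xx F0) + s * (x - xx F0) ≤ f x) (ht : ∀ y, g (yy F0) + t * (y - yy F0) ≤ g y)
    (hp0 : 0 ≤ p) (hq0 : 0 ≤ q) (hp : s * t ≤ p) (hq : -(s * t) ≤ q) :
    QL (fun F => f (xx F) * g (yy F) + (p * F.1.im ^ 2 + q * F.2.im ^ 2)) F0 := by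
  have cx := cont_xx
  have cy := cont_yy
  have cw : Continuous (fun F => f (xx F) * g (yy F) + (p * F.1.im ^ 2 + q * F.2.im ^ 2)) := by
    fun_prop
  by_cases hst : s = 0 ∨ t = 0
  · -- one slope vanishes
    rcases hst with rfl | rfl
    · have hk : QL (fun F => (f (xx F0) * (g (yy F0) + t * (yy F - yy F0)))
          + (p * F.1.im ^ 2 + q * F.2.im ^ 2)) F0 := by
        refine QL_add (by fun_prop) (by fun_prop) ?_ (QL_quad hp0 hq0 F0)
        exact QL_affine ((f (xx F0) * t) • (reL - reL2))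
          (f (xx F0) * (g (yy F0) - t * yy F0))
          (fun F => by simp [reL, reL2, yy]; ring) F0
      refine QL_ge cw (by fun_prop) hk (fun F => ?_) ?_
      · have h1 := hs (xx F)
        rw [zero_mul, add_zero] at h1
        have h2 := ht (yy F)
        have h3 : f (xx F0) * (g (yy F0) + t * (yy F - yy F0)) ≤ f (xx F0) * g (yy F) :=
          mul_le_mul_of_nonneg_left h2 (f0 _)
        have h4 : f (xx F0) * g (yy F) ≤ f (xx F) * g (yy F) :=
          mul_le_mul_of_nonneg_right h1 (g0 _)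
        linarith
      · simp
    · have hk : QL (fun F => (g (yy F0) * (f (xx F0) + s * (xx F - xx F0)))
          + (p * F.1.im ^ 2 + q * F.2.im ^ 2)) F0 := by
        refine QL_add (by fun_prop) (by fun_prop) ?_ (QL_quad hp0 hq0 F0)
        exact QL_affine ((g (yy F0) * s) • (reL + reL2))
          (g (yy F0) * (f (xx F0) - s * xx F0))
          (fun F => by simp [reL, reL2, xx]; ring) F0
      refine QL_ge cw (by fun_prop) hk (fun F => ?_) ?_
      · have h1 := hs (xx F)
        have h2 := ht (yy F)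
        rw [zero_mul, add_zero] at h2
        have h3 : g (yy F0) * (f (xx F0) + s * (xx F - xx F0)) ≤ g (yy F0) * f (xx F) :=
          mul_le_mul_of_nonneg_left h1 (g0 _)
        have h4 : f (xx F) * g (yy F0) ≤ f (xx F) * g (yy F) :=
          mul_le_mul_of_nonneg_left h2 (f0 _)
        linarith [mul_comm (g (yy F0)) (f (xx F))]
      · simp [mul_comm]
  · rw [not_or] at hst
    obtain ⟨hs0, ht0⟩ := hst
    obtain ⟨e1, he1, he1s⟩ : ∃ e1 : ℝ, (e1 = 1 ∨ e1 = -1) ∧ s = |s| * e1 := by
      rcases lt_or_gt_of_ne hs0 with h | h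
      · exact ⟨-1, Or.inr rfl, by rw [abs_of_neg h]; ring⟩
      · exact ⟨1, Or.inl rfl, by rw [abs_of_pos h]; ring⟩
    obtain ⟨e2, he2, he2t⟩ : ∃ e2 : ℝ, (e2 = 1 ∨ e2 = -1) ∧ t = |t| * e2 := by
      rcases lt_or_gt_of_ne ht0 with h | h
      · exact ⟨-1, Or.inr rfl, by rw [abs_of_neg h]; ring⟩
      · exact ⟨1, Or.inl rfl, by rw [abs_of_pos h]; ring⟩
    have hS : 0 < |s| := abs_pos.2 hs0
    have hT : 0 < |t| := abs_pos.2 ht0
    set S := |s| with hSd
    set T := |t| with hTd
    set a : ℝ := e1 * xx F0 - f (xx F0) / S with ha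
    set b : ℝ := e2 * yy F0 - g (yy F0) / T with hb
    have hfl : ∀ x, S * max (e1 * x - a) 0 ≤ f x := by
      intro x
      rw [mul_max_of_nonneg _ _ hS.le, mul_zero]
      apply max_le _ (f0 x)
      have h1 := hs x
      rw [he1s] at h1
      have : S * (e1 * x - a) = f (xx F0) + S * e1 * (x - xx F0) := by
        rw [ha]; field_simp; ring
      linarith
    have hgl : ∀ y, T * max (e2 * y - b) 0 ≤ g y := by
      intro y
      rw [mul_max_of_nonneg _ _ hT.le, mul_zero]
      apply max_le _ (g0 y)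
      have h1 := ht y
      rw [he2t] at h1
      have : T * (e2 * y - b) = g (yy F0) + T * e2 * (y - yy F0) := by
        rw [hb]; field_simp; ring
      linarith
    have hfe : S * max (e1 * xx F0 - a) 0 = f (xx F0) := by
      have e : e1 * xx F0 - a = f (xx F0) / S := by rw [ha]; ring
      rw [e, max_eq_left (div_nonneg (f0 _) hS.le)]
      field_simp
    have hge : T * max (e2 * yy F0 - b) 0 = g (yy F0) := by
      have e : e2 * yy F0 - b = g (yy F0) / T := by rw [hb]; ring
      rw [e, max_eq_left (div_nonneg (g0 _) hT.le)]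
      field_simp
    have hST : s * t = S * T * (e1 * e2) := by
      rw [he1s, he2t]
      ring
    have hSTpos : 0 < S * T := mul_pos hS hT
    have hrest : QL (fun F => (p - S * T * ((1 + e1 * e2) / 2)) * F.1.im ^ 2
        + (q - S * T * ((1 - e1 * e2) / 2)) * F.2.im ^ 2) F0 := by
      apply QL_quad
      · rcases he1 with rfl | rfl <;> rcases he2 with rfl | rfl <;> norm_num <;>
          norm_num at hST <;> linarith
      · rcases he1 with rfl | rfl <;> rcases he2 with rfl | rfl <;> norm_num <;>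
          norm_num at hST <;> linarith
    have hcg := cont_Cg e1 e2 a b
    have hqe := cont_Qe (e1 * e2)
    have hk := QL_add (by fun_prop) (by fun_prop)
      (QL_smul hSTpos.le (QL_Cg he1 he2 a b F0)) hrest
    refine QL_ge cw (by fun_prop) hk (fun F => ?_) ?_
    · have h1 : S * T * Cg e1 e2 a b F ≤ f (xx F) * g (yy F) := by
        have h2 := mul_le_mul (hfl (xx F)) (hgl (yy F))
          (mul_nonneg hT.le (le_max_right _ _)) (f0 _)
        unfold Cg
        linarith
      unfold Qe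
      linarith
    · have h1 : S * T * Cg e1 e2 a b F0 = f (xx F0) * g (yy F0) := by
        unfold Cg
        have e1' : ∀ A B : ℝ, S * T * (A * B) = S * A * (T * B) := fun A B => by ring
        rw [e1', hfe, hge]
      unfold Qe
      linarith

end Pool.Agent.Run7.h167.MC
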