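import Pool.Agent.Y332.MD.Ker

/-!
# The limit of Šverák's functions and its corners

`V0 F = (Im u_z)² + ((Re u_z)₊² - |u_zbar|²)₊` is quasiconvex.  So is, for all real `a, b`, the
corner `(F₀₀ - a)₊ (F₁₁ - b)₊ + (F₀₁ - F₁₀)²/4`.
-/

set_option autoImplicit false

namespace Pool.Agent.Run7.h167.MC

open MeasureTheory Set Filter Topology Metric
open Pool.Agent.TH937.ZC Pool.Agent.Y332.MD

/-- the limit function -/
noncomputable def V0 (F : ℂ × ℂ) : ℝ :=
  F.1.im ^ 2 + max (max F.1.re 0 ^ 2 - ‖F.2‖ ^ 2) 0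

theorem cont_V0 : Continuous V0 := by
  unfold V0
  fun_prop

/-- the translated kernel -/
noncomputable def kV (c : ℝ) (F : ℂ × ℂ) : ℝ :=
  Kc c ‖F.1 - (c : ℂ)‖ ‖F.2‖ + (2 * c * F.1.re - 2 * c ^ 2)

theorem cont_kV (c : ℝ) : Continuous (kV c) := by
  unfold kV Kc
  fun_prop

theorem QL_affine {w : ℂ × ℂ → ℝ} (L : ℂ × ℂ →L[ℝ] ℝ) (c : ℝ) (h : ∀ F, w F = L F + c)
    (F0 : ℂ × ℂ) : QL w F0 := by
  have e : w = fun F => L F + c := funext h
  rw [e]
  refine QL_conv (by fun_prop) ?_ F0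
  exact (L.toLinearMap.convexOn convex_univ).add (convexOn_const c convex_univ)

/-- the real part of the first component -/
noncomputable def reL : ℂ × ℂ →L[ℝ] ℝ := Complex.reCLM.comp (ContinuousLinearMap.fst ℝ ℂ ℂ)

theorem QL_kV {c : ℝ} (hc : 0 < c) (F0 : ℂ × ℂ) : QL (kV c) F0 := by
  have h1 := QL_shift (w := fun F : ℂ × ℂ => Kc c ‖F.1‖ ‖F.2‖) (F0 := F0)
    (F1 := (F0.1 - (c : ℂ), F0.2)) (QL_Kc hc _)
  have e : ∀ F : ℂ × ℂ, F + ((F0.1 - (c : ℂ), F0.2) - F0) = (F.1 - (c : ℂ), F.2) := by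
    intro F
    ext1
    · simp only [Prod.fst_add, Prod.fst_sub]; ring
    · simp
  simp only [e] at h1
  have h2 : QL (fun F : ℂ × ℂ => 2 * c * F.1.re - 2 * c ^ 2) F0 :=
    QL_affine ((2 * c) • reL) (-(2 * c ^ 2)) (fun F => by simp [reL]; ring) F0
  refine QL_add ?_ (by fun_prop) h1 h2
  unfold Kc
  fun_prop

/-- the distance `η = N - (c - x)` -/
theorem eta_facts {c x o : ℝ} (h : x < c) :
    ∃ η : ℝ, 0 ≤ η ∧ ‖((⟨x, o⟩ : ℂ) - (c : ℂ))‖ = (c - x) + η ∧
      η * (2 * (c - x) + η) = o ^ 2 := by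
  refine ⟨‖((⟨x, o⟩ : ℂ) - (c : ℂ))‖ - (c - x), ?_, by ring, ?_⟩
  · have h1 := Complex.abs_re_le_norm ((⟨x, o⟩ : ℂ) - (c : ℂ))
    simp only [Complex.sub_re, Complex.ofReal_re] at h1
    have := neg_abs_le (x - c)
    linarith
  · have h2 : ‖((⟨x, o⟩ : ℂ) - (c : ℂ))‖ ^ 2 = (x - c) ^ 2 + o ^ 2 := by
      rw [← Complex.normSq_eq_norm_sq, Complex.normSq_apply]
      simp
      ring
    nlinarith [h2]

theorem kV_eq {c x o η : ℝ} {z : ℂ} (h1 : ‖((⟨x, o⟩ : ℂ) - (c : ℂ))‖ = (c - x) + η) :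
    kV c (⟨x, o⟩, z) = 2 * c * η + max (max (x - η) 0 ^ 2 - ‖z‖ ^ 2) 0 := by
  unfold kV Kc
  simp only [h1]
  have : c - (c - x + η) = x - η := by ring
  rw [this]
  ring

theorem kV_le {R c : ℝ} (hR : 0 < R) (hc : 2 * R ≤ c) {F : ℂ × ℂ} (hF : ‖F.1‖ + ‖F.2‖ ≤ R) :
    kV c F ≤ V0 F + 2 * R ^ 3 / c := by
  obtain ⟨⟨x, o⟩, z⟩ := F
  have hn : ‖(⟨x, o⟩ : ℂ)‖ ≤ R := by
    have := norm_nonneg z
    simp only at hF
    linarith
  have hx : |x| ≤ R := (Complex.abs_re_le_norm (⟨x, o⟩ : ℂ)).trans hn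
  have ho : |o| ≤ R := (Complex.abs_im_le_norm (⟨x, o⟩ : ℂ)).trans hn
  have hx' := abs_le.1 hx
  have ho' := abs_le.1 ho
  have hc0 : 0 < c := by linarith
  have hcx : 0 < c - x := by linarith
  obtain ⟨η, hη, h1, h2⟩ := eta_facts (c := c) (x := x) (o := o) (by linarith)
  rw [kV_eq h1]
  unfold V0
  simp only
  have m1 : max (max (x - η) 0 ^ 2 - ‖z‖ ^ 2) 0 ≤ max (max x 0 ^ 2 - ‖z‖ ^ 2) 0 := by
    apply max_le_max _ le_rfl
    have : max (x - η) 0 ≤ max x 0 := max_le_max (by linarith) le_rfl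
    have := le_max_right (x - η) 0
    nlinarith
  have m2 : 2 * c * η ≤ o ^ 2 + 2 * R ^ 3 / c := by
    have e1 : η ≤ o ^ 2 / (2 * (c - x)) := by
      rw [le_div_iff₀ (by positivity)]
      nlinarith [sq_nonneg η]
    have e2 : 2 * c * (o ^ 2 / (2 * (c - x))) = o ^ 2 + o ^ 2 * x / (c - x) := by
      field_simp
      ring
    have e3 : o ^ 2 * x / (c - x) ≤ 2 * R ^ 3 / c := by
      rw [div_le_div_iff₀ hcx hc0]
      have e4 : o ^ 2 * x ≤ R ^ 3 := by
        have : o ^ 2 ≤ R ^ 2 := by nlinarith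
        have e5 : o ^ 2 * x ≤ o ^ 2 * R := mul_le_mul_of_nonneg_left hx'.2 (sq_nonneg o)
        nlinarith
      have e6 : c ≤ 2 * (c - x) := by linarith
      have e7 : 0 ≤ R ^ 3 := by positivity
      calc o ^ 2 * x * c ≤ R ^ 3 * c := mul_le_mul_of_nonneg_right e4 hc0.le
        _ ≤ R ^ 3 * (2 * (c - x)) := mul_le_mul_of_nonneg_left e6 e7
        _ = 2 * R ^ 3 * (c - x) := by ring
    have e8 : 2 * c * η ≤ 2 * c * (o ^ 2 / (2 * (c - x))) :=
      mul_le_mul_of_nonneg_left e1 (by positivity)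
    linarith
  linarith

theorem le_kV {R c : ℝ} (hR : 0 < R) (hc : 2 * R ≤ c) {F : ℂ × ℂ} (hF : ‖F.1‖ + ‖F.2‖ ≤ R) :
    V0 F ≤ kV c F + 5 * R ^ 3 / c := by
  obtain ⟨⟨x, o⟩, z⟩ := F
  have hn : ‖(⟨x, o⟩ : ℂ)‖ ≤ R := by
    have := norm_nonneg z
    simp only at hF
    linarith
  have hx : |x| ≤ R := (Complex.abs_re_le_norm (⟨x, o⟩ : ℂ)).trans hn
  have ho : |o| ≤ R := (Complex.abs_im_le_norm (⟨x, o⟩ : ℂ)).trans hn
  have hx' := abs_le.1 hx
  have ho' := abs_le.1 ho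
  have hc0 : 0 < c := by linarith
  have hcx : 0 < c - x := by linarith
  obtain ⟨η, hη, h1, h2⟩ := eta_facts (c := c) (x := x) (o := o) (by linarith)
  rw [kV_eq h1]
  unfold V0
  simp only
  have hoo : o ^ 2 ≤ R ^ 2 := by nlinarith
  have eη : η ≤ R ^ 2 / c := by
    rw [le_div_iff₀ hc0]
    have : c * η ≤ 2 * (c - x) * η := mul_le_mul_of_nonneg_right (by linarith) hη
    nlinarith [sq_nonneg η]
  have m1 : max (max x 0 ^ 2 - ‖z‖ ^ 2) 0 ≤ max (max (x - η) 0 ^ 2 - ‖z‖ ^ 2) 0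
      + 2 * R * (R ^ 2 / c) := by
    have p0 : 0 ≤ 2 * R * (R ^ 2 / c) := by positivity
    apply max_le
    · have q1 : max x 0 ^ 2 ≤ max (x - η) 0 ^ 2 + 2 * R * (R ^ 2 / c) := by
        rcases le_total x 0 with h | h
        · rw [max_eq_right h]
          have := sq_nonneg (max (x - η) 0)
          nlinarith
        · rw [max_eq_left h]
          rcases le_total (x - η) 0 with h3 | h3
          · rw [max_eq_right h3]
            have : x ^ 2 ≤ R * (R ^ 2 / c) := by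
              have a1 : x ≤ R ^ 2 / c := by linarith
              nlinarith [hx'.2]
            nlinarith
          · rw [max_eq_left h3]
            have : 2 * x * η ≤ 2 * R * (R ^ 2 / c) := by
              have a1 : x * η ≤ R * (R ^ 2 / c) :=
                mul_le_mul hx'.2 eη hη hR.le
              linarith
            nlinarith [sq_nonneg η]
      have := le_max_left (max (x - η) 0 ^ 2 - ‖z‖ ^ 2) 0
      linarith
    · have := le_max_right (max (x - η) 0 ^ 2 - ‖z‖ ^ 2) 0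
      linarith
  have m2 : o ^ 2 ≤ 2 * c * η + 3 * R * (R ^ 2 / c) := by
    have a4 : η ≤ R := by
      refine eη.trans ?_
      rw [div_le_iff₀ hc0]
      nlinarith
    have a5 : η * (η - 2 * x) ≤ η * (3 * R) := by
      apply mul_le_mul_of_nonneg_left _ hη
      linarith
    have a6 : η * (3 * R) ≤ (R ^ 2 / c) * (3 * R) :=
      mul_le_mul_of_nonneg_right eη (by linarith)
    nlinarith
  have e : 5 * R ^ 3 / c = 2 * R * (R ^ 2 / c) + 3 * R * (R ^ 2 / c) := by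
    ring
  rw [e]
  linarith

/-- the limit function is quasiconvex -/
theorem QL_V0 (F0 : ℂ × ℂ) : QL V0 F0 := by
  apply QL_support cont_V0
  intro R ε hR hε
  set S : ℝ := R + (‖F0.1‖ + ‖F0.2‖) with hS
  have hn1 := norm_nonneg F0.1
  have hn2 := norm_nonneg F0.2
  have hS0 : 0 < S := by linarith
  set c : ℝ := 2 * S + 5 * S ^ 3 / ε with hc
  have hp : 0 ≤ 5 * S ^ 3 / ε := by positivity
  have hcS : 2 * S ≤ c := by linarith
  have hc0 : 0 < c := by linarith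
  have hb : 5 * S ^ 3 / c ≤ ε := by
    rw [div_le_iff₀ hc0]
    have : 5 * S ^ 3 = ε * (5 * S ^ 3 / ε) := by field_simp
    have h2 : ε * (5 * S ^ 3 / ε) ≤ ε * c := mul_le_mul_of_nonneg_left (by linarith) hε.le
    linarith
  have hb2 : 2 * S ^ 3 / c ≤ ε := by
    refine le_trans ?_ hb
    apply div_le_div_of_nonneg_right _ hc0.le
    nlinarith [pow_pos hS0 3]
  refine ⟨kV c, cont_kV c, QL_kV hc0 F0, fun F hF => ?_, ?_⟩
  · have := kV_le hS0 hcS (F := F) (by linarith)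
    linarith
  · have := le_kV hS0 hcS (F := F0) (by linarith)
    linarith

/-- the corner with thresholds `a, b` -/
noncomputable def Cab (a b : ℝ) (F : ℂ × ℂ) : ℝ :=
  max (F.1.re + F.2.re - a) 0 * max (F.1.re - F.2.re - b) 0 + F.1.im ^ 2

theorem cont_Cab (a b : ℝ) : Continuous (Cab a b) := by
  unfold Cab
  fun_prop

theorem key_prod (A B : ℝ) :
    max A 0 * max B 0 = max (max ((A + B) / 2) 0 ^ 2 - ((A - B) / 2) ^ 2) 0 := by
  rcases le_total A 0 with h | h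
  · rw [max_eq_right h, zero_mul]
    symm
    apply max_eq_right
    rcases le_total (A + B) 0 with h2 | h2
    · rw [max_eq_right (by linarith)]
      nlinarith [sq_nonneg ((A - B) / 2)]
    · rw [max_eq_left (by linarith)]
      nlinarith
  · rcases le_total B 0 with h1 | h1
    · rw [max_eq_right h1, mul_zero]
      symm
      apply max_eq_right
      rcases le_total (A + B) 0 with h2 | h2
      · rw [max_eq_right (by linarith)]
        nlinarith [sq_nonneg ((A - B) / 2)]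
      · rw [max_eq_left (by linarith)]
        nlinarith
    · have g1 : max ((A + B) / 2) 0 = (A + B) / 2 := max_eq_left (by linarith)
      have g2 : 0 ≤ ((A + B) / 2) ^ 2 - ((A - B) / 2) ^ 2 := by
        have : 0 ≤ A * B := mul_nonneg h h1
        linarith [show ((A + B) / 2) ^ 2 - ((A - B) / 2) ^ 2 = A * B by ring]
      rw [max_eq_left h, max_eq_left h1, g1, max_eq_left g2]
      ring

/-- corners are quasiconvex -/
theorem QL_Cab (a b : ℝ) (F0 : ℂ × ℂ) : QL (Cab a b) F0 := by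
  set A : ℂ × ℂ := ((((a + b) / 2 : ℝ) : ℂ), ⟨(a - b) / 2, F0.2.im⟩) with hA
  have h1 := QL_shift (w := V0) (F0 := F0) (F1 := F0 - A) (QL_V0 _)
  have e : ∀ F : ℂ × ℂ, F + ((F0 - A) - F0) = F - A := by
    intro F
    abel
  simp only [e] at h1
  have hz : ∀ F : ℂ × ℂ, V0 (F - A) = F.1.im ^ 2 +
      max (max (F.1.re - (a + b) / 2) 0 ^ 2
        - ((F.2.re - (a - b) / 2) ^ 2 + (F.2.im - F0.2.im) ^ 2)) 0 := by
    intro F
    unfold V0
    have e2 : ‖(F - A).2‖ ^ 2 = (F.2.re - (a - b) / 2) ^ 2 + (F.2.im - F0.2.im) ^ 2 := by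
      rw [← Complex.normSq_eq_norm_sq, Complex.normSq_apply]
      simp [hA]
      ring
    rw [e2]
    simp [hA]
  have hC : ∀ F : ℂ × ℂ, Cab a b F = F.1.im ^ 2 +
      max (max (F.1.re - (a + b) / 2) 0 ^ 2 - (F.2.re - (a - b) / 2) ^ 2) 0 := by
    intro F
    unfold Cab
    rw [key_prod, show (F.1.re + F.2.re - a + (F.1.re - F.2.re - b)) / 2 = F.1.re - (a + b) / 2 by
      ring, show (F.1.re + F.2.re - a - (F.1.re - F.2.re - b)) / 2 = F.2.re - (a - b) / 2 by ring]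
    ring
  refine QL_ge (cont_Cab a b) (cont_V0.comp (by fun_prop)) h1 (fun F => ?_) ?_
  · simp only [Function.comp]
    rw [hz, hC]
    have := max_le_max (show max (F.1.re - (a + b) / 2) 0 ^ 2
        - ((F.2.re - (a - b) / 2) ^ 2 + (F.2.im - F0.2.im) ^ 2)
        ≤ max (F.1.re - (a + b) / 2) 0 ^ 2 - (F.2.re - (a - b) / 2) ^ 2 by
      nlinarith [sq_nonneg (F.2.im - F0.2.im)]) (le_refl (0 : ℝ))
    linarith
  · simp only [Function.comp]
    rw [hz, hC]
    simp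

end Pool.Agent.Run7.h167.MC
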